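import Mathlib
import Pool.Agent.J4H39.P1

set_option autoImplicit false

/-! The two descriptions of the chain of the pairs: `ns` (helper39) and `q step` (helper499) agree. -/

namespace Pool.Agent.J4H26.CC

open Finset
open Pool.Agent.J4H39
open Pool.Agent.H499R2.CO (q step q_zero_ne q_o q_succ step_ef step_et step_0f step_0t step_sf step_st)

theorem pr0_two (u : ℤ) : pr 0 (0 + 2 * u) = 0 := by
  unfold pr; simp

theorem pr0_two1 (u : ℤ) : pr 0 (1 + 2 * u) = 1 := by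
  unfold pr; simp

theorem T_two0 (u : ℤ) : T (0 + 2 * u) = u := by
  unfold T
  rw [if_pos (by omega)]; omega

theorem T_two1 (u : ℤ) : T (1 + 2 * u) = 3 * u + 2 := by
  unfold T
  rw [if_neg (by omega)]; omega

theorem ex_one (g : ℤ → ℝ) : ex 1 g = (g 0 + g 1) / 2 := by
  unfold ex
  rw [pow_one, sum_range_succ, sum_range_one]
  push_cast
  ring

theorem ex_run (k : ℕ) (F : ℤ × ℤ → ℝ) (s : ℤ × ℤ) :
    ex (k + 1) (fun y => F (rn stP (k + 1) s y)) =
      (ex k (fun y => F (rn stP k (stP s 0) y)) + ex k (fun y => F (rn stP k (stP s 1) y))) / 2 := by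
  rw [add_comm k 1, ex_tower, ex_one]
  have h0 : ∀ u : ℤ, rn stP (1 + k) s (0 + 2 ^ 1 * u) = rn stP k (stP s 0) u := by
    intro u
    rw [pow_one, rn_succ', pr0_two, T_two0]
  have h1 : ∀ u : ℤ, rn stP (1 + k) s (1 + 2 ^ 1 * u) = rn stP k (stP s 1) (3 * u + 2) := by
    intro u
    rw [pow_one, rn_succ', pr0_two1, T_two1]
  simp only [h0, h1]
  congr 2
  exact ex_affine k (P := fun y => F (rn stP k (stP s 1) y)) ((per_rn stP (stP s 1) (le_refl k)).comp F) (by norm_num) 2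

theorem ns_eq (k : ℕ) (s : ℤ × ℤ) : ns k s = ex k (fun y => (fun s' : ℤ × ℤ => if s' ≠ (0, 0) then (1 : ℝ) else 0) (rn stP k s y)) := by
  unfold ns pb
  congr 1
  ext y
  by_cases h : rn stP k s y = (0, 0)
  · simp [h]
  · simp [h]

theorem ns_succ (k : ℕ) (s : ℤ × ℤ) : ns (k + 1) s = (ns k (stP s 0) + ns k (stP s 1)) / 2 := by
  rw [ns_eq, ns_eq, ns_eq]
  exact ex_run k (fun s' : ℤ × ℤ => if s' ≠ (0, 0) then (1 : ℝ) else 0) s

theorem ns_zero (s : ℤ × ℤ) : ns 0 s = if s ≠ (0, 0) then 1 else 0 := by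
  rw [ns_eq, ex_zero]; rfl

theorem stP_e {i : ℕ} {r : ℤ} (h : r % 2 = 0) : stP ((i : ℤ), r) 0 = ((i : ℤ), r / 2) := by
  unfold stP
  simp only [Nat.cast_zero, zero_add, h, add_zero, sub_zero]
  have e1 : (-(i : ℤ)).toNat = 0 := by omega
  simp [e1]

theorem stP_e1 {i : ℕ} {r : ℤ} (h : r % 2 = 0) : stP ((i : ℤ), r) 1 = ((i : ℤ), (3 * r + 1 - 3 ^ i) / 2) := by
  unfold stP
  have h1 : (((1 : ℕ) : ℤ) + r) % 2 = 1 := by push_cast; omega
  simp only [h1]
  have e1 : (-((i : ℤ) + 1 - ((1 : ℕ) : ℤ))).toNat = 0 := by push_cast; omega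
  have e2 : ((i : ℤ) + 1 - ((1 : ℕ) : ℤ)).toNat = i := by push_cast; omega
  have e3 : (-(i : ℤ)).toNat = 0 := by omega
  have e4 : (i : ℤ) + 1 - ((1 : ℕ) : ℤ) = i := by push_cast; ring
  rw [e1, e2, e3, e4]
  simp

theorem stP_0f {r : ℤ} (h : r % 2 = 1) : stP (0, r) 0 = (1, (3 * r + 1) / 2) := by
  unfold stP
  have h1 : (((0 : ℕ) : ℤ) + r) % 2 = 1 := by push_cast; omega
  simp only [h1]
  have e1 : (-1 : ℤ).toNat = 0 := rfl
  norm_num [e1]

theorem stP_0t {r : ℤ} (h : r % 2 = 1) : stP (0, r) 1 = (-1, (3 * r - 1) / 2) := by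
  unfold stP
  have h1 : (((1 : ℕ) : ℤ) + r) % 2 = 0 := by push_cast; omega
  simp only [h1]
  have e1 : (-1 : ℤ).toNat = 0 := rfl
  norm_num [e1]

theorem stP_sf {i : ℕ} {r : ℤ} (h : r % 2 = 1) : stP (((i + 1 : ℕ) : ℤ), r) 0 = (((i + 2 : ℕ) : ℤ), (3 * r + 1) / 2) := by
  unfold stP
  have h1 : (((0 : ℕ) : ℤ) + r) % 2 = 1 := by push_cast; omega
  simp only [h1]
  have e1 : (-(((i + 1 : ℕ) : ℤ) + 1 - ((0 : ℕ) : ℤ))).toNat = 0 := by push_cast; omega
  have e3 : (-((i + 1 : ℕ) : ℤ)).toNat = 0 := by omega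
  have e4 : ((i + 1 : ℕ) : ℤ) + 1 - ((0 : ℕ) : ℤ) = ((i + 2 : ℕ) : ℤ) := by push_cast; ring
  rw [e1, e3, e4]
  simp

theorem stP_st {i : ℕ} {r : ℤ} (h : r % 2 = 1) : stP (((i + 1 : ℕ) : ℤ), r) 1 = ((i : ℤ), (r - 3 ^ i) / 2) := by
  unfold stP
  have h1 : (((1 : ℕ) : ℤ) + r) % 2 = 0 := by push_cast; omega
  simp only [h1]
  have e1 : (-(((i + 1 : ℕ) : ℤ) + 0 - ((1 : ℕ) : ℤ))).toNat = 0 := by push_cast; omega
  have e2 : (((i + 1 : ℕ) : ℤ) + 0 - ((1 : ℕ) : ℤ)).toNat = i := by push_cast; omega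
  have e3 : (-((i + 1 : ℕ) : ℤ)).toNat = 0 := by omega
  have e4 : ((i + 1 : ℕ) : ℤ) + 0 - ((1 : ℕ) : ℤ) = (i : ℤ) := by push_cast; ring
  rw [e1, e2, e3, e4]
  simp

theorem cast_step_f (i : ℕ) (r : ℤ) (k : ℕ) :
    ns k (stP ((i : ℤ), r) 0) = ns k (((step (i, r) false).1 : ℤ), (step (i, r) false).2) := by
  rcases Int.emod_two_eq_zero_or_one r with h | h
  · rw [stP_e h, step_ef h]
  · cases i with
    | zero => rw [step_0f h]; simp only [Nat.cast_zero, Nat.cast_one]; rw [stP_0f h]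
    | succ i => rw [step_sf h, stP_sf h]

theorem cast_step_t (i : ℕ) (r : ℤ) (k : ℕ) :
    ns k (stP ((i : ℤ), r) 1) = ns k (((step (i, r) true).1 : ℤ), (step (i, r) true).2) := by
  rcases Int.emod_two_eq_zero_or_one r with h | h
  · rw [stP_e1 h, step_et h]
  · cases i with
    | zero =>
      rw [step_0t h]
      simp only [Nat.cast_zero, Nat.cast_one]
      rw [stP_0t h, ← ns_sw]
      unfold sw
      simp only [neg_neg]
      congr 2
      omega
    | succ i => rw [step_st h, stP_st h]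

/-- The two survival probabilities agree. -/
theorem q_eq_ns (k : ℕ) : ∀ (i : ℕ) (r : ℤ), q step (0, 0) k (i, r) = ns k ((i : ℤ), r) := by
  induction k with
  | zero =>
    intro i r
    rw [ns_zero]
    by_cases h : (i, r) = ((0 : ℕ), (0 : ℤ))
    · rw [Prod.mk.injEq] at h
      obtain ⟨rfl, rfl⟩ := h
      rw [q_o]; simp
    · rw [q_zero_ne _ _ h, if_pos]
      intro h2
      apply h
      rw [Prod.mk.injEq] at h2 ⊢
      exact ⟨by exact_mod_cast h2.1, h2.2⟩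
  | succ k ih =>
    intro i r
    by_cases h : (i, r) = ((0 : ℕ), (0 : ℤ))
    · rw [Prod.mk.injEq] at h
      obtain ⟨rfl, rfl⟩ := h
      rw [q_o]
      unfold ns
      have : (fun y => rn stP (k + 1) (((0 : ℕ) : ℤ), 0) y ≠ (0, 0)) = fun _ => False := by
        ext y
        simp only [Nat.cast_zero, ne_eq, iff_false, not_not]
        exact rn_zero (k + 1) y
      rw [this]
      unfold pb
      simp [ex_const]
    · rw [q_succ _ _ h, ns_succ, cast_step_f, cast_step_t, ← ih, ← ih]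

end Pool.Agent.J4H26.CC
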