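import Mathlib
import Pool.Agent.J4H26.CC.A
import Pool.Agent.H499R2.CO.Q5

set_option autoImplicit false

/-! The mean level of the chain of the pairs has a finite limit. -/

namespace Pool.Agent.J4H26.CC

open Finset Filter Topology
open Pool.Agent.H499R2.CO

theorem step_o (b : Bool) : step (0, 0) b = (0, 0) := by
  cases b <;> simp [step]

theorem P_o (F : ℕ × ℤ → ℝ) : P F (0, 0) = F (0, 0) := by
  unfold P
  rw [step_o, step_o]; ring

theorem step_le (s : ℕ × ℤ) (b : Bool) : (step s b).1 ≤ s.1 + 1 := by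
  obtain ⟨i, r⟩ := s
  rcases Int.emod_two_eq_zero_or_one r with h | h
  · cases b
    · rw [step_ef h]; simp
    · rw [step_et h]; simp
  · cases i with
    | zero =>
      cases b
      · rw [step_0f h]
      · rw [step_0t h]
    | succ i =>
      cases b
      · rw [step_sf h]
      · rw [step_st h]; simp only; omega

open Classical in
/-- indicator of the odd states of level zero -/
noncomputable def zi (s : ℕ × ℤ) : ℝ := if s.1 = 0 ∧ s.2 % 2 = 1 then 1 else 0

theorem zi_nonneg (s : ℕ × ℤ) : 0 ≤ zi s := by unfold zi; split_ifs <;> norm_num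

theorem P_level (s : ℕ × ℤ) : P (fun s => (s.1 : ℝ)) s = s.1 + zi s := by
  obtain ⟨i, r⟩ := s
  unfold P zi
  rcases Int.emod_two_eq_zero_or_one r with h | h
  · rw [step_ef h, step_et h]
    simp only [h]
    rw [if_neg (by omega)]; ring
  · cases i with
    | zero =>
      rw [step_0f h, step_0t h, if_pos ⟨rfl, h⟩]; norm_num
    | succ i =>
      rw [step_sf h, step_st h, if_neg (by simp)]
      push_cast; ring

/-- the mean level after `k` steps -/
noncomputable def al : ℕ → ℕ × ℤ → ℝ
  | 0, s => s.1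
  | k + 1, s => P (al k) s

theorem al_mono_succ (k : ℕ) : ∀ s, al k s ≤ al (k + 1) s := by
  induction k with
  | zero =>
    intro s
    show (s.1 : ℝ) ≤ P (fun s => (s.1 : ℝ)) s
    rw [P_level]
    have := zi_nonneg s
    linarith
  | succ k ih => intro s; exact P_mono ih s

theorem al_mono (s : ℕ × ℤ) : Monotone (fun k => al k s) := monotone_nat_of_le_succ (fun k => al_mono_succ k s)

theorem level_le_al (k : ℕ) (s : ℕ × ℤ) : (s.1 : ℝ) ≤ al k s := al_mono s (Nat.zero_le k)

theorem al_o (k : ℕ) : al k (0, 0) = 0 := by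
  induction k with
  | zero => simp [al]
  | succ k ih => show P (al k) (0, 0) = 0; rw [P_o, ih]

open Classical in
/-- indicator of the finite set -/
noncomputable def fi (s : ℕ × ℤ) : ℝ := if s ∈ FF ∧ s ≠ (0, 0) then 1 else 0

theorem fi_nonneg (s : ℕ × ℤ) : 0 ≤ fi s := by unfold fi; split_ifs <;> norm_num

theorem fi_le (s : ℕ × ℤ) : fi s ≤ 1 := by unfold fi; split_ifs <;> norm_num

theorem fi_o : fi (0, 0) = 0 := by unfold fi; simp

/-- the mean number of visits to the finite set -/
noncomputable def vis : ℕ → ℕ × ℤ → ℝ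
  | 0, _ => 0
  | k + 1, s => fi s + P (vis k) s

theorem vis_nonneg (k : ℕ) : ∀ s, 0 ≤ vis k s := by
  induction k with
  | zero => intro s; exact le_rfl
  | succ k ih =>
    intro s
    show 0 ≤ fi s + P (vis k) s
    have h1 := fi_nonneg s
    have h2 : 0 ≤ P (vis k) s := by
      unfold P; have := ih (step s false); have := ih (step s true); linarith
    linarith

theorem vis_o (k : ℕ) : vis k (0, 0) = 0 := by
  induction k with
  | zero => rfl
  | succ k ih =>
    show fi (0, 0) + P (vis k) (0, 0) = 0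
    rw [fi_o, P_o, ih]; ring

theorem vis_add {n : ℕ} {M : ℝ} (hM : ∀ x, vis n x ≤ M) (l : ℕ) : ∀ s, vis (l + n) s ≤ l + M * q step (0, 0) l s := by
  have hM0 : 0 ≤ M := (vis_nonneg n (0, 0)).trans (hM _)
  induction l with
  | zero =>
    intro s
    rw [Nat.zero_add]
    by_cases h : s = (0, 0)
    · subst h; rw [vis_o, q_o]; simp
    · rw [q_zero_ne _ _ h]; push_cast; linarith [hM s]
  | succ l ih =>
    intro s
    by_cases h : s = (0, 0)
    · subst h; rw [vis_o, q_o]; push_cast; linarith
    · rw [show l + 1 + n = (l + n) + 1 by ring, q_succ _ _ h]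
      show fi s + P (vis (l + n)) s ≤ _
      have h1 := fi_le s
      have h2 := ih (step s false)
      have h3 := ih (step s true)
      unfold P
      push_cast
      nlinarith

theorem exists_half : ∃ l : ℕ, ∀ x ∈ FF, q step (0, 0) l x ≤ 1 / 2 := by
  have h : ∀ x : ℕ × ℤ, ∃ l : ℕ, ∀ l' ≥ l, q step (0, 0) l' x ≤ 1 / 2 := by
    intro x
    obtain ⟨l, hl⟩ := eventually_atTop.1 ((q_lim x).eventually (Iic_mem_nhds (show (0 : ℝ) < 1 / 2 by norm_num)))
    exact ⟨l, hl⟩
  choose f hf using h
  refine ⟨FF_finite.toFinset.sup f, fun x hx => hf x _ ?_⟩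
  exact Finset.le_sup (f := f) (FF_finite.mem_toFinset.2 hx)

theorem vis_bound : ∃ K : ℝ, 0 ≤ K ∧ ∀ n s, vis n s ≤ K := by
  obtain ⟨l, hl⟩ := exists_half
  refine ⟨2 * (l + 1), by positivity, ?_⟩
  intro n
  induction n using Nat.strong_induction_on with
  | _ n ih =>
    intro s
    by_cases h0 : s = (0, 0)
    · subst h0; rw [vis_o]; positivity
    by_cases hF : s ∈ FF
    · rcases Nat.lt_or_ge n (l + 1) with hn | hn
      · -- small `n`
        have h1 := vis_add (n := 0) (M := 0) (fun x => le_rfl) n s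
        rw [add_zero, zero_mul, add_zero] at h1
        have h2 : (n : ℝ) ≤ l + 1 := by exact_mod_cast hn.le
        have h3 : (0 : ℝ) ≤ (l : ℝ) + 1 := by positivity
        linarith
      · obtain ⟨m, rfl⟩ : ∃ m, n = (l + 1) + m := ⟨n - (l + 1), by omega⟩
        have h1 := vis_add (n := m) (M := 2 * (l + 1)) (fun x => ih m (by omega) x) (l + 1) s
        have h2 : q step (0, 0) (l + 1) s ≤ 1 / 2 := (q_anti _ _ l s).trans (hl s hF)
        have h3 : (0 : ℝ) ≤ 2 * ((l : ℝ) + 1) := by positivity
        have h4 := mul_le_mul_of_nonneg_left h2 h3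
        push_cast at h1
        linarith
    · cases n with
      | zero => show (0 : ℝ) ≤ _; positivity
      | succ n =>
        show fi s + P (vis n) s ≤ _
        have e : fi s = 0 := by unfold fi; rw [if_neg (fun h => hF h.1)]
        rw [e]
        unfold P
        have h1 := ih n (by omega) (step s false)
        have h2 := ih n (by omega) (step s true)
        linarith

theorem V_drift' : ∃ B : ℝ, 0 ≤ B ∧ ∀ s, P V s ≤ V s + B * fi s := by
  classical
  refine ⟨∑ x ∈ FF_finite.toFinset, |P V x|, sum_nonneg fun _ _ => abs_nonneg _, fun s => ?_⟩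
  by_cases hF : s ∈ FF
  · by_cases h0 : s = (0, 0)
    · subst h0; rw [P_o, fi_o]; simp
    · have e : fi s = 1 := by unfold fi; rw [if_pos ⟨hF, h0⟩]
      rw [e, mul_one]
      have h1 : |P V s| ≤ ∑ x ∈ FF_finite.toFinset, |P V x| :=
        single_le_sum (f := fun x => |P V x|) (fun _ _ => abs_nonneg _) (FF_finite.mem_toFinset.2 hF)
      have h2 := le_abs_self (P V s)
      have h3 := V_nonneg s
      linarith
  · have e : fi s = 0 := by unfold fi; rw [if_neg (fun h => hF h.1)]
    rw [e, mul_zero, add_zero]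
    exact V_drift hF

theorem al_bound : ∃ K : ℝ, 0 ≤ K ∧ ∀ k s, al k s ≤ V s + K := by
  obtain ⟨K, hK, hvis⟩ := vis_bound
  obtain ⟨B, hB, hV⟩ := V_drift'
  refine ⟨B * K, by positivity, fun k s => ?_⟩
  have key : ∀ k s, al k s ≤ V s + B * vis k s := by
    intro k
    induction k with
    | zero =>
      intro s
      show (s.1 : ℝ) ≤ V s + B * 0
      unfold V
      have := Vp_nonneg s
      linarith
    | succ k ih =>
      intro s
      show P (al k) s ≤ V s + B * (fi s + P (vis k) s)
      have h1 : P (al k) s ≤ P V s + B * P (vis k) s := by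
        unfold P
        have := ih (step s false); have := ih (step s true); linarith
      have h2 := hV s
      linarith
  refine (key k s).trans ?_
  have := mul_le_mul_of_nonneg_left (hvis k s) hB
  linarith

/-- the limit of the mean level -/
noncomputable def G (s : ℕ × ℤ) : ℝ := ⨆ k, al k s

theorem al_bdd (s : ℕ × ℤ) : BddAbove (Set.range fun k => al k s) := by
  obtain ⟨K, hK, h⟩ := al_bound
  exact ⟨V s + K, by rintro _ ⟨k, rfl⟩; exact h k s⟩

theorem al_le_G (k : ℕ) (s : ℕ × ℤ) : al k s ≤ G s := le_ciSup (al_bdd s) k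

theorem al_tendsto (s : ℕ × ℤ) : Tendsto (fun k => al k s) atTop (𝓝 (G s)) :=
  tendsto_atTop_ciSup (al_mono s) (al_bdd s)

theorem G_level (s : ℕ × ℤ) : (s.1 : ℝ) ≤ G s := (level_le_al 0 s).trans (al_le_G 0 s)

theorem G_nonneg (s : ℕ × ℤ) : 0 ≤ G s := le_trans (by positivity) (G_level s)

theorem G_o : G (0, 0) = 0 := by
  refine tendsto_nhds_unique (al_tendsto (0, 0)) ?_
  simp only [al_o]
  exact tendsto_const_nhds

theorem G_harm (s : ℕ × ℤ) : G s = (G (step s false) + G (step s true)) / 2 := by
  refine tendsto_nhds_unique ((tendsto_add_atTop_iff_nat 1).2 (al_tendsto s)) ?_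
  exact ((al_tendsto (step s false)).add (al_tendsto (step s true))).div_const 2

theorem G_ge_one : ∀ (n : ℕ) (r : ℤ), r.natAbs = n → r ≠ 0 → 1 ≤ G (0, r) := by
  -- induction over the exponent of `2` in `r`
  have key : ∀ (v : ℕ) (r : ℤ), ¬ (2 : ℤ) ^ (v + 1) ∣ r → 1 ≤ G (0, r) := by
    intro v
    induction v with
    | zero =>
      intro r hr
      have h : r % 2 = 1 := by
        rw [zero_add, pow_one] at hr
        omega
      have h1 := al_le_G 1 (0, r)
      have h2 : al 1 (0, r) = 1 := by
        show P (fun s => (s.1 : ℝ)) (0, r) = 1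
        rw [P_level]; unfold zi; rw [if_pos ⟨rfl, h⟩]; simp
      linarith
    | succ v ih =>
      intro r hr
      rcases Int.emod_two_eq_zero_or_one r with h | h
      · obtain ⟨m, rfl⟩ : ∃ m, r = 2 * m := ⟨r / 2, by omega⟩
        rw [G_harm, step_ef h, step_et h]
        have e1 : 2 * m / 2 = m := by omega
        have e2 : (3 * (2 * m) + 1 - 3 ^ 0) / 2 = 3 * m := by rw [pow_zero]; omega
        rw [e1, e2]
        have hm : ¬ (2 : ℤ) ^ (v + 1) ∣ m := by
          intro hd
          apply hr
          rw [pow_succ']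
          exact mul_dvd_mul_left 2 hd
        have hm3 : ¬ (2 : ℤ) ^ (v + 1) ∣ 3 * m := by
          intro hd
          apply hm
          have hc : IsCoprime ((2 : ℤ) ^ (v + 1)) 3 := by
            apply IsCoprime.pow_left
            norm_num [Int.isCoprime_iff_gcd_eq_one]
          exact hc.dvd_of_dvd_mul_left hd
        have := ih m hm
        have := ih (3 * m) hm3
        linarith
      · have h1 := al_le_G 1 (0, r)
        have h2 : al 1 (0, r) = 1 := by
          show P (fun s => (s.1 : ℝ)) (0, r) = 1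
          rw [P_level]; unfold zi; rw [if_pos ⟨rfl, h⟩]; simp
        linarith
  intro n r hn h0
  apply key n r
  intro hd
  have h1 := Int.le_of_dvd (by positivity : (0 : ℤ) < |r|) ((dvd_abs _ _).2 hd)
  rw [Int.abs_eq_natAbs, hn] at h1
  have h2 : n < 2 ^ (n + 1) := (Nat.lt_two_pow_self).trans (by
    apply Nat.pow_lt_pow_right (by norm_num); omega)
  have h3 : ((2 ^ (n + 1) : ℕ) : ℤ) ≤ (n : ℤ) := by push_cast; exact h1
  omega

theorem G_pos {s : ℕ × ℤ} (h : s ≠ (0, 0)) : 1 ≤ G s := by
  obtain ⟨i, r⟩ := s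
  cases i with
  | zero =>
    apply G_ge_one _ r rfl
    rintro rfl
    exact h rfl
  | succ i =>
    have := G_level (i + 1, r)
    push_cast at this
    have h2 : (0 : ℝ) ≤ i := by positivity
    linarith

end Pool.Agent.J4H26.CC
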