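import Mathlib
import Pool.Agent.J4H26.CC.B

set_option autoImplicit false

/-! The chain of the pairs up to the first visit of a level. -/

namespace Pool.Agent.J4H26.CC

open Finset Filter Topology
open Pool.Agent.H499R2.CO

theorem P_nonneg' {F : ℕ × ℤ → ℝ} (h : ∀ s, 0 ≤ F s) (s : ℕ × ℤ) : 0 ≤ P F s := by
  unfold P; have := h (step s false); have := h (step s true); linarith

theorem P_le_one {F : ℕ × ℤ → ℝ} (h : ∀ s, F s ≤ 1) (s : ℕ × ℤ) : P F s ≤ 1 := by
  unfold P; have := h (step s false); have := h (step s true); linarith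

theorem q_P {s : ℕ × ℤ} (h : s ≠ (0, 0)) (k : ℕ) : q step (0, 0) (k + 1) s = P (q step (0, 0) k) s := q_succ _ _ h k

open Classical in
/-- the probability of a visit to the level `L` within `n` steps -/
noncomputable def aa (L : ℕ) : ℕ → ℕ × ℤ → ℝ
  | 0, s => if L ≤ s.1 then 1 else 0
  | n + 1, s => if L ≤ s.1 then 1 else P (aa L n) s

open Classical in
/-- the probability that neither the level `L` nor the origin are visited within `n` steps -/
noncomputable def bb (L : ℕ) : ℕ → ℕ × ℤ → ℝ
  | 0, s => if s = (0, 0) ∨ L ≤ s.1 then 0 else 1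
  | n + 1, s => if s = (0, 0) ∨ L ≤ s.1 then 0 else P (bb L n) s

open Classical in
/-- the probability that `|r|` exceeds `R` within `n` steps, before or at the first visit to the level `L` -/
noncomputable def cc (L : ℕ) (R : ℝ) : ℕ → ℕ × ℤ → ℝ
  | 0, s => if R < |(s.2 : ℝ)| ∧ s.1 ≤ L then 1 else 0
  | n + 1, s => if R < |(s.2 : ℝ)| ∧ s.1 ≤ L then 1 else if L ≤ s.1 then 0 else P (cc L R n) s

theorem aa_high {L n : ℕ} {s : ℕ × ℤ} (h : L ≤ s.1) : aa L n s = 1 := by
  cases n <;> simp [aa, h]

theorem aa_zero {L : ℕ} {s : ℕ × ℤ} (h : s.1 < L) : aa L 0 s = 0 := by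
  simp [aa, h]

theorem aa_succ {L n : ℕ} {s : ℕ × ℤ} (h : s.1 < L) : aa L (n + 1) s = P (aa L n) s := by
  simp [aa, h]

theorem aa_bd (L n : ℕ) : ∀ s, 0 ≤ aa L n s ∧ aa L n s ≤ 1 := by
  induction n with
  | zero =>
    intro s
    rcases Nat.lt_or_ge s.1 L with h | h
    · rw [aa_zero h]; norm_num
    · rw [aa_high h]; norm_num
  | succ n ih =>
    intro s
    rcases Nat.lt_or_ge s.1 L with h | h
    · rw [aa_succ h]; exact ⟨P_nonneg' (fun x => (ih x).1) s, P_le_one (fun x => (ih x).2) s⟩
    · rw [aa_high h]; norm_num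

theorem aa_o {L : ℕ} (hL : 0 < L) (n : ℕ) : aa L n (0, 0) = 0 := by
  induction n with
  | zero => exact aa_zero hL
  | succ n ih => rw [aa_succ (by exact hL), P_o, ih]

theorem bb_stop {L n : ℕ} {s : ℕ × ℤ} (h : s = (0, 0) ∨ L ≤ s.1) : bb L n s = 0 := by
  cases n <;> simp only [bb] <;> rw [if_pos h]

theorem bb_zero {L : ℕ} {s : ℕ × ℤ} (h : ¬ (s = (0, 0) ∨ L ≤ s.1)) : bb L 0 s = 1 := by
  simp only [bb]; rw [if_neg h]

theorem bb_succ {L n : ℕ} {s : ℕ × ℤ} (h : ¬ (s = (0, 0) ∨ L ≤ s.1)) : bb L (n + 1) s = P (bb L n) s := by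
  simp only [bb]; rw [if_neg h]

theorem bb_bd (L n : ℕ) : ∀ s, 0 ≤ bb L n s ∧ bb L n s ≤ 1 := by
  induction n with
  | zero =>
    intro s
    by_cases h : s = (0, 0) ∨ L ≤ s.1
    · rw [bb_stop h]; norm_num
    · rw [bb_zero h]; norm_num
  | succ n ih =>
    intro s
    by_cases h : s = (0, 0) ∨ L ≤ s.1
    · rw [bb_stop h]; norm_num
    · rw [bb_succ h]; exact ⟨P_nonneg' (fun x => (ih x).1) s, P_le_one (fun x => (ih x).2) s⟩

theorem bb_le_q (L n : ℕ) : ∀ s, bb L n s ≤ q step (0, 0) n s := by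
  induction n with
  | zero =>
    intro s
    by_cases h : s = (0, 0) ∨ L ≤ s.1
    · rw [bb_stop h]; exact q_nonneg _ _ _ _
    · rw [q_zero_ne _ _ (fun h0 => h (Or.inl h0))]; exact (bb_bd L 0 s).2
  | succ n ih =>
    intro s
    by_cases h : s = (0, 0) ∨ L ≤ s.1
    · rw [bb_stop h]; exact q_nonneg _ _ _ _
    · rw [bb_succ h, q_P (fun h0 => h (Or.inl h0))]; exact P_mono ih s

theorem cc_bad {L n : ℕ} {R : ℝ} {s : ℕ × ℤ} (h : R < |(s.2 : ℝ)|) (h1 : s.1 ≤ L) : cc L R n s = 1 := by
  cases n <;> simp only [cc] <;> rw [if_pos ⟨h, h1⟩]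

theorem cc_bd (L n : ℕ) (R : ℝ) : ∀ s, 0 ≤ cc L R n s ∧ cc L R n s ≤ 1 := by
  induction n with
  | zero =>
    intro s
    simp only [cc]
    split_ifs <;> norm_num
  | succ n ih =>
    intro s
    simp only [cc]
    split_ifs
    · norm_num
    · norm_num
    · exact ⟨P_nonneg' (fun x => (ih x).1) s, P_le_one (fun x => (ih x).2) s⟩

theorem cc_succ {L n : ℕ} {R : ℝ} {s : ℕ × ℤ} (h : |(s.2 : ℝ)| ≤ R) (h1 : s.1 < L) :
    cc L R (n + 1) s = P (cc L R n) s := by
  simp only [cc]
  rw [if_neg (fun h2 => absurd h (not_le.2 h2.1)), if_neg (by omega)]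

/-- optional stopping, upper bound -/
theorem aa_le_al (L n : ℕ) : ∀ s, (L : ℝ) * aa L n s ≤ al n s := by
  induction n with
  | zero =>
    intro s
    rcases Nat.lt_or_ge s.1 L with h | h
    · rw [aa_zero h, mul_zero]; show (0 : ℝ) ≤ s.1; positivity
    · rw [aa_high h, mul_one]; show (L : ℝ) ≤ s.1; exact_mod_cast h
  | succ n ih =>
    intro s
    rcases Nat.lt_or_ge s.1 L with h | h
    · rw [aa_succ h]
      show _ ≤ P (al n) s
      unfold P
      have := ih (step s false); have := ih (step s true); linarith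
    · rw [aa_high h, mul_one]
      have : (L : ℝ) ≤ s.1 := by exact_mod_cast h
      exact this.trans (level_le_al (n + 1) s)

open Classical in
/-- the mean level, stopped -/
noncomputable def vv (L : ℕ) : ℕ → ℕ × ℤ → ℝ
  | 0, s => s.1
  | n + 1, s => if s = (0, 0) ∨ L ≤ s.1 then s.1 else P (vv L n) s

theorem vv_stop {L n : ℕ} {s : ℕ × ℤ} (h : s = (0, 0) ∨ L ≤ s.1) : vv L n s = s.1 := by
  cases n with
  | zero => rfl
  | succ n => simp only [vv]; rw [if_pos h]

theorem vv_succ {L n : ℕ} {s : ℕ × ℤ} (h : ¬ (s = (0, 0) ∨ L ≤ s.1)) : vv L (n + 1) s = P (vv L n) s := by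
  simp only [vv]; rw [if_neg h]

theorem vv_le (L n : ℕ) : ∀ s : ℕ × ℤ, s.1 ≤ L → vv L n s ≤ L * (aa L n s + bb L n s) := by
  induction n with
  | zero =>
    intro s hs
    show (s.1 : ℝ) ≤ _
    rcases Nat.lt_or_ge s.1 L with h | h
    · rw [aa_zero h]
      by_cases h0 : s = (0, 0)
      · rw [bb_stop (Or.inl h0), h0]; simp
      · rw [bb_zero (by
          rintro (h1 | h1)
          · exact h0 h1
          · omega)]
        have : (s.1 : ℝ) ≤ L := by exact_mod_cast hs
        linarith
    · rw [aa_high h, bb_stop (Or.inr h)]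
      have : (s.1 : ℝ) ≤ L := by exact_mod_cast hs
      linarith
  | succ n ih =>
    intro s hs
    by_cases hst : s = (0, 0) ∨ L ≤ s.1
    · rw [vv_stop hst, bb_stop hst]
      rcases hst with h | h
      · rw [h]
        have := (aa_bd L (n + 1) (0, 0)).1
        simp only [Nat.cast_zero, add_zero]
        positivity
      · rw [aa_high h]
        have : (s.1 : ℝ) ≤ L := by exact_mod_cast hs
        linarith
    · have h : s.1 < L := by
        by_contra hcon
        exact hst (Or.inr (by omega))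
      rw [vv_succ hst, aa_succ h, bb_succ hst]
      have e1 := step_le s false
      have e2 := step_le s true
      have h1 := ih (step s false) (by omega)
      have h2 := ih (step s true) (by omega)
      unfold P
      linarith

theorem vv_eq_al (L n : ℕ) : ∀ s : ℕ × ℤ, s.1 + n ≤ L → vv L n s = al n s := by
  induction n with
  | zero => intro s _; rfl
  | succ n ih =>
    intro s hs
    by_cases h0 : s = (0, 0)
    · rw [vv_stop (Or.inl h0), h0, al_o]; simp
    · rw [vv_succ (by
        rintro (h1 | h1)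
        · exact h0 h1
        · omega)]
      have e1 := step_le s false
      have e2 := step_le s true
      show _ = P (al n) s
      unfold P
      rw [ih _ (by omega), ih _ (by omega)]

theorem vv_mono_succ (L n : ℕ) : ∀ s, vv L n s ≤ vv L (n + 1) s := by
  induction n with
  | zero =>
    intro s
    by_cases hst : s = (0, 0) ∨ L ≤ s.1
    · rw [vv_stop hst, vv_stop hst]
    · rw [vv_succ hst]
      show (s.1 : ℝ) ≤ P (fun s => (s.1 : ℝ)) s
      rw [P_level]
      have := zi_nonneg s
      linarith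
  | succ n ih =>
    intro s
    by_cases hst : s = (0, 0) ∨ L ≤ s.1
    · rw [vv_stop hst, vv_stop hst]
    · rw [vv_succ hst, vv_succ hst]; exact P_mono ih s

/-- optional stopping, lower bound -/
theorem al_le_aa {L j n : ℕ} {s : ℕ × ℤ} (h : s.1 + j ≤ L) (hjn : j ≤ n) :
    al j s ≤ L * (aa L n s + bb L n s) := by
  rw [← vv_eq_al L j s h]
  exact (monotone_nat_of_le_succ (fun k => vv_mono_succ L k s) hjn).trans (vv_le L n s (by omega))

theorem bb_split {L n₂ : ℕ} {R β : ℝ} (hβ0 : 0 ≤ β)
    (hβ : ∀ x : ℕ × ℤ, x.1 < L → |(x.2 : ℝ)| ≤ R → q step (0, 0) n₂ x ≤ β) (n₁ : ℕ) :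
    ∀ s, bb L (n₁ + n₂) s ≤ β * bb L n₁ s + cc L R n₁ s := by
  induction n₁ with
  | zero =>
    intro s
    by_cases hst : s = (0, 0) ∨ L ≤ s.1
    · rw [bb_stop hst, bb_stop hst, mul_zero, zero_add]; exact (cc_bd _ _ _ _).1
    · have h : s.1 < L := by
        by_contra hcon
        exact hst (Or.inr (by omega))
      rw [bb_zero hst, mul_one, zero_add]
      rcases le_or_gt |(s.2 : ℝ)| R with h1 | h1
      · have := (cc_bd L 0 R s).1
        have h2 := (bb_le_q L n₂ s).trans (hβ s h h1)
        linarith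
      · rw [cc_bad h1 h.le]
        have := (bb_bd L n₂ s).2
        linarith
  | succ n₁ ih =>
    intro s
    by_cases hst : s = (0, 0) ∨ L ≤ s.1
    · rw [bb_stop hst, bb_stop hst, mul_zero, zero_add]; exact (cc_bd _ _ _ _).1
    · have h : s.1 < L := by
        by_contra hcon
        exact hst (Or.inr (by omega))
      rcases le_or_gt |(s.2 : ℝ)| R with h1 | h1
      · rw [show n₁ + 1 + n₂ = (n₁ + n₂) + 1 by ring, bb_succ hst, bb_succ hst, cc_succ h1 h]
        unfold P
        have := ih (step s false); have := ih (step s true); linarith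
      · rw [cc_bad h1 h.le]
        have h2 := (bb_bd L (n₁ + 1 + n₂) s).2
        have h3 := mul_nonneg hβ0 (bb_bd L (n₁ + 1) s).1
        linarith

theorem q_up {L m : ℕ} {R α : ℝ} (hα0 : 0 ≤ α)
    (hα : ∀ x : ℕ × ℤ, x.1 = L → |(x.2 : ℝ)| ≤ R → q step (0, 0) m x ≤ α) (n : ℕ) :
    ∀ s : ℕ × ℤ, s.1 ≤ L → q step (0, 0) (n + m) s ≤ α * aa L n s + bb L n s + cc L R n s := by
  have hhit : ∀ (n k : ℕ) (s : ℕ × ℤ), m ≤ k → s.1 = L → q step (0, 0) k s ≤ α * aa L n s + bb L n s + cc L R n s := by
    intro n k s hk hs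
    rw [aa_high (by omega : L ≤ s.1), bb_stop (Or.inr (by omega)), mul_one, add_zero]
    rcases le_or_gt |(s.2 : ℝ)| R with h1 | h1
    · have h2 := (q_anti' s hk).trans (hα s hs h1)
      have h3 := (cc_bd L n R s).1
      simp only at h2
      linarith
    · rw [cc_bad h1 hs.le]
      have := q_le_one step (0, 0) k s
      linarith
  induction n with
  | zero =>
    intro s hs
    rcases Nat.lt_or_ge s.1 L with h | h
    · by_cases h0 : s = (0, 0)
      · rw [h0, q_o]
        have a1 := mul_nonneg hα0 (aa_bd L 0 (0, 0)).1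
        have a2 := (bb_bd L 0 (0, 0)).1
        have a3 := (cc_bd L 0 R (0, 0)).1
        linarith
      · rw [bb_zero (by
          rintro (h1 | h1)
          · exact h0 h1
          · omega)]
        have a1 := mul_nonneg hα0 (aa_bd L 0 s).1
        have a3 := (cc_bd L 0 R s).1
        have := q_le_one step (0, 0) (0 + m) s
        linarith
    · exact hhit 0 (0 + m) s (by omega) (by omega)
  | succ n ih =>
    intro s hs
    rcases Nat.lt_or_ge s.1 L with h | h
    · by_cases h0 : s = (0, 0)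
      · rw [h0, q_o]
        have a1 := mul_nonneg hα0 (aa_bd L (n + 1) (0, 0)).1
        have a2 := (bb_bd L (n + 1) (0, 0)).1
        have a3 := (cc_bd L (n + 1) R (0, 0)).1
        linarith
      · have hst : ¬ (s = (0, 0) ∨ L ≤ s.1) := by
          rintro (h1 | h1)
          · exact h0 h1
          · omega
        rcases le_or_gt |(s.2 : ℝ)| R with h1 | h1
        · rw [show n + 1 + m = (n + m) + 1 by ring, q_P h0, aa_succ h, bb_succ hst, cc_succ h1 h]
          have e1 := step_le s false
          have e2 := step_le s true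
          have h1 := ih (step s false) (by omega)
          have h2 := ih (step s true) (by omega)
          unfold P
          linarith
        · rw [cc_bad h1 h.le]
          have a1 := mul_nonneg hα0 (aa_bd L (n + 1) s).1
          have a2 := (bb_bd L (n + 1) s).1
          have := q_le_one step (0, 0) (n + 1 + m) s
          linarith
    · exact hhit (n + 1) (n + 1 + m) s (by omega) (by omega)

theorem q_low {L M : ℕ} {R α : ℝ} (hL : 0 < L) (hα0 : 0 ≤ α) (hα1 : α ≤ 1)
    (hα : ∀ x : ℕ × ℤ, x.1 = L → |(x.2 : ℝ)| ≤ R → α ≤ q step (0, 0) M x) (n : ℕ) :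
    ∀ (M' : ℕ), n ≤ M' → M' ≤ M → ∀ s : ℕ × ℤ, s.1 ≤ L → α * aa L n s - cc L R n s ≤ q step (0, 0) M' s := by
  have hhit : ∀ (n k : ℕ) (s : ℕ × ℤ), k ≤ M → s.1 = L → α * aa L n s - cc L R n s ≤ q step (0, 0) k s := by
    intro n k s hk hs
    rw [aa_high (by omega : L ≤ s.1), mul_one]
    rcases le_or_gt |(s.2 : ℝ)| R with h1 | h1
    · have h2 := (hα s hs h1).trans (q_anti' s hk)
      have h3 := (cc_bd L n R s).1
      simp only at h2
      linarith
    · rw [cc_bad h1 hs.le]
      have := q_nonneg step (0, 0) k s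
      linarith
  induction n with
  | zero =>
    intro M' _ hM s hs
    rcases Nat.lt_or_ge s.1 L with h | h
    · rw [aa_zero h, mul_zero]
      have h3 := (cc_bd L 0 R s).1
      have := q_nonneg step (0, 0) M' s
      linarith
    · exact hhit 0 M' s hM (by omega)
  | succ n ih =>
    intro M' hn hM s hs
    rcases Nat.lt_or_ge s.1 L with h | h
    · by_cases h0 : s = (0, 0)
      · rw [h0, q_o, aa_o hL]
        have a3 := (cc_bd L (n + 1) R (0, 0)).1
        linarith
      · rcases le_or_gt |(s.2 : ℝ)| R with h1 | h1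
        · obtain ⟨M'', rfl⟩ : ∃ M'', M' = M'' + 1 := ⟨M' - 1, by omega⟩
          rw [q_P h0, aa_succ h, cc_succ h1 h]
          have e1 := step_le s false
          have e2 := step_le s true
          have h1 := ih M'' (by omega) (by omega) (step s false) (by omega)
          have h2 := ih M'' (by omega) (by omega) (step s true) (by omega)
          unfold P
          linarith
        · rw [cc_bad h1 h.le]
          have a1 : α * aa L (n + 1) s ≤ 1 * 1 := mul_le_mul hα1 (aa_bd L (n + 1) s).2 (aa_bd L (n + 1) s).1 (by norm_num)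
          have := q_nonneg step (0, 0) M' s
          linarith
    · exact hhit (n + 1) M' s hM (by omega)

theorem cc_le {L : ℕ} {R : ℝ} (hR : 0 < R) (n : ℕ) :
    ∀ s, cc L R n s ≤ (20 / 11 : ℝ) ^ L / √ R * (50 * pw s + 38 * (n + 1)) := by
  have hK : 0 ≤ (20 / 11 : ℝ) ^ L / √ R := by positivity
  have hbad : ∀ s : ℕ × ℤ, R < |(s.2 : ℝ)| → s.1 ≤ L → 1 ≤ (20 / 11 : ℝ) ^ L / √ R * pw s := by
    intro s h1 h2
    have e1 : (11 / 20 : ℝ) ^ L ≤ (11 / 20 : ℝ) ^ s.1 := pow_le_pow_of_le_one (by norm_num) (by norm_num) h2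
    have e2 : √ R ≤ w s.2 := Real.sqrt_le_sqrt h1.le
    have e3 : (11 / 20 : ℝ) ^ L * √ R ≤ pw s := mul_le_mul e1 e2 (Real.sqrt_nonneg _) (by positivity)
    have hs : 0 < √ R := Real.sqrt_pos.2 hR
    calc (1 : ℝ) = (20 / 11 : ℝ) ^ L / √ R * ((11 / 20 : ℝ) ^ L * √ R) := by
          rw [div_mul_eq_mul_div, ← mul_assoc, ← mul_pow]
          norm_num
          rw [div_self hs.ne']
      _ ≤ _ := mul_le_mul_of_nonneg_left e3 hK
  induction n with
  | zero =>
    intro s
    have hp := pw_nonneg s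
    rcases le_or_gt |(s.2 : ℝ)| R with h1 | h1
    · have : cc L R 0 s = 0 := by
        simp only [cc]; rw [if_neg (fun h2 => absurd h1 (not_le.2 h2.1))]
      rw [this]; positivity
    · by_cases h2 : s.1 ≤ L
      · rw [cc_bad h1 h2]
        refine (hbad s h1 h2).trans (mul_le_mul_of_nonneg_left ?_ hK)
        push_cast; linarith
      · have : cc L R 0 s = 0 := by
          simp only [cc]; rw [if_neg (fun h3 => h2 h3.2)]
        rw [this]; positivity
  | succ n ih =>
    intro s
    have hp := pw_nonneg s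
    rcases Nat.lt_or_ge s.1 L with h | h
    · rcases le_or_gt |(s.2 : ℝ)| R with h1 | h1
      · rw [cc_succ h1 h]
        have h2 : P (cc L R n) s ≤ (20 / 11 : ℝ) ^ L / √ R * (50 * P pw s + 38 * (n + 1)) := by
          unfold P
          have := ih (step s false); have := ih (step s true); linarith
        refine h2.trans (mul_le_mul_of_nonneg_left ?_ hK)
        have := P_pw s
        push_cast; linarith
      · rw [cc_bad h1 h.le]
        refine (hbad s h1 h.le).trans (mul_le_mul_of_nonneg_left ?_ hK)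
        push_cast; nlinarith
    · by_cases h2 : R < |(s.2 : ℝ)| ∧ s.1 ≤ L
      · rw [cc_bad h2.1 h2.2]
        refine (hbad s h2.1 h2.2).trans (mul_le_mul_of_nonneg_left ?_ hK)
        push_cast; nlinarith
      · have : cc L R (n + 1) s = 0 := by
          simp only [cc]; rw [if_neg h2, if_pos h]
        rw [this]; positivity

end Pool.Agent.J4H26.CC
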