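import Mathlib
import Pool.Agent.J4H26.CC.C
import Pool.Agent.J4H39.V4
import Pool.Agent.J4H39.L3

set_option autoImplicit false

/-! The law of helper39 in terms of `q`, error terms, and the a priori bound. -/

namespace Pool.Agent.J4H26.CC

open Finset Filter Topology
open Pool.Agent.H499R2.CO
open Pool.Agent.J4H39 (ns_law U_erf_half Erf Erf_mono Erf_zero Erf_nonneg Erf_le_one)

theorem pi_bd : 2 / √ Real.pi ≤ 2 ∧ 0 < 2 / √ Real.pi := by
  have h1 : 1 ≤ √ Real.pi := by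
    rw [Real.one_le_sqrt]; linarith [Real.pi_gt_three]
  constructor
  · rw [div_le_iff₀ (by linarith)]; linarith
  · positivity

theorem Erf_up {x : ℝ} (hx : 0 ≤ x) : Erf x ≤ 2 / √ Real.pi * x := by
  unfold Erf
  apply mul_le_mul_of_nonneg_left _ pi_bd.2.le
  have hc : Continuous fun w : ℝ => Real.exp (-w ^ 2) := by fun_prop
  have h : (∫ u in (0 : ℝ)..x, Real.exp (-u ^ 2)) ≤ ∫ u in (0 : ℝ)..x, (1 : ℝ) := by
    apply intervalIntegral.integral_mono_on hx (hc.intervalIntegrable _ _) (by simp)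
    intro w _
    rw [Real.exp_le_one_iff]
    nlinarith [sq_nonneg w]
  rwa [intervalIntegral.integral_const, smul_eq_mul, mul_one, sub_zero] at h

theorem Erf_up2 {x : ℝ} (hx : 0 ≤ x) : Erf x ≤ 2 * x :=
  (Erf_up hx).trans (mul_le_mul_of_nonneg_right pi_bd.1 hx)

theorem Erf_dn {x : ℝ} (hx : 0 ≤ x) : 2 / √ Real.pi * (x * (1 - x ^ 2)) ≤ Erf x := by
  unfold Erf
  apply mul_le_mul_of_nonneg_left _ pi_bd.2.le
  have hc : Continuous fun w : ℝ => Real.exp (-w ^ 2) := by fun_prop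
  have h : (∫ u in (0 : ℝ)..x, (1 - x ^ 2)) ≤ ∫ u in (0 : ℝ)..x, Real.exp (-u ^ 2) := by
    apply intervalIntegral.integral_mono_on hx (by simp) (hc.intervalIntegrable _ _)
    intro w hw
    have h1 := Real.add_one_le_exp (-w ^ 2)
    have h2 : w ^ 2 ≤ x ^ 2 := by
      have := hw.1; have := hw.2
      gcongr
    linarith
  rwa [intervalIntegral.integral_const, smul_eq_mul, sub_zero] at h

theorem q_law {ε : ℝ} (hε : 0 < ε) : ∃ c : ℝ, 0 < c ∧ ∀ᶠ m : ℕ in atTop, ∀ (i : ℕ) (r : ℤ),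
    (i : ℝ) ≤ c * m → |(r : ℝ)| ≤ 4 ^ ⌊c * m⌋₊ → |q step (0, 0) m (i, r) - Erf (i / √ m)| ≤ ε := by
  obtain ⟨c, hc, t0, h⟩ := ns_law (half_pos hε)
  obtain ⟨t1, h1⟩ := U_erf_half (half_pos hε)
  refine ⟨min c 1, by positivity, ?_⟩
  filter_upwards [eventually_ge_atTop t0, eventually_ge_atTop t1] with m hm0 hm1
  intro i r hi hr
  have hmr : (0 : ℝ) ≤ m := by positivity
  have e1 : min c 1 * (m : ℝ) ≤ c * m := mul_le_mul_of_nonneg_right (min_le_left _ _) hmr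
  have e2 : min c 1 * (m : ℝ) ≤ 1 * m := mul_le_mul_of_nonneg_right (min_le_right _ _) hmr
  have hfl : ((⌊min c 1 * (m : ℝ)⌋₊ : ℕ) : ℝ) ≤ min c 1 * m := Nat.floor_le (by positivity)
  have h2 := h m hm0 (i : ℤ) ⌊min c 1 * (m : ℝ)⌋₊ (by
    push_cast
    rw [abs_of_nonneg (by positivity)]
    exact hi.trans e1) (hfl.trans e1) r (by
      have : ((|r| : ℤ) : ℝ) ≤ ((4 ^ ⌊min c 1 * (m : ℝ)⌋₊ : ℤ) : ℝ) := by push_cast; exact hr
      exact_mod_cast this)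
  have h3 := h1 m hm1 i (by
    have : (i : ℝ) ≤ m := by linarith
    exact_mod_cast this)
  rw [q_eq_ns]
  have h4 : q step (0, 0) m (i, r) - Erf (i / √ m) = 0 ∨ True := Or.inr trivial
  calc |Pool.Agent.J4H39.ns m ((i : ℤ), r) - Erf (i / √ m)|
      = |(Pool.Agent.J4H39.ns m ((i : ℤ), r) - Pool.Agent.J4H39.U (m / 2) (i : ℤ)) +
          (Pool.Agent.J4H39.U (m / 2) (i : ℤ) - Erf (i / √ m))| := by congr 1; ring
    _ ≤ |Pool.Agent.J4H39.ns m ((i : ℤ), r) - Pool.Agent.J4H39.U (m / 2) (i : ℤ)| +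
          |Pool.Agent.J4H39.U (m / 2) (i : ℤ) - Erf (i / √ m)| := abs_add_le _ _
    _ ≤ ε / 2 + ε / 2 := add_le_add h2 h3
    _ = ε := by ring

theorem law_t {κ ε : ℝ} (hκ : 0 < κ) (hε : 0 < ε) : ∃ c : ℝ, 0 < c ∧ ∀ᶠ t : ℕ in atTop, ∀ m : ℕ, κ * t ≤ m →
    ∀ (i : ℕ) (r : ℤ), (i : ℝ) ≤ c * t → |(r : ℝ)| ≤ 4 ^ ⌊c * t⌋₊ →
      |q step (0, 0) m (i, r) - Erf (i / √ m)| ≤ ε := by
  obtain ⟨c, hc, h⟩ := q_law hε
  obtain ⟨m0, hm0⟩ := eventually_atTop.1 h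
  refine ⟨c * κ, by positivity, ?_⟩
  have hlim : Tendsto (fun t : ℕ => κ * (t : ℝ)) atTop atTop :=
    tendsto_natCast_atTop_atTop.const_mul_atTop hκ
  filter_upwards [hlim.eventually_ge_atTop (m0 : ℝ)] with t ht
  intro m hm i r hi hr
  have hm' : m0 ≤ m := by
    have : (m0 : ℝ) ≤ m := ht.trans hm
    exact_mod_cast this
  have e1 : c * κ * t ≤ c * m := by
    rw [mul_assoc]; exact mul_le_mul_of_nonneg_left hm hc.le
  apply hm0 m hm' i r (hi.trans e1) (hr.trans _)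
  apply pow_le_pow_right₀ (by norm_num)
  exact Nat.floor_le_floor e1

theorem exp_small {b A κ : ℝ} (hb : 0 < b) (hA : 0 ≤ A) (hκ : 0 < κ) :
    ∀ᶠ t : ℕ in atTop, √ (t : ℝ) * (A * (t + 1)) * Real.exp (-(b * t)) ≤ κ := by
  have h1 : Tendsto (fun t : ℕ => b * (t : ℝ)) atTop atTop := tendsto_natCast_atTop_atTop.const_mul_atTop hb
  have h2 := (Real.tendsto_pow_mul_exp_neg_atTop_nhds_zero 2).comp h1
  have h3 := h2.const_mul (2 * A / b ^ 2)
  rw [mul_zero] at h3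
  filter_upwards [h3.eventually (Iic_mem_nhds hκ), eventually_ge_atTop 1] with t ht ht1
  have h1r : (1 : ℝ) ≤ t := by exact_mod_cast ht1
  have hs : √ (t : ℝ) ≤ t := by
    rw [Real.sqrt_le_left (by linarith)]; nlinarith
  have h4 : √ (t : ℝ) * (A * (t + 1)) ≤ 2 * A * t ^ 2 := by
    calc √ (t : ℝ) * (A * (t + 1)) ≤ t * (A * (t + t)) := by gcongr
      _ = 2 * A * t ^ 2 := by ring
  refine le_trans ?_ ht
  simp only [Function.comp]
  have h5 : 2 * A / b ^ 2 * ((b * (t : ℝ)) ^ 2 * Real.exp (-(b * t))) = 2 * A * t ^ 2 * Real.exp (-(b * t)) := by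
    field_simp
  rw [h5]
  exact mul_le_mul_of_nonneg_right h4 (Real.exp_pos _).le

theorem ceil_bd {x : ℝ} (hx : 0 ≤ x) : x ≤ ⌈x⌉₊ ∧ (⌈x⌉₊ : ℝ) ≤ x + 1 := ⟨Nat.le_ceil x, (Nat.ceil_lt_add_one hx).le⟩

theorem sqrt_lim : Tendsto (fun t : ℕ => √ (t : ℝ)) atTop atTop := Real.tendsto_sqrt_atTop.comp tendsto_natCast_atTop_atTop

/-- `A √t + B ≤ c t` for large `t`. -/
theorem sqrt_small {A B c : ℝ} (hc : 0 < c) : ∀ᶠ t : ℕ in atTop, A * √ (t : ℝ) + B ≤ c * t := by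
  filter_upwards [sqrt_lim.eventually_ge_atTop 1, sqrt_lim.eventually_ge_atTop ((|A| + |B|) / c)] with t h1 h2
  have h0 : √ (t : ℝ) * √ (t : ℝ) = t := Real.mul_self_sqrt (by positivity)
  rw [div_le_iff₀ hc] at h2
  have h3 : A * √ (t : ℝ) ≤ |A| * √ (t : ℝ) := mul_le_mul_of_nonneg_right (le_abs_self A) (by positivity)
  have h4 : B ≤ |B| * √ (t : ℝ) := (le_abs_self B).trans (by nlinarith [abs_nonneg B])
  nlinarith

theorem cc_small (s : ℕ × ℤ) {c δ κ : ℝ} (hc : 0 < c) (hδ : 0 < δ) (hκ : 0 < κ) :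
    ∀ᶠ t : ℕ in atTop, ∀ n ≤ t, √ (t : ℝ) * cc ⌈δ * √ (t : ℝ)⌉₊ (4 ^ ⌊c * (t : ℝ)⌋₊) n s ≤ κ := by
  have hp := pw_nonneg s
  have hlog : 0 < Real.log 2 := Real.log_pos (by norm_num)
  filter_upwards [exp_small (b := c / 2 * Real.log 2) (A := 50 * pw s + 38) (by positivity) (by positivity) hκ,
    sqrt_small (A := δ) (B := 2) (c := c / 2) (by positivity)] with t h1 h2
  intro n hn
  have hR : (0 : ℝ) < 4 ^ ⌊c * (t : ℝ)⌋₊ := by positivity
  refine le_trans ?_ h1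
  have h3 := cc_le (L := ⌈δ * √ (t : ℝ)⌉₊) hR n s
  have hsq : √ ((4 : ℝ) ^ ⌊c * (t : ℝ)⌋₊) = 2 ^ ⌊c * (t : ℝ)⌋₊ := by
    rw [show (4 : ℝ) = 2 ^ 2 by norm_num, ← pow_mul, mul_comm, pow_mul, Real.sqrt_sq (by positivity)]
  rw [hsq] at h3
  have hL := ceil_bd (show 0 ≤ δ * √ (t : ℝ) by positivity)
  have hF := Nat.lt_floor_add_one (c * (t : ℝ))
  have h4 : (20 / 11 : ℝ) ^ ⌈δ * √ (t : ℝ)⌉₊ / 2 ^ ⌊c * (t : ℝ)⌋₊ ≤ Real.exp (-(c / 2 * Real.log 2 * t)) := by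
    have e1 : (20 / 11 : ℝ) ^ ⌈δ * √ (t : ℝ)⌉₊ ≤ 2 ^ ⌈δ * √ (t : ℝ)⌉₊ := by
      apply pow_le_pow_left₀ (by norm_num) (by norm_num)
    have e2 : Real.exp (-(c / 2 * Real.log 2 * t)) = 2 ^ (-(c / 2 * t)) := by
      rw [Real.rpow_def_of_pos (by norm_num)]; congr 1; ring
    rw [e2, div_le_iff₀ (by positivity)]
    refine e1.trans ?_
    rw [← Real.rpow_natCast 2 ⌈δ * √ (t : ℝ)⌉₊, ← Real.rpow_natCast 2 ⌊c * (t : ℝ)⌋₊, ← Real.rpow_add (by norm_num)]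
    apply Real.rpow_le_rpow_of_exponent_le (by norm_num)
    linarith [hL.2]
  have h5 : 50 * pw s + 38 * ((n : ℝ) + 1) ≤ (50 * pw s + 38) * (t + 1) := by
    have : (n : ℝ) ≤ t := by exact_mod_cast hn
    nlinarith [mul_nonneg hp (show (0 : ℝ) ≤ t by positivity)]
  have h6 : cc ⌈δ * √ (t : ℝ)⌉₊ (4 ^ ⌊c * (t : ℝ)⌋₊) n s ≤ Real.exp (-(c / 2 * Real.log 2 * t)) * ((50 * pw s + 38) * (t + 1)) :=
    h3.trans (mul_le_mul h4 h5 (by positivity) (by positivity))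
  calc √ (t : ℝ) * cc ⌈δ * √ (t : ℝ)⌉₊ (4 ^ ⌊c * (t : ℝ)⌋₊) n s
      ≤ √ (t : ℝ) * (Real.exp (-(c / 2 * Real.log 2 * t)) * ((50 * pw s + 38) * (t + 1))) := by gcongr
    _ = _ := by ring

/-- the a priori bound -/
theorem apriori (s : ℕ × ℤ) : ∃ C : ℝ, 0 < C ∧ ∀ n : ℕ, 1 ≤ n → q step (0, 0) n s ≤ C / √ (n : ℝ) := by
  obtain ⟨c, hc, hlaw⟩ := law_t (κ := 1 / 2) (ε := 1 / 16) (by norm_num) (by norm_num)
  have hG := G_nonneg s
  have hrec : ∀ᶠ n : ℕ in atTop, q step (0, 0) n s ≤ (16 * G s + 1) / √ (n : ℝ) + 3 / 10 * q step (0, 0) (n / 2) s := by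
    filter_upwards [hlaw, cc_small s (c := c) (δ := 1 / 16) (κ := 1 / 2) hc (by norm_num) (by norm_num),
      sqrt_small (A := 1 / 16) (B := 1) (c := c) hc, sqrt_lim.eventually_ge_atTop 100,
      sqrt_lim.eventually_ge_atTop (16 * s.1 : ℝ), eventually_ge_atTop 2] with n h1 h2 h3 h4 h5 h6
    set L := ⌈(1 / 16 : ℝ) * √ (n : ℝ)⌉₊ with hLd
    set R : ℝ := 4 ^ ⌊c * (n : ℝ)⌋₊ with hRd
    have hL := ceil_bd (show 0 ≤ (1 / 16 : ℝ) * √ (n : ℝ) by positivity)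
    rw [← hLd] at hL
    have hsn : (0 : ℝ) < √ (n : ℝ) := by linarith
    have hnn : √ (n : ℝ) * √ (n : ℝ) = n := Real.mul_self_sqrt (by positivity)
    have hLpos : (0 : ℝ) < L := by linarith [hL.1]
    have hsL : s.1 ≤ L := by
      have : (s.1 : ℝ) ≤ L := by linarith [hL.1]
      exact_mod_cast this
    have hn2 : (1 / 2 : ℝ) * n ≤ ((n - n / 2 : ℕ) : ℝ) := by
      have : n ≤ 2 * (n - n / 2) := by omega
      have : (n : ℝ) ≤ ((2 * (n - n / 2) : ℕ) : ℝ) := by exact_mod_cast this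
      push_cast at this ⊢
      linarith
    have hsq2 : √ (n : ℝ) / (3 / 2) ≤ √ ((n - n / 2 : ℕ) : ℝ) := by
      apply Real.le_sqrt_of_sq_le
      rw [div_pow, Real.sq_sqrt (by positivity)]
      refine le_trans ?_ hn2
      rw [div_le_iff₀ (by norm_num)]; nlinarith [show (0 : ℝ) ≤ n by positivity]
    have hβ : ∀ x : ℕ × ℤ, x.1 < L → |(x.2 : ℝ)| ≤ R → q step (0, 0) (n - n / 2) x ≤ 3 / 10 := by
      rintro ⟨i, r⟩ hi hr
      simp only at hi hr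
      have hiL : (i : ℝ) ≤ 1 / 16 * √ (n : ℝ) + 1 := by
        have : (i : ℝ) ≤ L := by exact_mod_cast hi.le
        linarith [hL.2]
      have h7 := h1 (n - n / 2) hn2 i r (by linarith) hr
      rw [abs_le] at h7
      have h8 : Erf (i / √ ((n - n / 2 : ℕ) : ℝ)) ≤ 2 * (i / √ ((n - n / 2 : ℕ) : ℝ)) := Erf_up2 (by positivity)
      have h9 : (i : ℝ) / √ ((n - n / 2 : ℕ) : ℝ) ≤ (1 / 16 * √ (n : ℝ) + 1) / (√ (n : ℝ) / (3 / 2)) := by
        apply div_le_div₀ (by positivity) hiL (by positivity) hsq2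
      have h10 : (1 / 16 * √ (n : ℝ) + 1) / (√ (n : ℝ) / (3 / 2)) ≤ 11 / 100 := by
        rw [div_le_iff₀ (by positivity)]
        linarith
      linarith [h7.2]
    have hup := q_up (L := L) (m := 0) (R := R) (α := 1) (by norm_num) (fun x _ _ => q_le_one _ _ _ _) n s hsL
    rw [add_zero, one_mul] at hup
    have hbb := bb_split (L := L) (R := R) (β := 3 / 10) (by norm_num) hβ (n / 2) s
    rw [show n / 2 + (n - n / 2) = n by omega] at hbb
    have ha : aa L n s ≤ 16 * G s / √ (n : ℝ) := by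
      rw [le_div_iff₀ hsn]
      have e1 := (aa_le_al L n s).trans (al_le_G n s)
      have e2 := (aa_bd L n s).1
      have e3 : (1 / 16 * √ (n : ℝ)) * aa L n s ≤ L * aa L n s := mul_le_mul_of_nonneg_right hL.1 e2
      linarith
    have hc1 := h2 n le_rfl
    have hc2 := h2 (n / 2) (by omega)
    have hq1 := bb_le_q L (n / 2) s
    have hc1' : cc L R n s ≤ (1 / 2) / √ (n : ℝ) := by rw [le_div_iff₀ hsn]; linarith
    have hc2' : cc L R (n / 2) s ≤ (1 / 2) / √ (n : ℝ) := by rw [le_div_iff₀ hsn]; linarith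
    have e : (16 * G s + 1) / √ (n : ℝ) = 16 * G s / √ (n : ℝ) + (1 / 2) / √ (n : ℝ) + (1 / 2) / √ (n : ℝ) := by
      field_simp; ring
    rw [e]
    linarith
  obtain ⟨N0, hN0⟩ := eventually_atTop.1 hrec
  set C : ℝ := 3 * (16 * G s + 1) + √ (N0 : ℝ) + √ 2 with hC
  have hC0 : 0 < C := by positivity
  refine ⟨C, hC0, ?_⟩
  intro n
  induction n using Nat.strong_induction_on with
  | _ n ih =>
    intro hn
    have hn1 : (1 : ℝ) ≤ n := by exact_mod_cast hn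
    have hsn : (0 : ℝ) < √ (n : ℝ) := by positivity
    rcases Nat.lt_or_ge n (max N0 2) with h | h
    · refine (q_le_one _ _ _ _).trans ?_
      rw [le_div_iff₀ hsn, one_mul]
      rcases lt_max_iff.1 h with h' | h'
      · have : √ (n : ℝ) ≤ √ (N0 : ℝ) := Real.sqrt_le_sqrt (by exact_mod_cast h'.le)
        have : 0 ≤ √ (2 : ℝ) := Real.sqrt_nonneg _
        linarith
      · have : √ (n : ℝ) ≤ √ (2 : ℝ) := Real.sqrt_le_sqrt (by exact_mod_cast h'.le)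
        have : 0 ≤ √ (N0 : ℝ) := Real.sqrt_nonneg _
        linarith
    · have hnN : N0 ≤ n := (le_max_left _ _).trans h
      have hn2 : 2 ≤ n := (le_max_right _ _).trans h
      have h1 := hN0 n hnN
      have h2 := ih (n / 2) (by omega) (by omega)
      have h3 : √ (n : ℝ) / (7 / 4) ≤ √ ((n / 2 : ℕ) : ℝ) := by
        apply Real.le_sqrt_of_sq_le
        rw [div_pow, Real.sq_sqrt (by positivity)]
        have : n ≤ 3 * (n / 2) := by omega
        have : (n : ℝ) ≤ ((3 * (n / 2) : ℕ) : ℝ) := by exact_mod_cast this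
        push_cast at this ⊢
        rw [div_le_iff₀ (by norm_num)]
        nlinarith
      have h4 : C / √ ((n / 2 : ℕ) : ℝ) ≤ C / (√ (n : ℝ) / (7 / 4)) := by
        apply div_le_div_of_nonneg_left hC0.le (by positivity) h3
      have h5 : C / (√ (n : ℝ) / (7 / 4)) = 7 / 4 * C / √ (n : ℝ) := by field_simp
      have h6 : 3 / 10 * q step (0, 0) (n / 2) s ≤ 3 / 10 * (7 / 4 * C / √ (n : ℝ)) := by
        apply mul_le_mul_of_nonneg_left _ (by norm_num)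
        rw [← h5]; exact h2.trans h4
      have h7 : (16 * G s + 1) / √ (n : ℝ) + 3 / 10 * (7 / 4 * C / √ (n : ℝ)) ≤ C / √ (n : ℝ) := by
        rw [show (16 * G s + 1) / √ (n : ℝ) + 3 / 10 * (7 / 4 * C / √ (n : ℝ)) =
          ((16 * G s + 1) + 21 / 40 * C) / √ (n : ℝ) by ring]
        apply div_le_div_of_nonneg_right _ hsn.le
        have : 3 * (16 * G s + 1) ≤ C := by
          rw [hC]
          have := Real.sqrt_nonneg (N0 : ℝ)
          have := Real.sqrt_nonneg (2 : ℝ)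
          linarith
        linarith
      linarith

end Pool.Agent.J4H26.CC
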