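import Mathlib
import Pool.Agent.J4H26.CC.D

set_option autoImplicit false

/-! The exact constant. -/

namespace Pool.Agent.J4H26.CC

open Finset Filter Topology
open Pool.Agent.H499R2.CO
open Pool.Agent.J4H39 (Erf Erf_mono Erf_zero Erf_nonneg Erf_le_one)

theorem bb_small (s : ℕ × ℤ) {η κ : ℝ} (hη : 0 < η) (hη1 : η ≤ 1) (hκ : 0 < κ) : ∃ δ₀ : ℝ, 0 < δ₀ ∧ ∀ δ : ℝ, 0 < δ → δ ≤ δ₀ →
    ∀ᶠ t : ℕ in atTop, √ (t : ℝ) * bb ⌈δ * √ (t : ℝ)⌉₊ ⌊η * (t : ℝ)⌋₊ s ≤ κ := by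
  obtain ⟨C, hC, hq⟩ := apriori s
  have hsη : 0 < √ η := Real.sqrt_pos.2 hη
  have hηη : √ η * √ η = η := Real.mul_self_sqrt hη.le
  refine ⟨κ * η / (32 * C), by positivity, fun δ hδ hδ0 => ?_⟩
  obtain ⟨c, hc, hlaw⟩ := law_t (κ := η / 4) (ε := κ * √ η / (8 * C)) (by positivity) (by positivity)
  filter_upwards [hlaw, cc_small s (c := c) (δ := δ) (κ := κ / 4) hc hδ (by positivity),
    sqrt_small (A := δ) (B := 1) (c := c) hc, sqrt_lim.eventually_ge_atTop (32 * C / (η * κ)),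
    (tendsto_natCast_atTop_atTop (R := ℝ)).eventually_ge_atTop (4 / η), eventually_ge_atTop 1] with t h1 h2 h3 h4 h5 h6
  set L := ⌈δ * √ (t : ℝ)⌉₊ with hLd
  set n := ⌊η * (t : ℝ)⌋₊ with hnd
  set R : ℝ := 4 ^ ⌊c * (t : ℝ)⌋₊ with hRd
  have ht1 : (1 : ℝ) ≤ t := by exact_mod_cast h6
  have hst : (0 : ℝ) < √ (t : ℝ) := by positivity
  have htt : √ (t : ℝ) * √ (t : ℝ) = t := Real.mul_self_sqrt (by positivity)
  have hL := ceil_bd (show 0 ≤ δ * √ (t : ℝ) by positivity)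
  rw [← hLd] at hL
  have hn1 : (n : ℝ) ≤ η * t := Nat.floor_le (by positivity)
  have hn2 : η * t < n + 1 := Nat.lt_floor_add_one _
  have hηt : 4 ≤ η * t := by rw [div_le_iff₀ hη] at h5; linarith
  have hnt : n ≤ t := by
    have : (n : ℝ) ≤ t := by nlinarith
    exact_mod_cast this
  have ha1 : η * t / 4 ≤ ((n / 2 : ℕ) : ℝ) := by
    have : n ≤ 2 * (n / 2) + 1 := by omega
    have : (n : ℝ) ≤ ((2 * (n / 2) + 1 : ℕ) : ℝ) := by exact_mod_cast this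
    push_cast at this ⊢
    linarith
  have ha2 : η / 4 * t ≤ ((n - n / 2 : ℕ) : ℝ) := by
    have : n ≤ 2 * (n - n / 2) := by omega
    have : (n : ℝ) ≤ ((2 * (n - n / 2) : ℕ) : ℝ) := by exact_mod_cast this
    push_cast at this ⊢
    linarith
  have hs1 : √ η * √ (t : ℝ) / 2 ≤ √ ((n / 2 : ℕ) : ℝ) := by
    apply Real.le_sqrt_of_sq_le
    rw [div_pow, mul_pow, Real.sq_sqrt hη.le, Real.sq_sqrt (by positivity)]
    linarith
  have hs2 : √ η * √ (t : ℝ) / 2 ≤ √ ((n - n / 2 : ℕ) : ℝ) := by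
    apply Real.le_sqrt_of_sq_le
    rw [div_pow, mul_pow, Real.sq_sqrt hη.le, Real.sq_sqrt (by positivity)]
    linarith
  have hn21 : 1 ≤ n / 2 := by
    have : (1 : ℝ) ≤ ((n / 2 : ℕ) : ℝ) := by linarith
    exact_mod_cast this
  set β : ℝ := 2 * ((δ * √ (t : ℝ) + 1) / (√ η * √ (t : ℝ) / 2)) + κ * √ η / (8 * C) with hβd
  have hβ0 : 0 ≤ β := by positivity
  have hβ : ∀ x : ℕ × ℤ, x.1 < L → |(x.2 : ℝ)| ≤ R → q step (0, 0) (n - n / 2) x ≤ β := by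
    rintro ⟨i, r⟩ hi hr
    simp only at hi hr
    have hiL : (i : ℝ) ≤ δ * √ (t : ℝ) + 1 := by
      have : (i : ℝ) ≤ L := by exact_mod_cast hi.le
      linarith [hL.2]
    have h7 := h1 (n - n / 2) ha2 i r (by linarith) hr
    rw [abs_le] at h7
    have h8 : Erf (i / √ ((n - n / 2 : ℕ) : ℝ)) ≤ 2 * (i / √ ((n - n / 2 : ℕ) : ℝ)) := Erf_up2 (by positivity)
    have h9 : (i : ℝ) / √ ((n - n / 2 : ℕ) : ℝ) ≤ (δ * √ (t : ℝ) + 1) / (√ η * √ (t : ℝ) / 2) :=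
      div_le_div₀ (by positivity) hiL (by positivity) hs2
    rw [hβd]
    linarith [h7.2]
  have hbb := bb_split (L := L) (R := R) hβ0 hβ (n / 2) s
  rw [show n / 2 + (n - n / 2) = n by omega] at hbb
  have hq1 := (bb_le_q L (n / 2) s).trans (hq (n / 2) hn21)
  have hq2 : C / √ ((n / 2 : ℕ) : ℝ) ≤ C / (√ η * √ (t : ℝ) / 2) :=
    div_le_div_of_nonneg_left hC.le (by positivity) hs1
  have hc2 := h2 (n / 2) (by omega)
  have h10 : √ (t : ℝ) * bb L n s ≤ √ (t : ℝ) * (β * (C / (√ η * √ (t : ℝ) / 2))) + √ (t : ℝ) * cc L R (n / 2) s := by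
    rw [← mul_add]
    apply mul_le_mul_of_nonneg_left _ hst.le
    have := mul_le_mul_of_nonneg_left (hq1.trans hq2) hβ0
    linarith
  have h11 : √ (t : ℝ) * (β * (C / (√ η * √ (t : ℝ) / 2))) = 8 * C * δ / η + 8 * C / (η * √ (t : ℝ)) + κ / 4 := by
    rw [hβd]
    field_simp
    rw [show √ η ^ 2 = η from Real.sq_sqrt hη.le]
    ring
  have h12 : 8 * C * δ / η ≤ κ / 4 := by
    rw [div_le_iff₀ hη]
    rw [le_div_iff₀ (by positivity)] at hδ0
    linarith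
  have h13 : 8 * C / (η * √ (t : ℝ)) ≤ κ / 4 := by
    rw [div_le_iff₀ (by positivity)] at h4 ⊢
    nlinarith
  linarith

theorem q_asymp_up (s : ℕ × ℤ) {ε : ℝ} (hε : 0 < ε) (hε1 : ε ≤ 1 / 4) :
    ∀ᶠ t : ℕ in atTop, √ (t : ℝ) * q step (0, 0) t s ≤ 2 / √ Real.pi * G s * (1 + ε) + (G s + 3) * ε := by
  have hG := G_nonneg s
  obtain ⟨η, hηd⟩ : ∃ η : ℝ, η = ε / 2 := ⟨_, rfl⟩
  have hη : 0 < η := by rw [hηd]; positivity
  obtain ⟨δ, hδ, hbb⟩ := bb_small s (η := η) (κ := ε) hη (by linarith) hε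
  have hbb := hbb δ hδ le_rfl
  obtain ⟨c, hc, hlaw⟩ := law_t (κ := 1 / 2) (ε := ε * δ) (by norm_num) (by positivity)
  filter_upwards [hlaw, hbb, cc_small s (c := c) (δ := δ) (κ := ε) hc hδ hε,
    sqrt_small (A := δ) (B := 1) (c := c) hc, sqrt_lim.eventually_ge_atTop ((s.1 : ℝ) / δ),
    eventually_ge_atTop 1] with t h1 h2 h3 h4 h5 h6
  set L := ⌈δ * √ (t : ℝ)⌉₊ with hLd
  set n := ⌊η * (t : ℝ)⌋₊ with hnd
  set R : ℝ := 4 ^ ⌊c * (t : ℝ)⌋₊ with hRd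
  have ht1 : (1 : ℝ) ≤ t := by exact_mod_cast h6
  have hst : (0 : ℝ) < √ (t : ℝ) := by positivity
  have htt : √ (t : ℝ) * √ (t : ℝ) = t := Real.mul_self_sqrt (by positivity)
  have hL := ceil_bd (show 0 ≤ δ * √ (t : ℝ) by positivity)
  rw [← hLd] at hL
  have hn1 : (n : ℝ) ≤ η * t := Nat.floor_le (by positivity)
  have hnt : n ≤ t := by
    have : (n : ℝ) ≤ t := by nlinarith
    exact_mod_cast this
  have hLpos : (0 : ℝ) < L := by nlinarith [hL.1]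
  have hsL : s.1 ≤ L := by
    have : (s.1 : ℝ) ≤ L := by
      rw [div_le_iff₀ hδ] at h5
      linarith [hL.1]
    exact_mod_cast this
  have hm : ((t - n : ℕ) : ℝ) = t - n := by rw [Nat.cast_sub hnt]
  have hm1 : (1 - η) * t ≤ ((t - n : ℕ) : ℝ) := by rw [hm]; linarith
  have hm2 : 1 / 2 * (t : ℝ) ≤ ((t - n : ℕ) : ℝ) := by nlinarith
  have hsm : (1 - ε / 2) * √ (t : ℝ) ≤ √ ((t - n : ℕ) : ℝ) := by
    apply Real.le_sqrt_of_sq_le
    rw [mul_pow, Real.sq_sqrt (by positivity)]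
    refine le_trans ?_ hm1
    apply mul_le_mul_of_nonneg_right _ (by positivity)
    rw [hηd]; nlinarith
  have hsm0 : 0 < √ ((t - n : ℕ) : ℝ) := lt_of_lt_of_le (by nlinarith) hsm
  obtain ⟨α, hαd⟩ : ∃ α : ℝ, α = 2 / √ Real.pi * (L / √ ((t - n : ℕ) : ℝ)) + ε * δ := ⟨_, rfl⟩
  have hpi := pi_bd
  have hα0 : 0 ≤ α := by rw [hαd]; positivity
  have hα : ∀ x : ℕ × ℤ, x.1 = L → |(x.2 : ℝ)| ≤ R → q step (0, 0) (t - n) x ≤ α := by
    rintro ⟨i, r⟩ hi hr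
    simp only at hi hr
    subst hi
    have h7 := h1 (t - n) hm2 L r (by linarith [hL.2]) hr
    rw [abs_le] at h7
    have h8 : Erf (L / √ ((t - n : ℕ) : ℝ)) ≤ 2 / √ Real.pi * (L / √ ((t - n : ℕ) : ℝ)) := Erf_up (by positivity)
    rw [hαd]
    linarith [h7.2]
  have hup := q_up (L := L) (m := t - n) (R := R) hα0 hα n s hsL
  rw [show n + (t - n) = t by omega] at hup
  have hA : aa L n s ≤ G s / L := by
    rw [le_div_iff₀ hLpos]
    have := (aa_le_al L n s).trans (al_le_G n s)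
    linarith
  have hc1 := h3 n hnt
  have h9 : √ (t : ℝ) * q step (0, 0) t s ≤ √ (t : ℝ) * (α * (G s / L)) + √ (t : ℝ) * bb L n s + √ (t : ℝ) * cc L R n s := by
    rw [← mul_add, ← mul_add]
    apply mul_le_mul_of_nonneg_left _ hst.le
    have := mul_le_mul_of_nonneg_left hA hα0
    linarith
  have h10 : √ (t : ℝ) * (α * (G s / L)) = 2 / √ Real.pi * G s * (√ (t : ℝ) / √ ((t - n : ℕ) : ℝ)) + ε * G s * (δ * √ (t : ℝ) / L) := by
    rw [hαd]; field_simp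
  have h11 : √ (t : ℝ) / √ ((t - n : ℕ) : ℝ) ≤ 1 + ε := by
    rw [div_le_iff₀ hsm0]
    have e1 : (1 + ε) * ((1 - ε / 2) * √ (t : ℝ)) ≤ (1 + ε) * √ ((t - n : ℕ) : ℝ) :=
      mul_le_mul_of_nonneg_left hsm (by linarith)
    have e2 : √ (t : ℝ) ≤ (1 + ε) * ((1 - ε / 2) * √ (t : ℝ)) := by
      rw [← mul_assoc]
      have : 1 ≤ (1 + ε) * (1 - ε / 2) := by nlinarith
      nlinarith
    linarith
  have h12 : δ * √ (t : ℝ) / L ≤ 1 := by rw [div_le_one hLpos]; exact hL.1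
  have h13 : 2 / √ Real.pi * G s * (√ (t : ℝ) / √ ((t - n : ℕ) : ℝ)) ≤ 2 / √ Real.pi * G s * (1 + ε) :=
    mul_le_mul_of_nonneg_left h11 (mul_nonneg hpi.2.le hG)
  have h14 : ε * G s * (δ * √ (t : ℝ) / L) ≤ ε * G s * 1 := mul_le_mul_of_nonneg_left h12 (by positivity)
  linarith

theorem q_asymp_low (s : ℕ × ℤ) {ε : ℝ} (hε : 0 < ε) (hε1 : ε ≤ 1 / 4) :
    ∀ᶠ t : ℕ in atTop, 2 / √ Real.pi * (G s - ε) * (1 - ε) - (G s + 2) * ε ≤ √ (t : ℝ) * q step (0, 0) t s := by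
  have hG := G_nonneg s
  obtain ⟨δ', hδ', hbb⟩ := bb_small s (η := 1 / 2) (κ := ε) (by norm_num) (by norm_num) hε
  obtain ⟨δ, hδd⟩ : ∃ δ : ℝ, δ = min δ' (ε / 4) := ⟨_, rfl⟩
  have hδ : 0 < δ := by rw [hδd]; positivity
  have hδε : δ ≤ ε / 4 := by rw [hδd]; exact min_le_right _ _
  have hbb := hbb δ hδ (by rw [hδd]; exact min_le_left _ _)
  obtain ⟨c, hc, hlaw⟩ := law_t (κ := 1 / 2) (ε := ε * δ) (by norm_num) (by positivity)
  obtain ⟨j, hj⟩ := eventually_atTop.1 ((al_tendsto s).eventually (Ici_mem_nhds (show G s - ε < G s by linarith)))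
  have hj := hj j le_rfl
  filter_upwards [hlaw, hbb, cc_small s (c := c) (δ := δ) (κ := ε) hc hδ hε,
    sqrt_small (A := δ) (B := 1) (c := c) hc, sqrt_lim.eventually_ge_atTop (((s.1 : ℝ) + j) / δ),
    (tendsto_natCast_atTop_atTop (R := ℝ)).eventually_ge_atTop (2 * ((j : ℝ) + 1)),
    sqrt_lim.eventually_ge_atTop (1 / δ), eventually_ge_atTop 1] with t h1 h2 h3 h4 h5 h5' h5'' h6
  set L := ⌈δ * √ (t : ℝ)⌉₊ with hLd
  set n := ⌊(1 / 2 : ℝ) * (t : ℝ)⌋₊ with hnd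
  set R : ℝ := 4 ^ ⌊c * (t : ℝ)⌋₊ with hRd
  have ht1 : (1 : ℝ) ≤ t := by exact_mod_cast h6
  have hst : (0 : ℝ) < √ (t : ℝ) := by positivity
  have htt : √ (t : ℝ) * √ (t : ℝ) = t := Real.mul_self_sqrt (by positivity)
  have hL := ceil_bd (show 0 ≤ δ * √ (t : ℝ) by positivity)
  rw [← hLd] at hL
  have hn1 : (n : ℝ) ≤ 1 / 2 * t := Nat.floor_le (by positivity)
  have hn2 : 1 / 2 * (t : ℝ) < n + 1 := Nat.lt_floor_add_one _
  have hnt : n ≤ t := by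
    have : (n : ℝ) ≤ t := by linarith
    exact_mod_cast this
  have hLpos : (0 : ℝ) < L := by nlinarith [hL.1]
  have hLpos' : 0 < L := by exact_mod_cast hLpos
  have hsL : s.1 + j ≤ L := by
    have : ((s.1 + j : ℕ) : ℝ) ≤ L := by
      rw [div_le_iff₀ hδ] at h5
      push_cast
      linarith [hL.1]
    exact_mod_cast this
  have hjn : j ≤ n := by
    have : (j : ℝ) ≤ n := by linarith
    exact_mod_cast this
  have hx1 : δ ≤ L / √ (t : ℝ) := by rw [le_div_iff₀ hst]; exact hL.1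
  have hx2 : L / √ (t : ℝ) ≤ 2 * δ := by
    rw [div_le_iff₀ hst]
    rw [div_le_iff₀ hδ] at h5''
    linarith [hL.2]
  obtain ⟨x, hxd⟩ : ∃ x : ℝ, x = L / √ (t : ℝ) := ⟨_, rfl⟩
  rw [← hxd] at hx1 hx2
  have hx0 : 0 < x := by linarith
  have hpi := pi_bd
  obtain ⟨α, hαd⟩ : ∃ α : ℝ, α = Erf x - ε * δ := ⟨_, rfl⟩
  have hpi1 : 1 ≤ 2 / √ Real.pi := by
    rw [le_div_iff₀ (by positivity), one_mul, Real.sqrt_le_left (by norm_num)]
    linarith [Real.pi_lt_four]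
  have hx3 : x ^ 2 ≤ ε := by nlinarith
  have hE1 : 2 / √ Real.pi * (x * (1 - ε)) ≤ Erf x := by
    refine le_trans ?_ (Erf_dn hx0.le)
    apply mul_le_mul_of_nonneg_left _ hpi.2.le
    apply mul_le_mul_of_nonneg_left _ hx0.le
    linarith
  have hα0 : 0 ≤ α := by
    rw [hαd]
    have e1 : x * (1 - ε) ≤ 2 / √ Real.pi * (x * (1 - ε)) := by
      have : 0 ≤ x * (1 - ε) := mul_nonneg hx0.le (by linarith)
      nlinarith
    nlinarith
  have hα1 : α ≤ 1 := by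
    rw [hαd]
    have := Erf_le_one x
    have : 0 ≤ ε * δ := by positivity
    linarith
  have hα : ∀ y : ℕ × ℤ, y.1 = L → |(y.2 : ℝ)| ≤ R → α ≤ q step (0, 0) t y := by
    rintro ⟨i, r⟩ hi hr
    simp only at hi hr
    subst hi
    have h7 := h1 t (by linarith) L r (by linarith [hL.2]) hr
    rw [abs_le, ← hxd] at h7
    rw [hαd]
    linarith [h7.1]
  have hlow := q_low (L := L) (M := t) (R := R) hLpos' hα0 hα1 hα n t hnt le_rfl s (by omega)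
  have hA : al j s / L - bb L n s ≤ aa L n s := by
    have := al_le_aa (L := L) (j := j) (n := n) (s := s) hsL hjn
    rw [sub_le_iff_le_add, div_le_iff₀ hLpos]
    linarith
  have hc1 := h3 n hnt
  have hal0 : 0 ≤ al j s := (Nat.cast_nonneg s.1).trans (level_le_al j s)
  have halG := al_le_G j s
  -- multiply by `√t`
  have h9 : √ (t : ℝ) * (α * (al j s / L)) - √ (t : ℝ) * bb L n s - √ (t : ℝ) * cc L R n s ≤ √ (t : ℝ) * q step (0, 0) t s := by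
    rw [← mul_sub, ← mul_sub]
    apply mul_le_mul_of_nonneg_left _ hst.le
    have e1 := mul_le_mul_of_nonneg_left hA hα0
    have e2 : α * bb L n s ≤ 1 * bb L n s := mul_le_mul_of_nonneg_right hα1 (bb_bd L n s).1
    rw [mul_sub] at e1
    linarith
  have h10 : √ (t : ℝ) * (α * (al j s / L)) = α / x * al j s := by
    rw [hxd]; field_simp
  have h11 : 2 / √ Real.pi * (1 - ε) - ε ≤ α / x := by
    rw [le_div_iff₀ hx0, hαd]
    have e1 : ε * δ ≤ ε * x := mul_le_mul_of_nonneg_left hx1 hε.le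
    have e2 : (2 / √ Real.pi * (1 - ε) - ε) * x = 2 / √ Real.pi * (x * (1 - ε)) - ε * x := by ring
    rw [e2]
    linarith
  have h12 : (2 / √ Real.pi * (1 - ε) - ε) * al j s ≤ α / x * al j s := mul_le_mul_of_nonneg_right h11 hal0
  have h13 : 2 / √ Real.pi * (G s - ε) * (1 - ε) ≤ 2 / √ Real.pi * (1 - ε) * al j s := by
    have e1 : (0 : ℝ) ≤ 2 / √ Real.pi * (1 - ε) := mul_nonneg hpi.2.le (by linarith)
    have e2 : G s - ε ≤ al j s := hj
    have := mul_le_mul_of_nonneg_left e2 e1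
    linarith
  have h14 : ε * al j s ≤ ε * G s := mul_le_mul_of_nonneg_left halG hε.le
  rw [h10] at h9
  linarith

/-- THE EXACT CONSTANT OF COALESCENCE. -/
theorem q_asymp (s : ℕ × ℤ) : Tendsto (fun t : ℕ => √ (t : ℝ) * q step (0, 0) t s) atTop (𝓝 (2 / √ Real.pi * G s)) := by
  have hG := G_nonneg s
  have hpi := pi_bd
  rw [Metric.tendsto_nhds]
  intro κ hκ
  obtain ⟨ε, hε, hε1, hε2⟩ : ∃ ε : ℝ, 0 < ε ∧ ε ≤ 1 / 4 ∧ (4 * G s + 5) * ε < κ := by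
    refine ⟨min (1 / 4) (κ / (2 * (4 * G s + 5))), by positivity, min_le_left _ _, ?_⟩
    have h1 : min (1 / 4) (κ / (2 * (4 * G s + 5))) ≤ κ / (2 * (4 * G s + 5)) := min_le_right _ _
    have h2 := mul_le_mul_of_nonneg_left h1 (show 0 ≤ 4 * G s + 5 by linarith)
    have h3 : (4 * G s + 5) * (κ / (2 * (4 * G s + 5))) = κ / 2 := by field_simp
    linarith
  filter_upwards [q_asymp_up s hε hε1, q_asymp_low s hε hε1] with t h1 h2
  rw [Real.dist_eq, abs_lt]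
  have h3 : 2 / √ Real.pi * G s * ε ≤ 2 * G s * ε := by
    apply mul_le_mul_of_nonneg_right _ hε.le
    exact mul_le_mul_of_nonneg_right hpi.1 hG
  have h4 : 2 / √ Real.pi * ε ≤ 2 * ε := mul_le_mul_of_nonneg_right hpi.1 hε.le
  have h5 : 0 ≤ 2 / √ Real.pi * ε * ε := by positivity
  constructor
  · have e : 2 / √ Real.pi * (G s - ε) * (1 - ε) = 2 / √ Real.pi * G s - 2 / √ Real.pi * ε - 2 / √ Real.pi * G s * ε +
        2 / √ Real.pi * ε * ε := by ring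
    rw [e] at h2
    nlinarith
  · have e : 2 / √ Real.pi * G s * (1 + ε) = 2 / √ Real.pi * G s + 2 / √ Real.pi * G s * ε := by ring
    rw [e] at h1
    nlinarith

end Pool.Agent.J4H26.CC
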