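import Mathlib
import Pool.Agent.J4H26.CC.E
import Pool.Agent.H499R2.CO.Q4

set_option autoImplicit false

/-! The iterated averages, and the mean of the error function of the level. -/

namespace Pool.Agent.J4H26.CC

open Finset Filter Topology
open Pool.Agent.H499R2.CO
open Pool.Agent.J4H39 (Erf Erf_mono Erf_zero Erf_nonneg Erf_le_one)

/-- the mean of `F` after `n` steps -/
noncomputable def it : ℕ → (ℕ × ℤ → ℝ) → ℕ × ℤ → ℝ
  | 0, F => F
  | n + 1, F => P (it n F)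

theorem it_mono (n : ℕ) {F H : ℕ × ℤ → ℝ} (h : ∀ s, F s ≤ H s) : ∀ s, it n F s ≤ it n H s := by
  induction n with
  | zero => exact h
  | succ n ih => intro s; exact P_mono ih s

theorem it_congr (n : ℕ) {F H : ℕ × ℤ → ℝ} (h : ∀ s, F s = H s) (s : ℕ × ℤ) : it n F s = it n H s := by
  rw [show F = H from funext h]

theorem it_add_fun (n : ℕ) (F H : ℕ × ℤ → ℝ) : ∀ s, it n (fun x => F x + H x) s = it n F s + it n H s := by
  induction n with
  | zero => intro s; rfl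
  | succ n ih => intro s; show P _ s = P _ s + P _ s; unfold P; rw [ih, ih]; ring

theorem it_mul (n : ℕ) (c : ℝ) (F : ℕ × ℤ → ℝ) : ∀ s, it n (fun x => c * F x) s = c * it n F s := by
  induction n with
  | zero => intro s; rfl
  | succ n ih => intro s; show P _ s = c * P _ s; unfold P; rw [ih, ih]; ring

theorem it_sub_fun (n : ℕ) (F H : ℕ × ℤ → ℝ) (s : ℕ × ℤ) : it n (fun x => F x - H x) s = it n F s - it n H s := by
  have h := it_add_fun n F (fun x => (-1) * H x) s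
  rw [it_mul] at h
  rw [← sub_eq_zero]
  have e : it n (fun x => F x - H x) s = it n (fun x => F x + (-1) * H x) s := it_congr n (fun x => by ring) s
  rw [e, h]; ring

theorem it_sum {ι : Type*} (n : ℕ) (A : Finset ι) (F : ι → ℕ × ℤ → ℝ) (s : ℕ × ℤ) :
    it n (fun x => ∑ i ∈ A, F i x) s = ∑ i ∈ A, it n (F i) s := by
  classical
  induction A using Finset.induction_on with
  | empty =>
    simp only [sum_empty]
    have h := it_mul n 0 (fun _ => (0 : ℝ)) s
    simp only [zero_mul, mul_zero] at h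
    exact h
  | insert a A ha ih =>
    simp only [sum_insert ha]
    rw [it_add_fun, ih]

theorem it_comp (m : ℕ) (F : ℕ × ℤ → ℝ) (n : ℕ) : it (n + m) F = it n (it m F) := by
  induction n with
  | zero => rw [Nat.zero_add]; rfl
  | succ n ih => rw [show n + 1 + m = (n + m) + 1 by ring]; show P _ = P _; rw [ih]

theorem it_nonneg (n : ℕ) {F : ℕ × ℤ → ℝ} (h : ∀ s, 0 ≤ F s) : ∀ s, 0 ≤ it n F s := by
  induction n with
  | zero => exact h
  | succ n ih => intro s; exact P_nonneg' ih s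

theorem it_abs (n : ℕ) {F H : ℕ × ℤ → ℝ} (h : ∀ s, |F s| ≤ H s) (s : ℕ × ℤ) : |it n F s| ≤ it n H s := by
  rw [abs_le]
  constructor
  · have h1 := it_mono n (F := fun x => (-1) * H x) (H := F) (fun x => by
      have := (abs_le.1 (h x)).1; linarith) s
    rw [it_mul] at h1
    linarith
  · exact it_mono n (fun x => (abs_le.1 (h x)).2) s

theorem it_al (n : ℕ) : it n (fun x => (x.1 : ℝ)) = al n := by
  induction n with
  | zero => rfl
  | succ n ih => show P _ = P _; rw [ih]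

theorem it_q (n m : ℕ) : ∀ s, it n (q step (0, 0) m) s = q step (0, 0) (n + m) s := by
  induction n with
  | zero => intro s; rw [Nat.zero_add]; rfl
  | succ n ih =>
    intro s
    show P (it n (q step (0, 0) m)) s = _
    by_cases h : s = (0, 0)
    · subst h; rw [P_o, q_o, ih, q_o]
    · rw [show n + 1 + m = (n + m) + 1 by ring, q_P h]
      unfold P
      rw [ih, ih]

theorem it_sq (n : ℕ) : ∀ s : ℕ × ℤ, it n (fun x => (x.1 : ℝ) ^ 2) s ≤ (s.1 : ℝ) ^ 2 + n := by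
  induction n with
  | zero => intro s; show (s.1 : ℝ) ^ 2 ≤ _; simp
  | succ n ih =>
    intro s
    have h1 : P (it n (fun x => (x.1 : ℝ) ^ 2)) s ≤ P (fun x => (x.1 : ℝ) ^ 2) s + n := by
      unfold P
      have := ih (step s false); have := ih (step s true); linarith
    have h2 := P_sq s
    show P _ s ≤ _
    push_cast
    linarith

theorem it_pw (n : ℕ) : ∀ s : ℕ × ℤ, it n pw s ≤ pw s + 38 := by
  have key : ∀ n : ℕ, ∀ s : ℕ × ℤ, it n pw s ≤ (49 / 50) ^ n * pw s + 75 / 2 * (1 - (49 / 50) ^ n) := by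
    intro n
    induction n with
    | zero => intro s; show pw s ≤ _; simp
    | succ n ih =>
      intro s
      show P (it n pw) s ≤ _
      have h1 : P (it n pw) s ≤ (49 / 50) ^ n * P pw s + 75 / 2 * (1 - (49 / 50) ^ n) := by
        unfold P
        have := ih (step s false); have := ih (step s true); linarith
      have h2 := P_pw s
      have h3 : (0 : ℝ) < (49 / 50) ^ n := by positivity
      have h4 := mul_le_mul_of_nonneg_left h2 h3.le
      rw [pow_succ]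
      linarith
  intro s
  refine (key n s).trans ?_
  have h0 := pw_nonneg s
  have h3 : (0 : ℝ) < (49 / 50) ^ n := by positivity
  have h4 : ((49 : ℝ) / 50) ^ n ≤ 1 := pow_le_one₀ (by norm_num) (by norm_num)
  nlinarith

open Classical in
/-- states which are not typical at time `t` -/
noncomputable def bad (c : ℝ) (t : ℕ) (x : ℕ × ℤ) : ℝ := if (x.1 : ℝ) ≤ c * t ∧ |(x.2 : ℝ)| ≤ 4 ^ ⌊c * t⌋₊ then 0 else 1

theorem bad_nonneg (c : ℝ) (t : ℕ) (x : ℕ × ℤ) : 0 ≤ bad c t x := by unfold bad; split_ifs <;> norm_num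

theorem bad_anti {c c' : ℝ} (h : c ≤ c') (t : ℕ) (x : ℕ × ℤ) : bad c' t x ≤ bad c t x := by
  unfold bad
  have ht : c * (t : ℝ) ≤ c' * t := mul_le_mul_of_nonneg_right h (by positivity)
  split_ifs with h1 h2 h2
  · exact le_rfl
  · norm_num
  · exfalso
    apply h1
    refine ⟨h2.1.trans ht, h2.2.trans ?_⟩
    exact pow_le_pow_right₀ (by norm_num) (Nat.floor_le_floor ht)
  · exact le_rfl

/-- atypical states are negligible -/
theorem bad_small (s : ℕ × ℤ) {c κ : ℝ} (hc : 0 < c) (hκ : 0 < κ) :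
    ∀ᶠ t : ℕ in atTop, √ (t : ℝ) * it t (bad c t) s ≤ κ := by
  have hp := pw_nonneg s
  have hlog : 0 < Real.log 2 := Real.log_pos (by norm_num)
  have hlim2 : Tendsto (fun t : ℕ => ((s.1 : ℝ) ^ 2 + 1) * 16 / c ^ 2 / √ (t : ℝ)) atTop (𝓝 0) :=
    Tendsto.div_atTop tendsto_const_nhds sqrt_lim
  -- the constant `c / 4` for the level
  filter_upwards [exp_small (b := c / 4 * Real.log 2) (A := 2 * (pw s + 38)) (κ := κ / 2) (by positivity) (by positivity) (by positivity),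
    hlim2.eventually (Iic_mem_nhds (show (0 : ℝ) < κ / 2 by positivity)), eventually_ge_atTop 1,
    (tendsto_natCast_atTop_atTop (R := ℝ)).eventually_ge_atTop (2 / c)] with t h1 h2 h3 h3'
  have ht1 : (1 : ℝ) ≤ t := by exact_mod_cast h3
  have hst : (0 : ℝ) < √ (t : ℝ) := by positivity
  have htt : √ (t : ℝ) * √ (t : ℝ) = t := Real.mul_self_sqrt (by positivity)
  have hK : (0 : ℝ) < 2 ^ (-(c * t / 4)) := by positivity
  have hpt : ∀ x : ℕ × ℤ, bad c t x ≤ (16 / (c * t) ^ 2) * (x.1 : ℝ) ^ 2 + 2 * (2 : ℝ) ^ (-(c * (t : ℝ) / 4)) * pw x := by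
    intro x
    have hpx := pw_nonneg x
    have e0 : (0 : ℝ) ≤ 16 / (c * t) ^ 2 * (x.1 : ℝ) ^ 2 := by positivity
    by_cases hx : (x.1 : ℝ) ≤ c * t / 4
    · by_cases hr : |(x.2 : ℝ)| ≤ 4 ^ ⌊c * t⌋₊
      · have : bad c t x = 0 := by
          unfold bad; rw [if_pos ⟨hx.trans (by nlinarith), hr⟩]
        rw [this]; positivity
      · have hb : bad c t x ≤ 1 := by unfold bad; split_ifs <;> norm_num
        have h4 : 1 ≤ 2 * (2 : ℝ) ^ (-(c * (t : ℝ) / 4)) * pw x := by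
          push Not at hr
          have e1 : √ ((4 : ℝ) ^ ⌊c * (t : ℝ)⌋₊) ≤ w x.2 := Real.sqrt_le_sqrt hr.le
          have hsq : √ ((4 : ℝ) ^ ⌊c * (t : ℝ)⌋₊) = 2 ^ ⌊c * (t : ℝ)⌋₊ := by
            rw [show (4 : ℝ) = 2 ^ 2 by norm_num, ← pow_mul, mul_comm, pow_mul, Real.sqrt_sq (by positivity)]
          rw [hsq] at e1
          have hF := Nat.lt_floor_add_one (c * (t : ℝ))
          have e2 : (2 : ℝ) ^ (c * (t : ℝ) - 1) ≤ 2 ^ ⌊c * (t : ℝ)⌋₊ := by
            rw [← Real.rpow_natCast 2 ⌊c * (t : ℝ)⌋₊]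
            apply Real.rpow_le_rpow_of_exponent_le (by norm_num)
            linarith
          have e3 : (2 : ℝ) ^ (-(x.1 : ℝ)) ≤ (11 / 20 : ℝ) ^ x.1 := by
            rw [Real.rpow_neg (by norm_num), Real.rpow_natCast, ← inv_pow]
            apply pow_le_pow_left₀ (by norm_num) (by norm_num)
          have e4 : (2 : ℝ) ^ (-(c * t / 4)) ≤ (2 : ℝ) ^ (-(x.1 : ℝ)) := by
            apply Real.rpow_le_rpow_of_exponent_le (by norm_num)
            linarith
          have e5 : (2 : ℝ) ^ (-(c * t / 4)) * (2 : ℝ) ^ (c * (t : ℝ) - 1) ≤ pw x :=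
            mul_le_mul (e4.trans e3) (e2.trans e1) (by positivity) (by positivity)
          have e6 : 2 * (2 : ℝ) ^ (-(c * (t : ℝ) / 4)) * ((2 : ℝ) ^ (-(c * t / 4)) * (2 : ℝ) ^ (c * (t : ℝ) - 1)) ≤
              2 * (2 : ℝ) ^ (-(c * (t : ℝ) / 4)) * pw x := mul_le_mul_of_nonneg_left e5 (by positivity)
          refine le_trans ?_ e6
          have e7 : 2 * (2 : ℝ) ^ (-(c * (t : ℝ) / 4)) * ((2 : ℝ) ^ (-(c * t / 4)) * (2 : ℝ) ^ (c * (t : ℝ) - 1)) =
              2 ^ (1 + (-(c * (t : ℝ) / 4)) + (-(c * t / 4)) + (c * (t : ℝ) - 1)) := by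
            rw [Real.rpow_add (by norm_num), Real.rpow_add (by norm_num), Real.rpow_add (by norm_num), Real.rpow_one]
            ring
          rw [e7]
          apply Real.one_le_rpow (by norm_num)
          have : 0 ≤ c * (t : ℝ) := by positivity
          linarith
        linarith
    · have hb : bad c t x ≤ 1 := by unfold bad; split_ifs <;> norm_num
      push Not at hx
      have h4 : 1 ≤ 16 / (c * t) ^ 2 * (x.1 : ℝ) ^ 2 := by
        rw [div_mul_eq_mul_div, le_div_iff₀ (by positivity), one_mul]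
        have h5 : (0 : ℝ) ≤ c * t / 4 := by positivity
        nlinarith
      have : 0 ≤ 2 * (2 : ℝ) ^ (-(c * (t : ℝ) / 4)) * pw x := by positivity
      linarith
  have h4 := it_mono t hpt s
  rw [it_add_fun, it_mul, it_mul] at h4
  have h5 := it_sq t s
  have h6 := it_pw t s
  have h7 : √ (t : ℝ) * (16 / (c * t) ^ 2 * it t (fun x => (x.1 : ℝ) ^ 2) s) ≤ κ / 2 := by
    refine le_trans ?_ h2
    have e1 : √ (t : ℝ) * (16 / (c * t) ^ 2 * it t (fun x => (x.1 : ℝ) ^ 2) s) ≤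
        √ (t : ℝ) * (16 / (c * t) ^ 2 * (((s.1 : ℝ) ^ 2 + 1) * t)) := by
      gcongr
      nlinarith [sq_nonneg (s.1 : ℝ)]
    refine e1.trans (le_of_eq ?_)
    rw [div_div, eq_div_iff (by positivity)]
    have : √ (t : ℝ) * (16 / (c * t) ^ 2 * (((s.1 : ℝ) ^ 2 + 1) * t)) * (c ^ 2 * √ (t : ℝ)) =
        (√ (t : ℝ) * √ (t : ℝ)) * (16 / (c * t) ^ 2 * (((s.1 : ℝ) ^ 2 + 1) * t)) * c ^ 2 := by ring
    rw [this, htt]
    field_simp
  have h8 : √ (t : ℝ) * (2 * (2 : ℝ) ^ (-(c * (t : ℝ) / 4)) * it t pw s) ≤ κ / 2 := by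
    refine le_trans ?_ h1
    have e2 : Real.exp (-(c / 4 * Real.log 2 * t)) = 2 ^ (-(c * (t : ℝ) / 4)) := by
      rw [Real.rpow_def_of_pos (by norm_num)]; congr 1; ring
    rw [e2]
    calc √ (t : ℝ) * (2 * (2 : ℝ) ^ (-(c * (t : ℝ) / 4)) * it t pw s)
        ≤ √ (t : ℝ) * (2 * (2 : ℝ) ^ (-(c * (t : ℝ) / 4)) * (pw s + 38)) := by gcongr
      _ ≤ √ (t : ℝ) * (2 * (2 : ℝ) ^ (-(c * (t : ℝ) / 4)) * ((pw s + 38) * (t + 1))) := by
          gcongr
          nlinarith
      _ = _ := by ring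
  calc √ (t : ℝ) * it t (bad c t) s ≤ √ (t : ℝ) * (16 / (c * t) ^ 2 * it t (fun x => (x.1 : ℝ) ^ 2) s +
        2 * (2 : ℝ) ^ (-(c * (t : ℝ) / 4)) * it t pw s) := by gcongr
    _ ≤ κ := by rw [mul_add]; linarith

/-- the mean of the error function of the level -/
theorem erf_mean (s : ℕ × ℤ) {a κ : ℝ} (ha : 0 < a) (hκ : 0 < κ) :
    ∀ᶠ t : ℕ in atTop, ∀ m : ℕ, a * t ≤ m →
      |√ (t : ℝ) * it t (fun x => Erf (x.1 / √ (m : ℝ))) s - 2 / √ Real.pi * G s * (√ (t : ℝ) / √ ((t + m : ℕ) : ℝ))| ≤ κ := by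
  have hG := G_nonneg s
  obtain ⟨C, hC, hq⟩ := apriori s
  obtain ⟨c, hc, hlaw⟩ := law_t (κ := a) (ε := κ / (4 * C)) ha (by positivity)
  obtain ⟨t1, ht1⟩ := eventually_atTop.1 ((Metric.tendsto_nhds.1 (q_asymp s)) (κ / 4) (by positivity))
  filter_upwards [hlaw, bad_small s (c := c) (κ := κ / 4) hc (by positivity), eventually_ge_atTop t1, eventually_ge_atTop 1] with t h1 h2 h3 h4
  intro m hm
  have ht1' : (1 : ℝ) ≤ t := by exact_mod_cast h4
  have hst : (0 : ℝ) < √ (t : ℝ) := by positivity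
  have hpt : ∀ x : ℕ × ℤ, |Erf (x.1 / √ (m : ℝ)) - q step (0, 0) m x| ≤ κ / (4 * C) * q step (0, 0) 0 x + bad c t x := by
    intro x
    have hb0 := bad_nonneg c t x
    by_cases h0 : x = (0, 0)
    · subst h0
      rw [q_o, q_o]
      simp only [Nat.cast_zero, zero_div, Erf_zero, sub_zero, abs_zero, mul_zero, zero_add]
      exact hb0
    · rw [q_zero_ne _ _ h0, mul_one]
      by_cases hb : (x.1 : ℝ) ≤ c * t ∧ |(x.2 : ℝ)| ≤ 4 ^ ⌊c * t⌋₊
      · have := h1 m hm x.1 x.2 hb.1 hb.2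
        rw [abs_sub_comm] at this
        have e : q step (0, 0) m x = q step (0, 0) m (x.1, x.2) := rfl
        rw [e]
        linarith
      · have e : bad c t x = 1 := by unfold bad; rw [if_neg hb]
        rw [e, abs_le]
        have i1 := Erf_nonneg (show 0 ≤ (x.1 : ℝ) / √ (m : ℝ) by positivity)
        have i2 := Erf_le_one ((x.1 : ℝ) / √ (m : ℝ))
        have i3 := q_nonneg step (0, 0) m x
        have i4 := q_le_one step (0, 0) m x
        have i5 : 0 < κ / (4 * C) := by positivity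
        constructor <;> linarith
  have h5 := it_abs t hpt s
  rw [it_sub_fun, it_q, it_add_fun, it_mul, it_q, add_zero] at h5
  have h6 : √ (t : ℝ) * (κ / (4 * C) * q step (0, 0) t s) ≤ κ / 4 := by
    have := hq t h4
    rw [le_div_iff₀ hst] at this
    calc √ (t : ℝ) * (κ / (4 * C) * q step (0, 0) t s) = κ / (4 * C) * (q step (0, 0) t s * √ (t : ℝ)) := by ring
      _ ≤ κ / (4 * C) * C := by gcongr
      _ = κ / 4 := by field_simp
  have h7 : |√ (t : ℝ) * it t (fun x => Erf (x.1 / √ (m : ℝ))) s - √ (t : ℝ) * q step (0, 0) (t + m) s| ≤ κ / 2 := by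
    rw [← mul_sub, abs_mul, abs_of_pos hst]
    calc √ (t : ℝ) * |it t (fun x => Erf (x.1 / √ (m : ℝ))) s - q step (0, 0) (t + m) s|
        ≤ √ (t : ℝ) * (κ / (4 * C) * q step (0, 0) t s + it t (bad c t) s) := by gcongr
      _ ≤ κ / 2 := by rw [mul_add]; linarith
  have h8 := ht1 (t + m) (by omega)
  rw [Real.dist_eq] at h8
  have hstm : (0 : ℝ) < √ ((t + m : ℕ) : ℝ) := by positivity
  have hle : √ (t : ℝ) ≤ √ ((t + m : ℕ) : ℝ) := Real.sqrt_le_sqrt (by push_cast; linarith [show (0 : ℝ) ≤ m by positivity])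
  have h9 : |√ (t : ℝ) * q step (0, 0) (t + m) s - 2 / √ Real.pi * G s * (√ (t : ℝ) / √ ((t + m : ℕ) : ℝ))| ≤ κ / 4 := by
    have e : √ (t : ℝ) * q step (0, 0) (t + m) s - 2 / √ Real.pi * G s * (√ (t : ℝ) / √ ((t + m : ℕ) : ℝ)) =
        (√ (t : ℝ) / √ ((t + m : ℕ) : ℝ)) * (√ ((t + m : ℕ) : ℝ) * q step (0, 0) (t + m) s - 2 / √ Real.pi * G s) := by
      field_simp
    rw [e, abs_mul, abs_of_pos (by positivity)]
    have e2 : √ (t : ℝ) / √ ((t + m : ℕ) : ℝ) ≤ 1 := by rw [div_le_one hstm]; exact hle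
    calc (√ (t : ℝ) / √ ((t + m : ℕ) : ℝ)) * |√ ((t + m : ℕ) : ℝ) * q step (0, 0) (t + m) s - 2 / √ Real.pi * G s|
        ≤ 1 * (κ / 4) := mul_le_mul e2 h8.le (abs_nonneg _) (by norm_num)
      _ = κ / 4 := one_mul _
  calc |√ (t : ℝ) * it t (fun x => Erf (x.1 / √ (m : ℝ))) s - 2 / √ Real.pi * G s * (√ (t : ℝ) / √ ((t + m : ℕ) : ℝ))|
      = |(√ (t : ℝ) * it t (fun x => Erf (x.1 / √ (m : ℝ))) s - √ (t : ℝ) * q step (0, 0) (t + m) s) +
          (√ (t : ℝ) * q step (0, 0) (t + m) s - 2 / √ Real.pi * G s * (√ (t : ℝ) / √ ((t + m : ℕ) : ℝ)))| := by congr 1; ring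
    _ ≤ κ / 2 + κ / 4 := (abs_add_le _ _).trans (add_le_add h7 h9)
    _ ≤ κ := by linarith

end Pool.Agent.J4H26.CC
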