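import Mathlib
import Pool.Agent.J4H26.CC.F

set_option autoImplicit false

/-! The limits of the means of `Z (exp (- Z ^ 2)) ^ k`, where `√t Z` is the level at time `t`. -/

namespace Pool.Agent.J4H26.CC

open Finset Filter Topology
open Pool.Agent.H499R2.CO
open Pool.Agent.J4H39 (Erf Erf_mono Erf_zero Erf_nonneg Erf_le_one)

/-- the level divided by the square root of the time -/
noncomputable def Z (t : ℕ) (x : ℕ × ℤ) : ℝ := x.1 / √ (t : ℝ)

theorem Z_nonneg (t : ℕ) (x : ℕ × ℤ) : 0 ≤ Z t x := by unfold Z; positivity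

/-- the function `w / √(1 + w²)` -/
noncomputable def Phi (w : ℝ) : ℝ := w / √ (1 + w ^ 2)

theorem ratio_lim {b : ℝ} (hb : 0 < b) {m : ℕ → ℕ} (hm : Tendsto (fun t : ℕ => (m t : ℝ) / t) atTop (𝓝 b)) :
    Tendsto (fun t : ℕ => √ (t : ℝ) / √ ((t + m t : ℕ) : ℝ)) atTop (𝓝 (1 / √ (1 + b))) := by
  have h1 : Tendsto (fun t : ℕ => 1 / √ (1 + (m t : ℝ) / t)) atTop (𝓝 (1 / √ (1 + b))) := by
    apply Tendsto.div tendsto_const_nhds _ (by positivity)
    exact (Real.continuous_sqrt.tendsto _).comp (hm.const_add 1)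
  refine h1.congr' ?_
  filter_upwards [eventually_ge_atTop 1] with t ht
  have ht0 : (0 : ℝ) < t := by exact_mod_cast ht
  have e : 1 + (m t : ℝ) / t = ((t + m t : ℕ) : ℝ) / t := by push_cast; field_simp
  rw [e, Real.sqrt_div (by positivity)]
  field_simp

theorem H_lim (s : ℕ × ℤ) {w : ℝ} (hw : 0 < w) :
    Tendsto (fun t : ℕ => √ (t : ℝ) * it t (fun x => Erf (Z t x * w)) s) atTop (𝓝 (2 / √ Real.pi * G s * Phi w)) := by
  have hG := G_nonneg s
  have hpi := pi_bd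
  set b : ℝ := 1 / w ^ 2 with hb
  have hb0 : 0 < b := by positivity
  have hPhi : Phi w = 1 / √ (1 + b) := by
    unfold Phi
    have e : 1 + b = (1 + w ^ 2) / w ^ 2 := by rw [hb]; field_simp; ring
    rw [e, Real.sqrt_div (by positivity), Real.sqrt_sq hw.le]
    field_simp
  have f1 : Tendsto (fun t : ℕ => (⌊b * (t : ℝ)⌋₊ : ℝ) / t) atTop (𝓝 b) :=
    (tendsto_nat_floor_mul_div_atTop hb0.le).comp tendsto_natCast_atTop_atTop
  have f2 : Tendsto (fun t : ℕ => (⌈b * (t : ℝ)⌉₊ : ℝ) / t) atTop (𝓝 b) :=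
    (tendsto_nat_ceil_mul_div_atTop hb0.le).comp tendsto_natCast_atTop_atTop
  have r1 := (ratio_lim hb0 f1).const_mul (2 / √ Real.pi * G s)
  have r2 := (ratio_lim hb0 f2).const_mul (2 / √ Real.pi * G s)
  rw [Metric.tendsto_nhds]
  intro κ hκ
  filter_upwards [erf_mean s (a := b / 2) (κ := κ / 3) (by positivity) (by positivity),
    (Metric.tendsto_nhds.1 r1) (κ / 3) (by positivity), (Metric.tendsto_nhds.1 r2) (κ / 3) (by positivity),
    (tendsto_natCast_atTop_atTop (R := ℝ)).eventually_ge_atTop (2 / b), eventually_ge_atTop 1] with t h1 h2 h3 h4 h5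
  have ht0 : (0 : ℝ) < t := by exact_mod_cast h5
  have hst : (0 : ℝ) < √ (t : ℝ) := by positivity
  rw [div_le_iff₀ hb0] at h4
  have g1 : b / 2 * t ≤ (⌊b * (t : ℝ)⌋₊ : ℝ) := by
    have := Nat.lt_floor_add_one (b * (t : ℝ))
    linarith
  have g2 : b / 2 * t ≤ (⌈b * (t : ℝ)⌉₊ : ℝ) := by
    have := Nat.le_ceil (b * (t : ℝ))
    have : 0 ≤ b * (t : ℝ) := by positivity
    linarith
  have k1 := h1 _ g1
  have k2 := h1 _ g2
  rw [Real.dist_eq] at h2 h3 ⊢
  have hfl : (⌊b * (t : ℝ)⌋₊ : ℝ) ≤ b * t := Nat.floor_le (by positivity)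
  have hcl : b * t ≤ (⌈b * (t : ℝ)⌉₊ : ℝ) := Nat.le_ceil _
  have hsb : √ (b * (t : ℝ)) = √ (t : ℝ) / w := by
    rw [hb, Real.sqrt_mul (by positivity), Real.sqrt_div (by norm_num), Real.sqrt_one, Real.sqrt_sq hw.le]
    ring
  have hpos1 : 0 < √ ((⌊b * (t : ℝ)⌋₊ : ℕ) : ℝ) := by
    apply Real.sqrt_pos.2
    have : 0 < b / 2 * (t : ℝ) := by positivity
    linarith
  have up : √ (t : ℝ) * it t (fun x => Erf (Z t x * w)) s ≤ √ (t : ℝ) * it t (fun x => Erf (x.1 / √ ((⌊b * (t : ℝ)⌋₊ : ℕ) : ℝ))) s := by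
    apply mul_le_mul_of_nonneg_left _ hst.le
    apply it_mono
    intro x
    apply Erf_mono
    have e1 : √ ((⌊b * (t : ℝ)⌋₊ : ℕ) : ℝ) ≤ √ (t : ℝ) / w := by
      rw [← hsb]; exact Real.sqrt_le_sqrt hfl
    have e2 : Z t x * w = x.1 / (√ (t : ℝ) / w) := by unfold Z; field_simp
    rw [e2]
    exact div_le_div_of_nonneg_left (by positivity) hpos1 e1
  have low : √ (t : ℝ) * it t (fun x => Erf (x.1 / √ ((⌈b * (t : ℝ)⌉₊ : ℕ) : ℝ))) s ≤ √ (t : ℝ) * it t (fun x => Erf (Z t x * w)) s := by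
    apply mul_le_mul_of_nonneg_left _ hst.le
    apply it_mono
    intro x
    apply Erf_mono
    have e1 : √ (t : ℝ) / w ≤ √ ((⌈b * (t : ℝ)⌉₊ : ℕ) : ℝ) := by
      rw [← hsb]; exact Real.sqrt_le_sqrt hcl
    have e2 : Z t x * w = x.1 / (√ (t : ℝ) / w) := by unfold Z; field_simp
    rw [e2]
    exact div_le_div_of_nonneg_left (by positivity) (by positivity) e1
  rw [hPhi]
  rw [abs_le] at k1 k2
  rw [abs_lt] at h2 h3 ⊢
  constructor
  · linarith [k2.1, h3.1]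
  · linarith [k1.2, h2.2]

theorem Phi_deriv (v : ℝ) : HasDerivAt Phi (1 / ((1 + v ^ 2) * √ (1 + v ^ 2))) v := by
  have h0 : 0 < 1 + v ^ 2 := by positivity
  have h1 : HasDerivAt (fun v : ℝ => 1 + v ^ 2) (2 * v) v := by
    have := (hasDerivAt_pow 2 v).const_add 1
    simpa using this
  have h2 := h1.sqrt h0.ne'
  have h3 := (hasDerivAt_id v).div h2 (Real.sqrt_pos.2 h0).ne'
  refine h3.congr_deriv ?_
  have hs : √ (1 + v ^ 2) ^ 2 = 1 + v ^ 2 := Real.sq_sqrt h0.le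
  have hsp := Real.sqrt_pos.2 h0
  simp only [id]
  field_simp
  rw [hs]
  ring

theorem Erf_slope_up {z v v' : ℝ} (hz : 0 ≤ z) (hv : 0 ≤ v) (h : v ≤ v') :
    Erf (z * v') - Erf (z * v) ≤ 2 / √ Real.pi * ((v' - v) * (z * Real.exp (-(z * v) ^ 2))) := by
  have hc : Continuous fun w : ℝ => Real.exp (-w ^ 2) := by fun_prop
  have hle : z * v ≤ z * v' := mul_le_mul_of_nonneg_left h hz
  have h0 : 0 ≤ z * v := mul_nonneg hz hv
  unfold Erf
  rw [← mul_sub, intervalIntegral.integral_interval_sub_left (hc.intervalIntegrable _ _) (hc.intervalIntegrable _ _)]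
  apply mul_le_mul_of_nonneg_left _ pi_bd.2.le
  have h1 : (∫ u in (z * v)..(z * v'), Real.exp (-u ^ 2)) ≤ ∫ u in (z * v)..(z * v'), Real.exp (-(z * v) ^ 2) := by
    apply intervalIntegral.integral_mono_on hle (hc.intervalIntegrable _ _) (by simp)
    intro u hu
    apply Real.exp_le_exp.2
    have : (z * v) ^ 2 ≤ u ^ 2 := pow_le_pow_left₀ h0 hu.1 2
    linarith
  refine h1.trans (le_of_eq ?_)
  rw [intervalIntegral.integral_const, smul_eq_mul]; ring

theorem Erf_slope_low {z v v' : ℝ} (hz : 0 ≤ z) (hv : 0 ≤ v) (h : v ≤ v') :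
    2 / √ Real.pi * ((v' - v) * (z * Real.exp (-(z * v') ^ 2))) ≤ Erf (z * v') - Erf (z * v) := by
  have hc : Continuous fun w : ℝ => Real.exp (-w ^ 2) := by fun_prop
  have hle : z * v ≤ z * v' := mul_le_mul_of_nonneg_left h hz
  have h0 : 0 ≤ z * v := mul_nonneg hz hv
  unfold Erf
  rw [← mul_sub, intervalIntegral.integral_interval_sub_left (hc.intervalIntegrable _ _) (hc.intervalIntegrable _ _)]
  apply mul_le_mul_of_nonneg_left _ pi_bd.2.le
  have h1 : (∫ u in (z * v)..(z * v'), Real.exp (-(z * v') ^ 2)) ≤ ∫ u in (z * v)..(z * v'), Real.exp (-u ^ 2) := by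
    apply intervalIntegral.integral_mono_on hle (by simp) (hc.intervalIntegrable _ _)
    intro u hu
    apply Real.exp_le_exp.2
    have : u ^ 2 ≤ (z * v') ^ 2 := pow_le_pow_left₀ (h0.trans hu.1) hu.2 2
    linarith
  refine le_trans (le_of_eq ?_) h1
  rw [intervalIntegral.integral_const, smul_eq_mul]; ring

theorem K_lim (s : ℕ × ℤ) {v : ℝ} (hv : 0 < v) :
    Tendsto (fun t : ℕ => √ (t : ℝ) * it t (fun x => Z t x * Real.exp (-(Z t x * v) ^ 2)) s) atTop
      (𝓝 (G s * (1 / ((1 + v ^ 2) * √ (1 + v ^ 2))))) := by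
  have hG := G_nonneg s
  have hpi := pi_bd
  obtain ⟨A, hA⟩ : ∃ A, A = 1 / ((1 + v ^ 2) * √ (1 + v ^ 2)) := ⟨_, rfl⟩
  have hsl := (hasDerivAt_iff_tendsto_slope.1 (Phi_deriv v))
  rw [← hA] at hsl ⊢
  rw [Metric.tendsto_nhds]
  intro κ hκ
  have hκ' : 0 < κ / (2 * (G s + 1)) := by positivity
  have hsl2 := (Metric.tendsto_nhds.1 hsl) _ hκ'
  -- points to the right and to the left
  have hr : ∀ᶠ v' in 𝓝[>] v, dist (slope Phi v v') A < κ / (2 * (G s + 1)) :=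
    hsl2.filter_mono (nhdsWithin_mono v (fun x hx => ne_of_gt hx))
  have hl : ∀ᶠ v' in 𝓝[<] v, dist (slope Phi v v') A < κ / (2 * (G s + 1)) :=
    hsl2.filter_mono (nhdsWithin_mono v (fun x hx => ne_of_lt hx))
  obtain ⟨v₁, hv₁, hv₁'⟩ := (hr.and self_mem_nhdsWithin).exists
  have hlt : ∀ᶠ v' in 𝓝[<] v, v' < v := self_mem_nhdsWithin
  have hgt : ∀ᶠ v' in 𝓝[<] v, 0 < v' := mem_nhdsWithin_of_mem_nhds (Ioi_mem_nhds hv)
  obtain ⟨v₂, hv₂, hv₂', hv₂0⟩ := (hl.and (hlt.and hgt)).exists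
  have hv₁' : v < v₁ := hv₁'
  have hv₂' : v₂ < v := hv₂'
  have hv₂0 : 0 < v₂ := hv₂0
  obtain ⟨κ', hκ'd⟩ : ∃ κ' : ℝ, κ' = κ / 8 * min (v₁ - v) (v - v₂) := ⟨_, rfl⟩
  have hmin : 0 < min (v₁ - v) (v - v₂) := lt_min (by linarith) (by linarith)
  have hκ'0 : 0 < κ' := by rw [hκ'd]; positivity
  have hm1 : κ' ≤ κ / 8 * (v₁ - v) := by
    rw [hκ'd]; exact mul_le_mul_of_nonneg_left (min_le_left _ _) (by positivity)
  have hm2 : κ' ≤ κ / 8 * (v - v₂) := by
    rw [hκ'd]; exact mul_le_mul_of_nonneg_left (min_le_right _ _) (by positivity)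
  filter_upwards [(Metric.tendsto_nhds.1 (H_lim s hv)) κ' hκ'0,
    (Metric.tendsto_nhds.1 (H_lim s (hv.trans hv₁'))) κ' hκ'0,
    (Metric.tendsto_nhds.1 (H_lim s hv₂0)) κ' hκ'0, eventually_ge_atTop 1] with t h0 h1 h2 ht
  have ht0 : (0 : ℝ) < t := by exact_mod_cast ht
  have hst : (0 : ℝ) < √ (t : ℝ) := by positivity
  set K := √ (t : ℝ) * it t (fun x => Z t x * Real.exp (-(Z t x * v) ^ 2)) s with hK
  have up : √ (t : ℝ) * it t (fun x => Erf (Z t x * v₁)) s - √ (t : ℝ) * it t (fun x => Erf (Z t x * v)) s ≤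
      2 / √ Real.pi * ((v₁ - v) * K) := by
    rw [← mul_sub, ← it_sub_fun]
    have := it_mono t (F := fun x => Erf (Z t x * v₁) - Erf (Z t x * v))
      (H := fun x => 2 / √ Real.pi * (v₁ - v) * (Z t x * Real.exp (-(Z t x * v) ^ 2))) (fun x => by
        have := Erf_slope_up (Z_nonneg t x) hv.le hv₁'.le
        linarith) s
    rw [it_mul] at this
    have h3 := mul_le_mul_of_nonneg_left this hst.le
    refine h3.trans (le_of_eq ?_)
    rw [hK]; ring
  have low : 2 / √ Real.pi * ((v - v₂) * K) ≤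
      √ (t : ℝ) * it t (fun x => Erf (Z t x * v)) s - √ (t : ℝ) * it t (fun x => Erf (Z t x * v₂)) s := by
    rw [← mul_sub, ← it_sub_fun]
    have := it_mono t (F := fun x => 2 / √ Real.pi * (v - v₂) * (Z t x * Real.exp (-(Z t x * v) ^ 2)))
      (H := fun x => Erf (Z t x * v) - Erf (Z t x * v₂)) (fun x => by
        have := Erf_slope_low (Z_nonneg t x) hv₂0.le hv₂'.le
        linarith) s
    rw [it_mul] at this
    have h3 := mul_le_mul_of_nonneg_left this hst.le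
    refine le_trans (le_of_eq ?_) h3
    rw [hK]; ring
  rw [Real.dist_eq, abs_lt] at h0 h1 h2
  rw [slope_def_field, Real.dist_eq, abs_lt] at hv₁ hv₂
  rw [Real.dist_eq, abs_lt]
  have hd1 : 0 < v₁ - v := by linarith
  have hd2 : 0 < v - v₂ := by linarith
  have hs1 : (A - κ / (2 * (G s + 1))) * (v₁ - v) ≤ Phi v₁ - Phi v := by
    have := hv₁.1
    rw [lt_sub_iff_add_lt, lt_div_iff₀ hd1] at this
    linarith
  have hs2 : Phi v - Phi v₂ ≤ (A + κ / (2 * (G s + 1))) * (v - v₂) := by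
    have := hv₂.2
    have e : (Phi v₂ - Phi v) / (v₂ - v) = (Phi v - Phi v₂) / (v - v₂) := by
      rw [← neg_sub (Phi v) (Phi v₂), ← neg_sub v v₂, neg_div_neg_eq]
    rw [e, sub_lt_iff_lt_add, div_lt_iff₀ hd2] at this
    linarith
  have hGκ : G s * (κ / (2 * (G s + 1))) ≤ κ / 2 := by
    rw [mul_div_assoc', div_le_iff₀ (by positivity)]; nlinarith
  have hpi1 : 1 ≤ 2 / √ Real.pi := by
    rw [le_div_iff₀ (by positivity), one_mul, Real.sqrt_le_left (by norm_num)]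
    linarith [Real.pi_lt_four]
  constructor
  · -- lower bound
    have e1 : 2 / √ Real.pi * G s * (Phi v₁ - Phi v) - 2 * κ' ≤ 2 / √ Real.pi * ((v₁ - v) * K) := by
      have : 2 / √ Real.pi * G s * (Phi v₁ - Phi v) = 2 / √ Real.pi * G s * Phi v₁ - 2 / √ Real.pi * G s * Phi v := by ring
      rw [this]; linarith [h1.1, h0.2]
    have e2 : 2 / √ Real.pi * G s * ((A - κ / (2 * (G s + 1))) * (v₁ - v)) ≤ 2 / √ Real.pi * G s * (Phi v₁ - Phi v) :=
      mul_le_mul_of_nonneg_left hs1 (mul_nonneg hpi.2.le hG)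
    have e3 : 2 * κ' ≤ 2 / √ Real.pi * ((v₁ - v) * (κ / 4)) := by
      have : 0 ≤ (v₁ - v) * (κ / 4) := by positivity
      nlinarith
    have e4 : 2 / √ Real.pi * (v₁ - v) * (G s * (A - κ / (2 * (G s + 1))) - κ / 4) ≤ 2 / √ Real.pi * (v₁ - v) * K := by
      have e5 : 2 / √ Real.pi * (v₁ - v) * (G s * (A - κ / (2 * (G s + 1))) - κ / 4) =
        2 / √ Real.pi * G s * ((A - κ / (2 * (G s + 1))) * (v₁ - v)) - 2 / √ Real.pi * ((v₁ - v) * (κ / 4)) := by ring
      rw [e5]; linarith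
    have e6 := le_of_mul_le_mul_left e4 (mul_pos hpi.2 hd1)
    linarith
  · have e1 : 2 / √ Real.pi * ((v - v₂) * K) ≤ 2 / √ Real.pi * G s * (Phi v - Phi v₂) + 2 * κ' := by
      have : 2 / √ Real.pi * G s * (Phi v - Phi v₂) = 2 / √ Real.pi * G s * Phi v - 2 / √ Real.pi * G s * Phi v₂ := by ring
      rw [this]; linarith [h2.1, h0.2]
    have e2 : 2 / √ Real.pi * G s * (Phi v - Phi v₂) ≤ 2 / √ Real.pi * G s * ((A + κ / (2 * (G s + 1))) * (v - v₂)) :=
      mul_le_mul_of_nonneg_left hs2 (mul_nonneg hpi.2.le hG)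
    have e3 : 2 * κ' ≤ 2 / √ Real.pi * ((v - v₂) * (κ / 4)) := by
      have : 0 ≤ (v - v₂) * (κ / 4) := by positivity
      nlinarith
    have e4 : 2 / √ Real.pi * (v - v₂) * K ≤ 2 / √ Real.pi * (v - v₂) * (G s * (A + κ / (2 * (G s + 1))) + κ / 4) := by
      have e5 : 2 / √ Real.pi * (v - v₂) * (G s * (A + κ / (2 * (G s + 1))) + κ / 4) =
        2 / √ Real.pi * G s * ((A + κ / (2 * (G s + 1))) * (v - v₂)) + 2 / √ Real.pi * ((v - v₂) * (κ / 4)) := by ring
      rw [e5]; linarith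
    have e6 := le_of_mul_le_mul_left e4 (mul_pos hpi.2 hd2)
    linarith

/-- the limits for the powers -/
theorem M_lim (s : ℕ × ℤ) (k : ℕ) :
    Tendsto (fun t : ℕ => √ (t : ℝ) * it t (fun x => Z t x * Real.exp (-Z t x ^ 2) ^ k) s) atTop
      (𝓝 (G s * (1 / ((k + 1) * √ ((k : ℝ) + 1))))) := by
  rcases Nat.eq_zero_or_pos k with rfl | hk
  · simp only [pow_zero, mul_one, Nat.cast_zero, zero_add, Real.sqrt_one, div_one]
    refine (al_tendsto s).congr' ?_
    filter_upwards [eventually_ge_atTop 1] with t ht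
    have ht0 : (0 : ℝ) < t := by exact_mod_cast ht
    have hst : (0 : ℝ) < √ (t : ℝ) := by positivity
    rw [← it_al]
    have e : it t (Z t) s = it t (fun x => (1 / √ (t : ℝ)) * (x.1 : ℝ)) s := it_congr t (fun x => by unfold Z; ring) s
    rw [e, it_mul]
    field_simp
  · have hk0 : (0 : ℝ) < k := by exact_mod_cast hk
    have h := K_lim s (v := √ (k : ℝ)) (Real.sqrt_pos.2 hk0)
    rw [Real.sq_sqrt hk0.le, add_comm (1 : ℝ) (k : ℝ)] at h
    refine h.congr fun t => ?_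
    congr 1
    apply it_congr
    intro x
    rw [← Real.exp_nat_mul, mul_pow, Real.sq_sqrt hk0.le]
    congr 2; ring

end Pool.Agent.J4H26.CC
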