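import Mathlib
import Pool.Agent.J4H26.CC.R1

set_option autoImplicit false

/-! The Rayleigh law of the level of the pairs which have not merged. -/

namespace Pool.Agent.J4H26.CC

open Finset Filter Topology MeasureTheory
open Pool.Agent.H499R2.CO

/-- the mean of `f` for the law with the density `4 / √π z² exp (- z²)` -/
noncomputable def J (f : ℝ → ℝ) : ℝ := 4 / √ Real.pi * ∫ z in Set.Ioi (0 : ℝ), z ^ 2 * Real.exp (-z ^ 2) * f z

theorem int_sq : IntegrableOn (fun z : ℝ => z ^ 2 * Real.exp (-z ^ 2)) (Set.Ioi 0) := by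
  have h := (integrableOn_rpow_mul_exp_neg_mul_sq (b := 1) one_pos (s := 2) (by norm_num))
  refine h.congr_fun (fun z _ => ?_) measurableSet_Ioi
  simp

theorem int_pow (k : ℕ) : (∫ z in Set.Ioi (0 : ℝ), z ^ 2 * Real.exp (-z ^ 2) * Real.exp (-z ^ 2) ^ k) =
    √ Real.pi / 4 * (1 / ((k + 1) * √ ((k : ℝ) + 1))) := by
  have h := integral_rpow_mul_exp_neg_mul_rpow (p := 2) (q := 2) (b := (k : ℝ) + 1) (by norm_num) (by norm_num) (by positivity)
  have hk : (0 : ℝ) < (k : ℝ) + 1 := by positivity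
  have e1 : Real.Gamma ((2 + 1) / 2) = √ Real.pi / 2 := by
    have := Real.Gamma_add_one (s := 1 / 2) (by norm_num)
    rw [Real.Gamma_one_half_eq] at this
    rw [show ((2 : ℝ) + 1) / 2 = 1 / 2 + 1 by norm_num, this]; ring
  have e2 : ((k : ℝ) + 1) ^ (-((2 : ℝ) + 1) / 2) = 1 / ((k + 1) * √ ((k : ℝ) + 1)) := by
    rw [show -((2 : ℝ) + 1) / 2 = -(1 + 1 / 2) by norm_num, Real.rpow_neg hk.le, Real.rpow_add hk, Real.rpow_one,
      ← Real.sqrt_eq_rpow, one_div]
  rw [e1, e2] at h
  have e3 : (∫ z in Set.Ioi (0 : ℝ), z ^ 2 * Real.exp (-z ^ 2) * Real.exp (-z ^ 2) ^ k) =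
      ∫ x in Set.Ioi (0 : ℝ), x ^ (2 : ℝ) * Real.exp (-((k : ℝ) + 1) * x ^ (2 : ℝ)) := by
    apply setIntegral_congr_fun measurableSet_Ioi
    intro z _
    simp only [Real.rpow_ofNat]
    rw [mul_assoc, ← Real.exp_nat_mul, ← Real.exp_add]
    congr 2; ring
  rw [e3, h]; ring

theorem J_pow (k : ℕ) : J (fun z => Real.exp (-z ^ 2) ^ k) = 1 / ((k + 1) * √ ((k : ℝ) + 1)) := by
  unfold J
  rw [int_pow]
  have : √ Real.pi ≠ 0 := by positivity
  field_simp

theorem int_f {f : ℝ → ℝ} (hf : Continuous f) {B : ℝ} (hB : ∀ z, 0 ≤ z → |f z| ≤ B) :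
    IntegrableOn (fun z : ℝ => z ^ 2 * Real.exp (-z ^ 2) * f z) (Set.Ioi 0) := by
  have h := int_sq.const_mul B
  refine Integrable.mono' h ?_ ?_
  · exact (Continuous.aestronglyMeasurable (by fun_prop))
  · refine (ae_restrict_iff' measurableSet_Ioi).2 (Eventually.of_forall fun z hz => ?_)
    rw [Real.norm_eq_abs, abs_mul, abs_of_nonneg (by positivity), mul_comm]
    exact mul_le_mul_of_nonneg_right (hB z (le_of_lt hz)) (by positivity)

theorem J_near {f g : ℝ → ℝ} (hf : Continuous f) (hg : Continuous g) {B B' : ℝ} (hB : ∀ z, 0 ≤ z → |f z| ≤ B)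
    (hB' : ∀ z, 0 ≤ z → |g z| ≤ B') {ε : ℝ} (h : ∀ z, 0 ≤ z → |f z - g z| ≤ ε) : |J f - J g| ≤ ε := by
  have h0 := J_pow 0
  simp only [pow_zero, Nat.cast_zero, zero_add, Real.sqrt_one, mul_one, div_one] at h0
  unfold J at h0 ⊢
  rw [← mul_sub, ← integral_sub (int_f hf hB) (int_f hg hB'), abs_mul, abs_of_pos (by positivity)]
  have h1 : |∫ z in Set.Ioi (0 : ℝ), (z ^ 2 * Real.exp (-z ^ 2) * f z - z ^ 2 * Real.exp (-z ^ 2) * g z)| ≤
      ∫ z in Set.Ioi (0 : ℝ), ε * (z ^ 2 * Real.exp (-z ^ 2)) := by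
    rw [← Real.norm_eq_abs]
    apply norm_integral_le_of_norm_le (int_sq.const_mul ε)
    refine (ae_restrict_iff' measurableSet_Ioi).2 (Eventually.of_forall fun z hz => ?_)
    rw [← mul_sub, Real.norm_eq_abs, abs_mul, abs_of_nonneg (by positivity), mul_comm]
    exact mul_le_mul_of_nonneg_right (h z (le_of_lt hz)) (by positivity)
  rw [integral_const_mul] at h1
  simp only [mul_one] at h0
  calc 4 / √ Real.pi * |∫ z in Set.Ioi (0 : ℝ), (z ^ 2 * Real.exp (-z ^ 2) * f z - z ^ 2 * Real.exp (-z ^ 2) * g z)|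
      ≤ 4 / √ Real.pi * (ε * ∫ z in Set.Ioi (0 : ℝ), z ^ 2 * Real.exp (-z ^ 2)) := by gcongr
    _ = ε * (4 / √ Real.pi * ∫ z in Set.Ioi (0 : ℝ), z ^ 2 * Real.exp (-z ^ 2)) := by ring
    _ = ε := by rw [h0, mul_one]

theorem Z_mean (s : ℕ × ℤ) {t : ℕ} (ht : 1 ≤ t) : √ (t : ℝ) * it t (Z t) s = al t s := by
  have ht0 : (0 : ℝ) < t := by exact_mod_cast ht
  have hst : (0 : ℝ) < √ (t : ℝ) := by positivity
  rw [← it_al]
  have e : it t (Z t) s = it t (fun x => (1 / √ (t : ℝ)) * (x.1 : ℝ)) s := it_congr t (fun x => by unfold Z; ring) s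
  rw [e, it_mul]
  field_simp

theorem poly_lim (s : ℕ × ℤ) (p : Polynomial ℝ) :
    Tendsto (fun t : ℕ => √ (t : ℝ) * it t (fun x => Z t x * p.eval (Real.exp (-Z t x ^ 2))) s) atTop
      (𝓝 (G s * J (fun z => p.eval (Real.exp (-z ^ 2))))) := by
  have e1 : ∀ t : ℕ, √ (t : ℝ) * it t (fun x => Z t x * p.eval (Real.exp (-Z t x ^ 2))) s =
      ∑ k ∈ range (p.natDegree + 1), p.coeff k * (√ (t : ℝ) * it t (fun x => Z t x * Real.exp (-Z t x ^ 2) ^ k) s) := by
    intro t
    have e : it t (fun x => Z t x * p.eval (Real.exp (-Z t x ^ 2))) s =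
        it t (fun x => ∑ k ∈ range (p.natDegree + 1), p.coeff k * (Z t x * Real.exp (-Z t x ^ 2) ^ k)) s := by
      apply it_congr
      intro x
      rw [Polynomial.eval_eq_sum_range, mul_sum]
      apply sum_congr rfl
      intro k _
      ring
    rw [e, it_sum, mul_sum]
    apply sum_congr rfl
    intro k _
    rw [it_mul]; ring
  have e2 : G s * J (fun z => p.eval (Real.exp (-z ^ 2))) =
      ∑ k ∈ range (p.natDegree + 1), p.coeff k * (G s * (1 / ((k + 1) * √ ((k : ℝ) + 1)))) := by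
    have e3 : (∫ z in Set.Ioi (0 : ℝ), z ^ 2 * Real.exp (-z ^ 2) * p.eval (Real.exp (-z ^ 2))) =
        ∑ k ∈ range (p.natDegree + 1), p.coeff k * ∫ z in Set.Ioi (0 : ℝ), z ^ 2 * Real.exp (-z ^ 2) * Real.exp (-z ^ 2) ^ k := by
      have : ∀ z : ℝ, z ^ 2 * Real.exp (-z ^ 2) * p.eval (Real.exp (-z ^ 2)) =
          ∑ k ∈ range (p.natDegree + 1), p.coeff k * (z ^ 2 * Real.exp (-z ^ 2) * Real.exp (-z ^ 2) ^ k) := by
        intro z
        rw [Polynomial.eval_eq_sum_range, mul_sum]
        apply sum_congr rfl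
        intro k _
        ring
      simp only [this]
      rw [integral_finset_sum]
      · apply sum_congr rfl
        intro k _
        rw [integral_const_mul]
      · intro k _
        apply Integrable.const_mul
        refine int_f (B := 1) (by fun_prop) (fun z _ => ?_)
        rw [abs_of_nonneg (by positivity)]
        apply pow_le_one₀ (by positivity)
        rw [Real.exp_le_one_iff]; nlinarith [sq_nonneg z]
    unfold J
    rw [e3, mul_sum, mul_sum]
    apply sum_congr rfl
    intro k _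
    rw [int_pow]
    have : √ Real.pi ≠ 0 := by positivity
    field_simp
  rw [e2]
  refine Tendsto.congr (fun t => (e1 t).symm) ?_
  exact tendsto_finset_sum _ fun k _ => (M_lim s k).const_mul _

theorem psi_cont {f : ℝ → ℝ} (hf : Continuous f) (hf0 : Tendsto f atTop (𝓝 0)) :
    ContinuousOn (fun u : ℝ => if u ≤ 0 then 0 else f (√ (-Real.log u))) (Set.Icc 0 1) := by
  intro u hu
  rcases hu.1.eq_or_lt with h | h
  · subst h
    apply ContinuousWithinAt.mono (t := insert 0 (Set.Ioi 0)) _ (by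
      intro x hx
      rcases hx.1.eq_or_lt with h | h
      · left; exact h.symm
      · right; exact h)
    rw [continuousWithinAt_insert_self]
    show Tendsto _ _ _
    simp only [le_refl, if_true]
    have h1 : Tendsto (fun u : ℝ => f (√ (-Real.log u))) (𝓝[>] 0) (𝓝 0) := by
      apply hf0.comp
      apply Real.tendsto_sqrt_atTop.comp
      exact tendsto_neg_atBot_atTop.comp Real.tendsto_log_nhdsGT_zero
    refine h1.congr' ?_
    filter_upwards [self_mem_nhdsWithin] with x hx
    rw [if_neg (not_le.2 hx)]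
  · apply ContinuousAt.continuousWithinAt
    have h1 : ContinuousAt (fun u : ℝ => f (√ (-Real.log u))) u := by
      apply hf.continuousAt.comp
      apply Real.continuous_sqrt.continuousAt.comp
      exact (Real.continuousAt_log h.ne').neg
    refine h1.congr ?_
    filter_upwards [Ioi_mem_nhds h] with x hx
    rw [if_neg (not_le.2 hx)]

theorem f_lim (s : ℕ × ℤ) {f : ℝ → ℝ} (hf : Continuous f) (hf0 : Tendsto f atTop (𝓝 0)) {B : ℝ}
    (hB : ∀ z, 0 ≤ z → |f z| ≤ B) :
    Tendsto (fun t : ℕ => √ (t : ℝ) * it t (fun x => Z t x * f (Z t x)) s) atTop (𝓝 (G s * J f)) := by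
  have hG := G_nonneg s
  rw [Metric.tendsto_nhds]
  intro κ hκ
  obtain ⟨ε, hεd⟩ : ∃ ε, ε = κ / (3 * (G s + 1)) := ⟨_, rfl⟩
  have hε : 0 < ε := by rw [hεd]; positivity
  have hεG : G s * ε ≤ κ / 3 := by
    rw [hεd, mul_div_assoc', div_le_div_iff₀ (by positivity) (by norm_num)]; nlinarith
  obtain ⟨p, hp⟩ := exists_polynomial_near_of_continuousOn 0 1 _ (psi_cont hf hf0) ε hε
  have hp' : ∀ z : ℝ, 0 ≤ z → |p.eval (Real.exp (-z ^ 2)) - f z| ≤ ε := by
    intro z hz
    have h1 := hp (Real.exp (-z ^ 2)) ⟨(Real.exp_pos _).le, by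
      rw [Real.exp_le_one_iff]; nlinarith [sq_nonneg z]⟩
    rw [if_neg (not_le.2 (Real.exp_pos _)), Real.log_exp, neg_neg, Real.sqrt_sq hz] at h1
    exact h1.le
  have hpB : ∀ z, 0 ≤ z → |p.eval (Real.exp (-z ^ 2))| ≤ B + ε := by
    intro z hz
    have h1 := hp' z hz
    have h2 := hB z hz
    rw [abs_le] at h1 h2 ⊢
    constructor <;> linarith [h1.1, h1.2, h2.1, h2.2]
  have hJ := J_near (f := fun z => p.eval (Real.exp (-z ^ 2))) (g := f)
    (by have := p.continuous; fun_prop) hf hpB hB hp'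
  filter_upwards [(Metric.tendsto_nhds.1 (poly_lim s p)) (κ / 3) (by positivity), eventually_ge_atTop 1] with t h1 ht
  have ht0 : (0 : ℝ) < t := by exact_mod_cast ht
  have hst : (0 : ℝ) < √ (t : ℝ) := by positivity
  have h2 := it_abs t (F := fun x => Z t x * p.eval (Real.exp (-Z t x ^ 2)) - Z t x * f (Z t x))
    (H := fun x => ε * Z t x) (fun x => by
      have hz := Z_nonneg t x
      rw [← mul_sub, abs_mul, abs_of_nonneg hz, mul_comm]
      exact mul_le_mul_of_nonneg_right (hp' _ hz) hz) s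
  rw [it_sub_fun, it_mul] at h2
  have h3 : |√ (t : ℝ) * it t (fun x => Z t x * p.eval (Real.exp (-Z t x ^ 2))) s - √ (t : ℝ) * it t (fun x => Z t x * f (Z t x)) s| ≤ κ / 3 := by
    rw [← mul_sub, abs_mul, abs_of_pos hst]
    refine (mul_le_mul_of_nonneg_left h2 hst.le).trans ?_
    have e : √ (t : ℝ) * (ε * it t (Z t) s) = ε * al t s := by rw [← Z_mean s ht]; ring
    have e' : √ (t : ℝ) * (ε * it t (fun x => Z t x) s) = ε * al t s := e
    rw [e']
    have := mul_le_mul_of_nonneg_left (al_le_G t s) hε.le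
    linarith
  rw [Real.dist_eq] at h1 ⊢
  have h4 : |G s * J (fun z => p.eval (Real.exp (-z ^ 2))) - G s * J f| ≤ κ / 3 := by
    rw [← mul_sub, abs_mul, abs_of_nonneg hG]
    exact (mul_le_mul_of_nonneg_left hJ hG).trans hεG
  rw [abs_le] at h3 h4
  rw [abs_lt] at h1 ⊢
  constructor <;> linarith [h1.1, h1.2, h3.1, h3.2, h4.1, h4.2]

theorem int_tail (a : ℝ) : IntegrableOn (fun z : ℝ => z * Real.exp (-z ^ 2)) (Set.Ioi a) ∧
    (∫ z in Set.Ioi a, z * Real.exp (-z ^ 2)) = Real.exp (-a ^ 2) / 2 := by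
  have hi : Integrable (fun z : ℝ => z * Real.exp (-z ^ 2)) := by
    have := integrable_mul_exp_neg_mul_sq (b := 1) one_pos
    refine this.congr (Eventually.of_forall fun z => ?_)
    simp
  refine ⟨hi.integrableOn, ?_⟩
  have hd : ∀ x ∈ Set.Ici a, HasDerivAt (fun z : ℝ => -(Real.exp (-z ^ 2) / 2)) (x * Real.exp (-x ^ 2)) x := by
    intro x _
    have h1 : HasDerivAt (fun z : ℝ => -z ^ 2) (-(2 * x)) x := by
      have := (hasDerivAt_pow 2 x).fun_neg
      simpa using this
    have h2 := (h1.exp.div_const 2).fun_neg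
    refine h2.congr_deriv ?_
    ring
  have hl : Tendsto (fun z : ℝ => -(Real.exp (-z ^ 2) / 2)) atTop (𝓝 0) := by
    have h1 : Tendsto (fun z : ℝ => -z ^ 2) atTop atBot :=
      tendsto_neg_atTop_atBot.comp (tendsto_pow_atTop (by norm_num))
    have h2 := ((Real.tendsto_exp_atBot.comp h1).div_const 2).neg
    simpa using h2
  rw [integral_Ioi_of_hasDerivAt_of_tendsto' hd hi.integrableOn hl]
  ring

/-- the ramp from `a` to `b` -/
noncomputable def ramp (a b z : ℝ) : ℝ := max 0 (min 1 ((z - a) / (b - a)))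

theorem ramp_cont (a b : ℝ) : Continuous (ramp a b) := by unfold ramp; fun_prop

theorem ramp_bd (a b z : ℝ) : 0 ≤ ramp a b z ∧ ramp a b z ≤ 1 := by
  unfold ramp
  exact ⟨le_max_left _ _, max_le (by norm_num) (min_le_left _ _)⟩

theorem ramp_low {a b z : ℝ} (hab : a < b) (h : z ≤ a) : ramp a b z = 0 := by
  unfold ramp
  apply max_eq_left
  refine (min_le_right _ _).trans ?_
  exact div_nonpos_of_nonpos_of_nonneg (by linarith) (by linarith)

theorem ramp_high {a b z : ℝ} (hab : a < b) (h : b ≤ z) : ramp a b z = 1 := by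
  unfold ramp
  have h1 : 1 ≤ (z - a) / (b - a) := by rw [one_le_div (by linarith)]; linarith
  rw [min_eq_left h1]; norm_num

/-- the ramp divided by the argument -/
noncomputable def rf (a b z : ℝ) : ℝ := ramp a b z / max z a

theorem rf_cont {a b : ℝ} (ha : 0 < a) : Continuous (rf a b) := by
  unfold rf
  apply (ramp_cont a b).div (by fun_prop)
  intro z
  exact (lt_max_of_lt_right ha).ne'

theorem rf_bd {a b z : ℝ} (ha : 0 < a) : |rf a b z| ≤ 1 / a := by
  unfold rf
  have h1 := ramp_bd a b z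
  have h2 : a ≤ max z a := le_max_right _ _
  rw [abs_of_nonneg (div_nonneg h1.1 (ha.le.trans h2))]
  exact div_le_div₀ (by norm_num) h1.2 ha h2

theorem rf_lim {a b : ℝ} (ha : 0 < a) : Tendsto (rf a b) atTop (𝓝 0) := by
  have h1 : Tendsto (fun z : ℝ => 1 / z) atTop (𝓝 0) := by
    simpa using tendsto_inv_atTop_zero (𝕜 := ℝ)
  refine squeeze_zero' ?_ ?_ h1
  · filter_upwards [eventually_ge_atTop a] with z hz
    unfold rf
    exact div_nonneg (ramp_bd a b z).1 (by rw [max_eq_left hz]; linarith)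
  · filter_upwards [eventually_ge_atTop a] with z hz
    unfold rf
    rw [max_eq_left hz]
    exact div_le_div_of_nonneg_right (ramp_bd a b z).2 (by linarith)

theorem rf_mul {a b z : ℝ} (ha : 0 < a) (hab : a < b) : z * rf a b z = ramp a b z := by
  unfold rf
  rcases le_or_gt z a with h | h
  · rw [ramp_low hab h]; simp
  · rw [max_eq_left h.le]
    have : z ≠ 0 := by linarith
    field_simp

theorem J_rf {a b : ℝ} (ha : 0 < a) (hab : a < b) : J (rf a b) ≤ 2 / √ Real.pi * Real.exp (-a ^ 2) ∧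
    2 / √ Real.pi * Real.exp (-b ^ 2) ≤ J (rf a b) := by
  have hpi : (0 : ℝ) < 4 / √ Real.pi := by positivity
  have e0 : ∀ z : ℝ, z ^ 2 * Real.exp (-z ^ 2) * rf a b z = ramp a b z * (z * Real.exp (-z ^ 2)) := by
    intro z
    rw [← rf_mul (z := z) ha hab]; ring
  have hint := int_f (rf_cont (b := b) ha) (B := 1 / a) (fun z _ => rf_bd ha)
  constructor
  · have h1 : (∫ z in Set.Ioi (0 : ℝ), z ^ 2 * Real.exp (-z ^ 2) * rf a b z) ≤
        ∫ z in Set.Ioi (0 : ℝ), (Set.Ioi a).indicator (fun z => z * Real.exp (-z ^ 2)) z := by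
      apply setIntegral_mono_on hint _ measurableSet_Ioi
      · intro z hz
        rw [e0]
        by_cases h : a < z
        · rw [Set.indicator_of_mem (show z ∈ Set.Ioi a from h)]
          have := mul_le_mul_of_nonneg_right (ramp_bd a b z).2 (show 0 ≤ z * Real.exp (-z ^ 2) from
            mul_nonneg (le_of_lt hz) (Real.exp_pos _).le)
          linarith
        · rw [Set.indicator_of_notMem (show z ∉ Set.Ioi a from h), ramp_low hab (by linarith)]; simp
      · exact ((int_tail 0).1).indicator measurableSet_Ioi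
    rw [setIntegral_indicator measurableSet_Ioi, Set.Ioi_inter_Ioi, max_eq_right ha.le, (int_tail a).2] at h1
    unfold J
    calc 4 / √ Real.pi * (∫ z in Set.Ioi (0 : ℝ), z ^ 2 * Real.exp (-z ^ 2) * rf a b z)
        ≤ 4 / √ Real.pi * (Real.exp (-a ^ 2) / 2) := mul_le_mul_of_nonneg_left h1 hpi.le
      _ = _ := by ring
  · have h1 : (∫ z in Set.Ioi (0 : ℝ), (Set.Ioi b).indicator (fun z => z * Real.exp (-z ^ 2)) z) ≤
        ∫ z in Set.Ioi (0 : ℝ), z ^ 2 * Real.exp (-z ^ 2) * rf a b z := by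
      apply setIntegral_mono_on _ hint measurableSet_Ioi
      · intro z hz
        rw [e0]
        by_cases h : b < z
        · rw [Set.indicator_of_mem (show z ∈ Set.Ioi b from h), ramp_high hab h.le, one_mul]
        · rw [Set.indicator_of_notMem (show z ∉ Set.Ioi b from h)]
          exact mul_nonneg (ramp_bd a b z).1 (mul_nonneg (le_of_lt hz) (Real.exp_pos _).le)
      · exact ((int_tail 0).1).indicator measurableSet_Ioi
    rw [setIntegral_indicator measurableSet_Ioi, Set.Ioi_inter_Ioi, max_eq_right (ha.trans hab).le, (int_tail b).2] at h1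
    unfold J
    calc 2 / √ Real.pi * Real.exp (-b ^ 2) = 4 / √ Real.pi * (Real.exp (-b ^ 2) / 2) := by ring
      _ ≤ _ := mul_le_mul_of_nonneg_left h1 hpi.le

open Classical in
/-- indicator: not merged, and the level is at least `lam √t` -/
noncomputable def ind (lam : ℝ) (t : ℕ) (x : ℕ × ℤ) : ℝ := if x ≠ (0, 0) ∧ lam ≤ Z t x then 1 else 0

/-- THE RAYLEIGH LAW. -/
theorem ray (s : ℕ × ℤ) {lam : ℝ} (hl : 0 ≤ lam) :
    Tendsto (fun t : ℕ => √ (t : ℝ) * it t (ind lam t) s) atTop (𝓝 (2 / √ Real.pi * G s * Real.exp (-lam ^ 2))) := by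
  have hG := G_nonneg s
  rcases hl.eq_or_lt with h | h
  · subst h
    have e : (2 / √ Real.pi * G s * Real.exp (-(0 : ℝ) ^ 2)) = 2 / √ Real.pi * G s := by simp
    rw [e]
    refine (q_asymp s).congr fun t => ?_
    congr 1
    have := it_q t 0 s
    rw [add_zero] at this
    rw [← this]
    apply it_congr
    intro x
    unfold ind
    by_cases h0 : x = (0, 0)
    · rw [h0, q_o, if_neg (by simp)]
    · rw [q_zero_ne _ _ h0, if_pos ⟨h0, Z_nonneg t x⟩]
  · have hc : Continuous fun x : ℝ => 2 / √ Real.pi * G s * Real.exp (-x ^ 2) := by fun_prop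
    rw [Metric.tendsto_nhds]
    intro κ hκ
    obtain ⟨δ, hδ, hcδ⟩ := (Metric.continuous_iff.1 hc) lam (κ / 2) (by positivity)
    obtain ⟨d, hd, hd1, hd2⟩ : ∃ d : ℝ, 0 < d ∧ d < δ ∧ d < lam :=
      ⟨min (δ / 2) (lam / 2), by positivity, (min_le_left _ _).trans_lt (by linarith), (min_le_right _ _).trans_lt (by linarith)⟩
    have c1 := hcδ (lam - d) (by rw [Real.dist_eq]; rw [show lam - d - lam = -d by ring, abs_neg, abs_of_pos hd]; exact hd1)
    have c2 := hcδ (lam + d) (by rw [Real.dist_eq]; rw [show lam + d - lam = d by ring, abs_of_pos hd]; exact hd1)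
    have a0 : 0 < lam - d := by linarith
    have l1 := f_lim s (rf_cont (a := lam - d) (b := lam) a0) (rf_lim a0) (B := 1 / (lam - d)) (fun z _ => rf_bd a0)
    have l2 := f_lim s (rf_cont (a := lam) (b := lam + d) h) (rf_lim h) (B := 1 / lam) (fun z _ => rf_bd h)
    have j1 := (J_rf (a := lam - d) (b := lam) a0 (by linarith)).1
    have j2 := (J_rf (a := lam) (b := lam + d) h (by linarith)).2
    filter_upwards [(Metric.tendsto_nhds.1 l1) (κ / 2) (by positivity), (Metric.tendsto_nhds.1 l2) (κ / 2) (by positivity),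
      eventually_ge_atTop 1] with t h1 h2 ht
    have ht0 : (0 : ℝ) < t := by exact_mod_cast ht
    have hst : (0 : ℝ) < √ (t : ℝ) := by positivity
    have up : √ (t : ℝ) * it t (ind lam t) s ≤ √ (t : ℝ) * it t (fun x => Z t x * rf (lam - d) lam (Z t x)) s := by
      apply mul_le_mul_of_nonneg_left _ hst.le
      apply it_mono
      intro x
      rw [rf_mul a0 (by linarith)]
      unfold ind
      split_ifs with h3
      · rw [ramp_high (by linarith) h3.2]
      · exact (ramp_bd _ _ _).1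
    have low : √ (t : ℝ) * it t (fun x => Z t x * rf lam (lam + d) (Z t x)) s ≤ √ (t : ℝ) * it t (ind lam t) s := by
      apply mul_le_mul_of_nonneg_left _ hst.le
      apply it_mono
      intro x
      rw [rf_mul h (by linarith)]
      by_cases h3 : lam ≤ Z t x
      · have h4 : x ≠ (0, 0) := by
          rintro rfl
          unfold Z at h3
          simp at h3
          linarith
        unfold ind
        rw [if_pos ⟨h4, h3⟩]
        exact (ramp_bd _ _ _).2
      · rw [ramp_low (by linarith) (by linarith)]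
        unfold ind
        rw [if_neg (fun h5 => h3 h5.2)]
    rw [Real.dist_eq, abs_lt] at h1 h2 c1 c2
    rw [Real.dist_eq, abs_lt]
    have g1 := mul_le_mul_of_nonneg_left j1 hG
    have g2 := mul_le_mul_of_nonneg_left j2 hG
    constructor
    · have : G s * (2 / √ Real.pi * Real.exp (-(lam + d) ^ 2)) = 2 / √ Real.pi * G s * Real.exp (-(lam + d) ^ 2) := by ring
      linarith [c2.1, h2.1]
    · have : G s * (2 / √ Real.pi * Real.exp (-(lam - d) ^ 2)) = 2 / √ Real.pi * G s * Real.exp (-(lam - d) ^ 2) := by ring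
      linarith [c1.2, h1.2]

end Pool.Agent.J4H26.CC
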