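import Mathlib
import Pool.Agent.J4H26.CC.R2

set_option autoImplicit false

/-! From the chain of the pairs to the trajectories of two linear forms. -/

namespace Pool.Agent.J4H26.CC

open Finset Filter Topology
open Pool.Agent.H499R2.CO (q step step_ef step_et step_0f step_0t step_sf step_st P)
open Pool.Agent.J4H39 (stP rn ex Per pb sw rel_nat rn_sw per_rn ex_affine pow3_odd T od rel_rn rn_of_merge T_add od_add
  ex_zero ex_shift pb_eq_card pb_nonneg)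

/-- the mean of `F` over the states at time `k` -/
noncomputable def eF (F : ℤ × ℤ → ℝ) (k : ℕ) (s : ℤ × ℤ) : ℝ := ex k (fun y => F (rn stP k s y))

theorem per_F (F : ℤ × ℤ → ℝ) (k : ℕ) (s : ℤ × ℤ) : Per k (fun y => F (rn stP k s y)) :=
  (per_rn stP s (le_refl k)).comp F

theorem eF_sw_nat {F : ℤ × ℤ → ℝ} (hF : ∀ s, F (sw s) = F s) (k i : ℕ) (r : ℤ) :
    eF F k (-(i : ℤ), r) = eF F k ((i : ℤ), -r) := by
  unfold eF
  rw [← ex_affine k (per_F F k (-(i : ℤ), r)) (pow3_odd i) (-r)]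
  unfold ex
  congr 1
  apply sum_congr rfl
  intro m _
  have h := rel_nat i (-r) (m : ℤ)
  have h2 := rn_sw h k
  have e : sw ((i : ℤ), -r) = (-(i : ℤ), r) := by unfold sw; simp
  rw [e] at h2
  show F (rn stP k (-(i : ℤ), r) (3 ^ i * ((m : ℕ) : ℤ) + -r)) = F (rn stP k ((i : ℤ), -r) ((m : ℕ) : ℤ))
  rw [h2, hF]

theorem eF_sw {F : ℤ × ℤ → ℝ} (hF : ∀ s, F (sw s) = F s) (k : ℕ) (s : ℤ × ℤ) : eF F k (sw s) = eF F k s := by
  obtain ⟨D, r⟩ := s
  rcases le_total 0 D with h | h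
  · obtain ⟨i, rfl⟩ := Int.eq_ofNat_of_zero_le h
    unfold sw
    simp only
    rw [eF_sw_nat hF, neg_neg]
  · obtain ⟨i, hi⟩ := Int.eq_ofNat_of_zero_le (show 0 ≤ -D by omega)
    have : D = -(i : ℤ) := by omega
    subst this
    unfold sw
    simp only
    rw [neg_neg, eF_sw_nat hF]

theorem cast_f {F : ℤ × ℤ → ℝ} (i : ℕ) (r : ℤ) :
    F (stP ((i : ℤ), r) 0) = F (((step (i, r) false).1 : ℤ), (step (i, r) false).2) := by
  rcases Int.emod_two_eq_zero_or_one r with h | h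
  · rw [stP_e h, step_ef h]
  · cases i with
    | zero => rw [step_0f h]; simp only [Nat.cast_zero, Nat.cast_one]; rw [stP_0f h]
    | succ i => rw [step_sf h, stP_sf h]

theorem cast_t {F : ℤ × ℤ → ℝ} (hF : ∀ s, F (sw s) = F s) (i : ℕ) (r : ℤ) :
    F (stP ((i : ℤ), r) 1) = F (((step (i, r) true).1 : ℤ), (step (i, r) true).2) := by
  rcases Int.emod_two_eq_zero_or_one r with h | h
  · rw [stP_e1 h, step_et h]
  · cases i with
    | zero =>
      rw [step_0t h]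
      simp only [Nat.cast_zero, Nat.cast_one]
      rw [stP_0t h, ← hF]
      unfold sw
      simp only [neg_neg]
      congr 2
      omega
    | succ i => rw [step_st h, stP_st h]

theorem it_eq_eF {F : ℤ × ℤ → ℝ} (hF : ∀ s, F (sw s) = F s) (k : ℕ) : ∀ (i : ℕ) (r : ℤ),
    it k (fun x => F ((x.1 : ℤ), x.2)) (i, r) = eF F k ((i : ℤ), r) := by
  induction k with
  | zero =>
    intro i r
    unfold eF
    rw [ex_zero]; rfl
  | succ k ih =>
    intro i r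
    have h1 : eF F (k + 1) ((i : ℤ), r) = (eF F k (stP ((i : ℤ), r) 0) + eF F k (stP ((i : ℤ), r) 1)) / 2 :=
      ex_run k F ((i : ℤ), r)
    rw [h1, cast_f (F := eF F k), cast_t (F := eF F k) (eF_sw hF k)]
    show P (it k (fun x => F ((x.1 : ℤ), x.2))) (i, r) = _
    unfold P
    rw [← ih, ← ih]

/-- the start -/
def s0 (a b : ℕ) (r s : ℤ) : ℤ × ℤ := (((b - a : ℕ) : ℤ), s - 3 ^ (b - a) * r)

theorem form_eq {a b : ℕ} (hab : a ≤ b) (r s m : ℤ) : (3 : ℤ) ^ (b - a) * (3 ^ a * m + r) + (s - 3 ^ (b - a) * r) = 3 ^ b * m + s := by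
  have : (3 : ℤ) ^ b = 3 ^ (b - a) * 3 ^ a := by rw [← pow_add]; congr 1; omega
  rw [this]; ring

theorem rel0 {a b : ℕ} (hab : a ≤ b) (r s m : ℤ) : Pool.Agent.J4H39.Rel (s0 a b r s) (3 ^ a * m + r) (3 ^ b * m + s) := by
  have h := rel_nat (b - a) (s - 3 ^ (b - a) * r) (3 ^ a * m + r)
  rw [form_eq hab] at h
  exact h

/-- the difference of the exponents of three -/
def dd (a b : ℕ) (r s : ℤ) (t : ℕ) (m : ℤ) : ℤ := ((b : ℤ) + od t (3 ^ b * m + s)) - (a + od t (3 ^ a * m + r))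

theorem rn_fst {a b : ℕ} (hab : a ≤ b) (r s m : ℤ) (t : ℕ) : (rn stP t (s0 a b r s) (3 ^ a * m + r)).1 = dd a b r s t m := by
  have h := (rel_rn (rel0 hab r s m) t).2
  rw [h]
  unfold dd s0
  simp only
  push_cast [hab]
  ring

/-- the level reached -/
def lev (s : ℤ × ℤ) : ℝ := |(s.1 : ℝ)|

theorem lev_sw (s : ℤ × ℤ) : lev (sw s) = lev s := by unfold lev sw; simp

open Classical in
/-- the indicator of the event -/
noncomputable def indZ (lam : ℝ) (t : ℕ) (s : ℤ × ℤ) : ℝ := if s ≠ (0, 0) ∧ lam * √ (t : ℝ) ≤ lev s then 1 else 0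

theorem sw_zero_iff (s : ℤ × ℤ) : sw s = (0, 0) ↔ s = (0, 0) := by
  unfold sw
  constructor
  · intro h
    rw [Prod.mk.injEq] at h
    apply Prod.ext <;> simp only <;> omega
  · rintro rfl; simp

theorem indZ_sw (lam : ℝ) (t : ℕ) (s : ℤ × ℤ) : indZ lam t (sw s) = indZ lam t s := by
  unfold indZ
  simp only [ne_eq, sw_zero_iff, lev_sw]

theorem ind_eq {lam : ℝ} {t : ℕ} (ht : 1 ≤ t) (x : ℕ × ℤ) : ind lam t x = indZ lam t ((x.1 : ℤ), x.2) := by
  have ht0 : (0 : ℝ) < t := by exact_mod_cast ht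
  have hst : (0 : ℝ) < √ (t : ℝ) := by positivity
  unfold ind indZ Z lev
  have e1 : x ≠ (0, 0) ↔ (((x.1 : ℕ) : ℤ), x.2) ≠ (0, 0) := by
    obtain ⟨i, r⟩ := x
    simp only [ne_eq, Prod.mk.injEq, Nat.cast_eq_zero]
  have e2 : lam ≤ (x.1 : ℝ) / √ (t : ℝ) ↔ lam * √ (t : ℝ) ≤ |(((x.1 : ℕ) : ℤ) : ℝ)| := by
    rw [le_div_iff₀ hst]
    push_cast
    rw [abs_of_nonneg (by positivity)]
  simp only [e1, e2]

/-- the event for the class of `m` -/
def Ev (a b : ℕ) (r s : ℤ) (lam : ℝ) (t : ℕ) (m : ℤ) : Prop :=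
  rn stP t (s0 a b r s) (3 ^ a * m + r) ≠ (0, 0) ∧ lam * √ (t : ℝ) ≤ |(dd a b r s t m : ℝ)|

theorem per_Ev {a b : ℕ} (hab : a ≤ b) (r s : ℤ) (lam : ℝ) (t : ℕ) : Per t (Ev a b r s lam t) := by
  intro m u
  have e : rn stP t (s0 a b r s) (3 ^ a * (m + 2 ^ t * u) + r) = rn stP t (s0 a b r s) (3 ^ a * m + r) := by
    rw [show (3 : ℤ) ^ a * (m + 2 ^ t * u) + r = (3 ^ a * m + r) + 2 ^ t * (3 ^ a * u) by ring]
    exact per_rn stP _ (le_refl t) _ _
  unfold Ev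
  rw [← rn_fst hab, ← rn_fst hab, e]

theorem pb_Ev {a b : ℕ} (hab : a ≤ b) (r s : ℤ) (lam : ℝ) {t : ℕ} (ht : 1 ≤ t) :
    pb t (Ev a b r s lam t) = it t (ind lam t) (b - a, s - 3 ^ (b - a) * r) := by
  have h1 : it t (ind lam t) (b - a, s - 3 ^ (b - a) * r) = eF (indZ lam t) t (s0 a b r s) := by
    rw [← show _ = eF (indZ lam t) t (s0 a b r s) from it_eq_eF (indZ_sw lam t) t (b - a) (s - 3 ^ (b - a) * r)]
    exact it_congr t (ind_eq ht) _
  rw [h1]
  unfold eF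
  rw [← ex_affine t (per_F (indZ lam t) t (s0 a b r s)) (pow3_odd a) r]
  unfold pb
  congr 1
  ext m
  unfold indZ Ev lev
  rw [rn_fst hab]
  congr

/-- the mean of the absolute value of the difference of the exponents -/
noncomputable def mean (a b : ℕ) (r s : ℤ) (j : ℕ) : ℝ :=
  (∑ m ∈ range (2 ^ j), |(dd a b r s j ((m : ℕ) : ℤ) : ℝ)|) / 2 ^ j

theorem mean_eq {a b : ℕ} (hab : a ≤ b) (r s : ℤ) (j : ℕ) : mean a b r s j = al j (b - a, s - 3 ^ (b - a) * r) := by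
  rw [← it_al]
  have h1 : it j (fun x => (x.1 : ℝ)) (b - a, s - 3 ^ (b - a) * r) = eF lev j (s0 a b r s) := by
    rw [← show _ = eF lev j (s0 a b r s) from it_eq_eF lev_sw j (b - a) (s - 3 ^ (b - a) * r)]
    apply it_congr
    intro x
    unfold lev
    push_cast
    rw [abs_of_nonneg (by positivity)]
  rw [h1]
  unfold eF
  rw [← ex_affine j (per_F lev j (s0 a b r s)) (pow3_odd a) r]
  unfold mean ex
  congr 1
  apply sum_congr rfl
  intro m _
  show _ = lev (rn stP j (s0 a b r s) (3 ^ a * ((m : ℕ) : ℤ) + r))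
  unfold lev
  rw [rn_fst hab]

open Classical in
/-- counting a periodic set in an interval -/
theorem count_per {t : ℕ} {P : ℤ → Prop} (hP : Per t P) (x : ℤ) (N : ℕ) :
    |(#{v ∈ range N | P (x + ((v : ℕ) : ℤ))} : ℝ) - N * pb t P| ≤ 2 ^ t * pb t P := by
  have h2 : (0 : ℝ) < 2 ^ t := by positivity
  have hblock : ∀ y : ℤ, (#{v ∈ range (2 ^ t) | P (y + ((v : ℕ) : ℤ))} : ℝ) = 2 ^ t * pb t P := by
    intro y
    have h := ex_shift t hP.ind y
    unfold ex at h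
    unfold pb ex
    rw [div_left_inj' h2.ne'] at h
    rw [mul_div_assoc', mul_div_cancel_left₀ _ h2.ne', ← h, card_filter]
    push_cast
    apply sum_congr rfl
    intro v _
    rw [add_comm]
  have hmul : ∀ M : ℕ, (#{v ∈ range (M * 2 ^ t) | P (x + ((v : ℕ) : ℤ))} : ℝ) = M * (2 ^ t * pb t P) := by
    intro M
    induction M with
    | zero => simp
    | succ M ih =>
      have e1 : range ((M + 1) * 2 ^ t) = range (M * 2 ^ t) ∪ (range (2 ^ t)).map (addLeftEmbedding (M * 2 ^ t)) := by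
        rw [add_mul, one_mul, Finset.range_add_eq_union]
      rw [e1, filter_union, card_union_of_disjoint, filter_map, card_map]
      · push_cast
        rw [ih, add_mul, one_mul]
        congr 1
        rw [← hblock (x + ((M * 2 ^ t : ℕ) : ℤ))]
        congr 2
        ext v
        simp only [mem_filter, mem_range, Function.comp, addLeftEmbedding_apply, and_congr_right_iff]
        intro _
        push_cast
        rw [add_assoc]
      · apply disjoint_filter_filter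
        rw [disjoint_left]
        intro v hv hv2
        simp only [mem_range, Finset.mem_map, addLeftEmbedding_apply] at hv hv2
        obtain ⟨u, _, rfl⟩ := hv2
        omega
  have hp := pb_nonneg t P
  have hd1 : N / 2 ^ t * 2 ^ t ≤ N := Nat.div_mul_le_self N (2 ^ t)
  have hd2 : N < (N / 2 ^ t + 1) * 2 ^ t := by
    have := Nat.lt_div_mul_add (a := N) (show 0 < 2 ^ t by positivity)
    rw [add_mul, one_mul]; exact this
  have c1 : (#{v ∈ range (N / 2 ^ t * 2 ^ t) | P (x + ((v : ℕ) : ℤ))} : ℝ) ≤ #{v ∈ range N | P (x + ((v : ℕ) : ℤ))} := by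
    exact_mod_cast card_le_card (filter_subset_filter _ (range_subset_range.2 hd1))
  have c2 : (#{v ∈ range N | P (x + ((v : ℕ) : ℤ))} : ℝ) ≤ #{v ∈ range ((N / 2 ^ t + 1) * 2 ^ t) | P (x + ((v : ℕ) : ℤ))} := by
    exact_mod_cast card_le_card (filter_subset_filter _ (range_subset_range.2 hd2.le))
  rw [hmul] at c1 c2
  have r1 : ((N / 2 ^ t : ℕ) : ℝ) * 2 ^ t ≤ N := by exact_mod_cast hd1
  have r2 : (N : ℝ) ≤ (((N / 2 ^ t : ℕ) : ℝ) + 1) * 2 ^ t := by exact_mod_cast hd2.le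
  push_cast at c1 c2
  rw [abs_le]
  constructor
  · have : (N : ℝ) * pb t P ≤ ((((N / 2 ^ t : ℕ) : ℝ) + 1) * 2 ^ t) * pb t P := mul_le_mul_of_nonneg_right r2 hp
    nlinarith
  · have : (((N / 2 ^ t : ℕ) : ℝ) * 2 ^ t) * pb t P ≤ N * pb t P := mul_le_mul_of_nonneg_right r1 hp
    nlinarith

open Classical in
/-- accidental meetings are rare -/
theorem count_acc {a b : ℕ} (hab : a ≤ b) (r s : ℤ) (lam : ℝ) (t : ℕ) (x : ℤ) (N : ℕ) :
    (#{v ∈ range N | Ev a b r s lam t (x + ((v : ℕ) : ℤ)) ∧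
      T^[t] (3 ^ a * (x + ((v : ℕ) : ℤ)) + r) = T^[t] (3 ^ b * (x + ((v : ℕ) : ℤ)) + s)} : ℝ) ≤ 2 ^ t * pb t (Ev a b r s lam t) := by
  have h2 : (0 : ℝ) < 2 ^ t := by positivity
  rw [pb_eq_card, mul_div_assoc', mul_div_cancel_left₀ _ h2.ne']
  have h2z : (0 : ℤ) < 2 ^ t := by positivity
  apply Nat.cast_le.2
  apply card_le_card_of_injOn (fun v => ((x + ((v : ℕ) : ℤ)) % 2 ^ t).toNat)
  · intro v hv
    simp only [coe_filter, mem_range, Set.mem_ofPred_eq] at hv ⊢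
    have h3 := Int.emod_nonneg (x + ((v : ℕ) : ℤ)) h2z.ne'
    have h4 := Int.emod_lt_of_pos (x + ((v : ℕ) : ℤ)) h2z
    constructor
    · have : ((((x + ((v : ℕ) : ℤ)) % 2 ^ t).toNat : ℕ) : ℤ) < ((2 ^ t : ℕ) : ℤ) := by
        rw [Int.toNat_of_nonneg h3]; push_cast; exact h4
      exact_mod_cast this
    · rw [Int.toNat_of_nonneg h3]
      have h5 := per_Ev hab r s lam t ((x + ((v : ℕ) : ℤ)) % 2 ^ t) ((x + ((v : ℕ) : ℤ)) / 2 ^ t)
      rw [Int.emod_add_mul_ediv] at h5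
      rw [← h5]
      exact hv.2.1
  · intro v hv v' hv' hvv
    simp only [coe_filter, mem_range, Set.mem_ofPred_eq] at hv hv' hvv
    have h3 := Int.emod_nonneg (x + ((v : ℕ) : ℤ)) h2z.ne'
    have h3' := Int.emod_nonneg (x + ((v' : ℕ) : ℤ)) h2z.ne'
    have h4 : (x + ((v : ℕ) : ℤ)) % 2 ^ t = (x + ((v' : ℕ) : ℤ)) % 2 ^ t := by
      rw [← Int.toNat_of_nonneg h3, ← Int.toNat_of_nonneg h3', hvv]
    obtain ⟨u, hu⟩ : (2 : ℤ) ^ t ∣ (x + ((v' : ℕ) : ℤ)) - (x + ((v : ℕ) : ℤ)) := Int.ModEq.dvd h4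
    obtain ⟨m, hm⟩ : ∃ m, m = x + ((v : ℕ) : ℤ) := ⟨_, rfl⟩
    have hm' : x + ((v' : ℕ) : ℤ) = m + 2 ^ t * u := by rw [hm]; linarith
    rw [← hm] at hv
    rw [hm'] at hv'
    obtain ⟨_, hE, hM⟩ := hv
    obtain ⟨_, _, hM'⟩ := hv'
    rw [show (3 : ℤ) ^ a * (m + 2 ^ t * u) + r = (3 ^ a * m + r) + 2 ^ t * (3 ^ a * u) by ring,
      show (3 : ℤ) ^ b * (m + 2 ^ t * u) + s = (3 ^ b * m + s) + 2 ^ t * (3 ^ b * u) by ring, T_add, T_add, hM] at hM'
    have h5 : (3 : ℤ) ^ (od t (3 ^ a * m + r)) * (3 ^ a * u) = 3 ^ (od t (3 ^ b * m + s)) * (3 ^ b * u) := by linarith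
    rw [← mul_assoc, ← mul_assoc, ← pow_add, ← pow_add] at h5
    by_cases hu0 : u = 0
    · subst hu0
      have : x + ((v' : ℕ) : ℤ) = x + ((v : ℕ) : ℤ) := by rw [hm', hm]; ring
      omega
    · exfalso
      have h6 := mul_right_cancel₀ hu0 h5
      have h7 : od t (3 ^ a * m + r) + a = od t (3 ^ b * m + s) + b := by
        have h8 : (3 : ℕ) ^ (od t (3 ^ a * m + r) + a) = 3 ^ (od t (3 ^ b * m + s) + b) := by exact_mod_cast h6
        exact Nat.pow_right_injective (by norm_num) h8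
      apply hE.1
      apply rn_of_merge (rel0 hab r s m) hM
      unfold s0
      simp only
      push_cast [hab]
      omega

/-- the proportion of the `m` in `[x, x + N)` for which the trajectories have not merged and the exponents differ by at
least `lam √t` -/
noncomputable def prop (a b : ℕ) (r s : ℤ) (lam : ℝ) (t : ℕ) (x : ℤ) (N : ℕ) : ℝ :=
  ({m : ℤ | x ≤ m ∧ m < x + N ∧ T^[t] (3 ^ a * m + r) ≠ T^[t] (3 ^ b * m + s) ∧
    lam * √ (t : ℝ) ≤ |(dd a b r s t m : ℝ)|}.ncard : ℝ) / N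

open Classical in
theorem ncard_eq (x : ℤ) (N : ℕ) (P : ℤ → Prop) :
    {m : ℤ | x ≤ m ∧ m < x + N ∧ P m}.ncard = #{v ∈ range N | P (x + ((v : ℕ) : ℤ))} := by
  have e : {m : ℤ | x ≤ m ∧ m < x + N ∧ P m} = (fun v : ℕ => x + ((v : ℕ) : ℤ)) '' ((#{v ∈ range N | P (x + ((v : ℕ) : ℤ))} : ℕ) |> fun _ => (({v ∈ range N | P (x + ((v : ℕ) : ℤ))} : Finset ℕ) : Set ℕ)) := by
    ext m
    simp only [Set.mem_ofPred_eq, Set.mem_image, coe_filter, mem_range]
    constructor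
    · rintro ⟨h1, h2, h3⟩
      refine ⟨(m - x).toNat, ⟨by omega, ?_⟩, by omega⟩
      rw [show x + (((m - x).toNat : ℕ) : ℤ) = m by omega]
      exact h3
    · rintro ⟨v, ⟨h1, h2⟩, rfl⟩
      exact ⟨by omega, by omega, h2⟩
  rw [e, Set.ncard_image_of_injective _ (fun v v' h => by simpa using h), Set.ncard_coe_finset]

theorem prop_near {a b : ℕ} (hab : a ≤ b) (r s : ℤ) (lam : ℝ) {t : ℕ} (x : ℤ) {N : ℕ} (hN : 1 ≤ N) :
    |prop a b r s lam t x N - pb t (Ev a b r s lam t)| ≤ 2 * pb t (Ev a b r s lam t) * (2 ^ t / N) := by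
  classical
  have hN0 : (0 : ℝ) < N := by exact_mod_cast hN
  have h1 := count_per (per_Ev hab r s lam t) x N
  have h2 := count_acc hab r s lam t x N
  have h3 : (#{v ∈ range N | Ev a b r s lam t (x + ((v : ℕ) : ℤ))} : ℝ) =
      #{v ∈ range N | T^[t] (3 ^ a * (x + ((v : ℕ) : ℤ)) + r) ≠ T^[t] (3 ^ b * (x + ((v : ℕ) : ℤ)) + s) ∧
        lam * √ (t : ℝ) ≤ |(dd a b r s t (x + ((v : ℕ) : ℤ)) : ℝ)|} +
      #{v ∈ range N | Ev a b r s lam t (x + ((v : ℕ) : ℤ)) ∧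
        T^[t] (3 ^ a * (x + ((v : ℕ) : ℤ)) + r) = T^[t] (3 ^ b * (x + ((v : ℕ) : ℤ)) + s)} := by
    rw [← Nat.cast_add, ← card_union_of_disjoint]
    · congr 2
      ext v
      simp only [mem_filter, mem_union, mem_range]
      constructor
      · rintro ⟨h4, h5⟩
        by_cases h6 : T^[t] (3 ^ a * (x + ((v : ℕ) : ℤ)) + r) = T^[t] (3 ^ b * (x + ((v : ℕ) : ℤ)) + s)
        · right; exact ⟨h4, h5, h6⟩
        · left; exact ⟨h4, h6, h5.2⟩
      · rintro (⟨h4, h5, h6⟩ | ⟨h4, h5, _⟩)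
        · refine ⟨h4, ?_, h6⟩
          intro h7
          exact h5 (Pool.Agent.J4H39.merge_of_rn (rel0 hab r s _) h7).1
        · exact ⟨h4, h5⟩
    · rw [disjoint_left]
      intro v hv hv'
      simp only [mem_filter] at hv hv'
      exact hv.2.1 hv'.2.2
  have hprop : prop a b r s lam t x N = (#{v ∈ range N | T^[t] (3 ^ a * (x + ((v : ℕ) : ℤ)) + r) ≠ T^[t] (3 ^ b * (x + ((v : ℕ) : ℤ)) + s) ∧
        lam * √ (t : ℝ) ≤ |(dd a b r s t (x + ((v : ℕ) : ℤ)) : ℝ)|} : ℝ) / N := by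
    unfold prop
    have := ncard_eq x N (fun m => T^[t] (3 ^ a * m + r) ≠ T^[t] (3 ^ b * m + s) ∧
      lam * √ (t : ℝ) ≤ |(dd a b r s t m : ℝ)|)
    rw [this]
    congr!
  rw [hprop]
  have h4 : |(#{v ∈ range N | T^[t] (3 ^ a * (x + ((v : ℕ) : ℤ)) + r) ≠ T^[t] (3 ^ b * (x + ((v : ℕ) : ℤ)) + s) ∧
        lam * √ (t : ℝ) ≤ |(dd a b r s t (x + ((v : ℕ) : ℤ)) : ℝ)|} : ℝ) - N * pb t (Ev a b r s lam t)| ≤
      2 * (2 ^ t * pb t (Ev a b r s lam t)) := by
    rw [abs_le] at h1 ⊢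
    have h5 : (0 : ℝ) ≤ #{v ∈ range N | Ev a b r s lam t (x + ((v : ℕ) : ℤ)) ∧
        T^[t] (3 ^ a * (x + ((v : ℕ) : ℤ)) + r) = T^[t] (3 ^ b * (x + ((v : ℕ) : ℤ)) + s)} := Nat.cast_nonneg _
    constructor <;> linarith [h1.1, h1.2]
  have e : (#{v ∈ range N | T^[t] (3 ^ a * (x + ((v : ℕ) : ℤ)) + r) ≠ T^[t] (3 ^ b * (x + ((v : ℕ) : ℤ)) + s) ∧
        lam * √ (t : ℝ) ≤ |(dd a b r s t (x + ((v : ℕ) : ℤ)) : ℝ)|} : ℝ) / N - pb t (Ev a b r s lam t) =
      ((#{v ∈ range N | T^[t] (3 ^ a * (x + ((v : ℕ) : ℤ)) + r) ≠ T^[t] (3 ^ b * (x + ((v : ℕ) : ℤ)) + s) ∧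
        lam * √ (t : ℝ) ≤ |(dd a b r s t (x + ((v : ℕ) : ℤ)) : ℝ)|} : ℝ) - N * pb t (Ev a b r s lam t)) / N := by
    field_simp
  rw [e, abs_div, abs_of_pos hN0, div_le_iff₀ hN0]
  refine h4.trans (le_of_eq ?_)
  field_simp

theorem half {a b : ℕ} (hab : a ≤ b) (r s : ℤ) : ∃ g : ℝ, ((b : ℝ) - a ≤ g) ∧ (g = 0 ↔ a = b ∧ r = s) ∧ (g ≠ 0 → 1 ≤ g) ∧
    Tendsto (mean a b r s) atTop (𝓝 g) ∧ (∀ j, mean a b r s j ≤ g) ∧
    ∀ lam : ℝ, 0 ≤ lam → ∀ ε : ℝ, 0 < ε → ∃ K : ℕ, ∀ t N : ℕ, K ≤ t → K * 2 ^ t ≤ N → ∀ x : ℤ,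
      |√ (t : ℝ) * prop a b r s lam t x N - 2 / √ Real.pi * g * Real.exp (-lam ^ 2)| ≤ ε := by
  have hx : ((b - a : ℕ), s - 3 ^ (b - a) * r) = ((0 : ℕ), (0 : ℤ)) ↔ a = b ∧ r = s := by
    rw [Prod.mk.injEq]
    constructor
    · rintro ⟨h1, h2⟩
      have : b = a := by omega
      subst this
      rw [Nat.sub_self, pow_zero] at h2
      exact ⟨rfl, by linarith⟩
    · rintro ⟨rfl, rfl⟩
      simp
  refine ⟨G (b - a, s - 3 ^ (b - a) * r), ?_, ?_, ?_, ?_, ?_, ?_⟩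
  · have := G_level (b - a, s - 3 ^ (b - a) * r)
    simp only at this
    rwa [Nat.cast_sub hab] at this
  · rw [← hx]
    constructor
    · intro h
      by_contra hcon
      have := G_pos hcon
      linarith
    · intro h
      rw [h, G_o]
  · intro h
    apply G_pos
    intro h2
    rw [h2, G_o] at h
    exact h rfl
  · refine (al_tendsto (b - a, s - 3 ^ (b - a) * r)).congr fun j => ?_
    rw [mean_eq hab]
  · intro j
    rw [mean_eq hab]
    exact al_le_G _ _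
  · intro lam hlam ε hε
    have h := ray (b - a, s - 3 ^ (b - a) * r) hlam
    set l := 2 / √ Real.pi * G (b - a, s - 3 ^ (b - a) * r) * Real.exp (-lam ^ 2) with hl
    obtain ⟨t1, ht1⟩ := eventually_atTop.1 ((Metric.tendsto_nhds.1 h) (min (ε / 2) 1) (by positivity))
    have hl0 : 0 ≤ l := by
      rw [hl]
      have := G_nonneg (b - a, s - 3 ^ (b - a) * r)
      positivity
    obtain ⟨K1, hK1⟩ := exists_nat_ge (4 * (l + 1) / ε)
    refine ⟨max (max t1 1) (K1 + 1), fun t N ht hN x => ?_⟩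
    have htt1 : t1 ≤ t := ((le_max_left _ _).trans (le_max_left _ _)).trans ht
    have ht1' : 1 ≤ t := ((le_max_right _ _).trans (le_max_left _ _)).trans ht
    have hN1 : 1 ≤ N := by
      have h1 : 1 ≤ (max (max t1 1) (K1 + 1)) * 2 ^ t := Nat.mul_pos (by
        have := le_max_right (max t1 1) (K1 + 1); omega) (by positivity)
      omega
    have hN0 : (0 : ℝ) < N := by exact_mod_cast hN1
    have h1 := ht1 t htt1
    rw [Real.dist_eq, ← pb_Ev hab r s lam ht1'] at h1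
    have h2 := prop_near hab r s lam (t := t) x hN1
    set p := pb t (Ev a b r s lam t) with hp
    have hp0 : 0 ≤ p := pb_nonneg _ _
    have hst : 0 ≤ √ (t : ℝ) := Real.sqrt_nonneg _
    have h3 : √ (t : ℝ) * p ≤ l + 1 := by
      have := (abs_lt.1 h1).2
      have h4 := min_le_right (ε / 2) 1
      linarith
    have h4 : (2 : ℝ) ^ t / N ≤ ε / (4 * (l + 1)) := by
      rw [div_le_div_iff₀ hN0 (by positivity)]
      rw [div_le_iff₀ hε] at hK1
      have h5 : ((K1 : ℝ)) * 2 ^ t ≤ N := by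
        have h6 : K1 * 2 ^ t ≤ N := by
          refine le_trans ?_ hN
          apply Nat.mul_le_mul_right
          have := le_max_right (max t1 1) (K1 + 1)
          omega
        exact_mod_cast h6
      have h7 : (0 : ℝ) < 2 ^ t := by positivity
      nlinarith
    have h5 : |√ (t : ℝ) * prop a b r s lam t x N - √ (t : ℝ) * p| ≤ ε / 2 := by
      rw [← mul_sub, abs_mul, abs_of_nonneg hst]
      calc √ (t : ℝ) * |prop a b r s lam t x N - p| ≤ √ (t : ℝ) * (2 * p * (2 ^ t / N)) := by gcongr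
        _ = 2 * (√ (t : ℝ) * p) * (2 ^ t / N) := by ring
        _ ≤ 2 * (l + 1) * (ε / (4 * (l + 1))) := by gcongr
        _ = ε / 2 := by field_simp; ring
    have h6 : |√ (t : ℝ) * p - l| ≤ ε / 2 := h1.le.trans (min_le_left _ _)
    calc |√ (t : ℝ) * prop a b r s lam t x N - l| = |(√ (t : ℝ) * prop a b r s lam t x N - √ (t : ℝ) * p) + (√ (t : ℝ) * p - l)| := by
          congr 1; ring
      _ ≤ ε / 2 + ε / 2 := (abs_add_le _ _).trans (add_le_add h5 h6)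
      _ = ε := by ring

end Pool.Agent.J4H26.CC
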