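import Mathlib
import Pool.Agent.J4H26.CC.S

set_option autoImplicit false

/-! The law of the coalescence of two linear forms, in all cases. -/

namespace Pool.Agent.J4H26.CC

open Finset Filter Topology
open Pool.Agent.J4H39 (T od)

theorem dd_symm (a b : ℕ) (r s : ℤ) (t : ℕ) (m : ℤ) : dd b a s r t m = -dd a b r s t m := by
  unfold dd; ring

theorem mean_symm (a b : ℕ) (r s : ℤ) (j : ℕ) : mean b a s r j = mean a b r s j := by
  unfold mean
  congr 1
  apply sum_congr rfl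
  intro m _
  rw [dd_symm]
  push_cast
  rw [abs_neg]

theorem prop_symm (a b : ℕ) (r s : ℤ) (lam : ℝ) (t : ℕ) (x : ℤ) (N : ℕ) :
    prop b a s r lam t x N = prop a b r s lam t x N := by
  unfold prop
  congr 3
  ext m
  simp only [Set.mem_ofPred_eq]
  rw [dd_symm, Int.cast_neg, abs_neg, ne_comm]

theorem mean_mono_half {a b : ℕ} (hab : a ≤ b) (r s : ℤ) (j : ℕ) : mean a b r s j ≤ mean a b r s (j + 1) := by
  rw [mean_eq hab, mean_eq hab]
  exact al_mono_succ j _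

/-- the law -/
def Law (a b : ℕ) (r s : ℤ) (g : ℝ) : Prop :=
  ∀ lam : ℝ, 0 ≤ lam → ∀ ε : ℝ, 0 < ε → ∃ K : ℕ, ∀ t N : ℕ, K ≤ t → K * 2 ^ t ≤ N → ∀ x : ℤ,
    |√ (t : ℝ) * prop a b r s lam t x N - 2 / √ Real.pi * g * Real.exp (-lam ^ 2)| ≤ ε

theorem full (a b : ℕ) (r s : ℤ) : ∃ g : ℝ, |(a : ℝ) - b| ≤ g ∧ (g = 0 ↔ a = b ∧ r = s) ∧ (g ≠ 0 → 1 ≤ g) ∧
    (∀ j, mean a b r s j ≤ mean a b r s (j + 1)) ∧ Tendsto (mean a b r s) atTop (𝓝 g) ∧ Law a b r s g := by
  rcases le_total a b with hab | hab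
  · obtain ⟨g, h1, h2, h3, h4, -, h6⟩ := half hab r s
    refine ⟨g, ?_, h2, h3, mean_mono_half hab r s, h4, h6⟩
    have : (a : ℝ) ≤ b := by exact_mod_cast hab
    rw [abs_of_nonpos (by linarith)]
    linarith
  · obtain ⟨g, h1, h2, h3, h4, -, h6⟩ := half hab s r
    have e : mean b a s r = mean a b r s := by
      funext j; exact mean_symm a b r s j
    refine ⟨g, ?_, ?_, h3, ?_, ?_, ?_⟩
    · have : (b : ℝ) ≤ a := by exact_mod_cast hab
      rw [abs_of_nonneg (by linarith)]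
      linarith
    · rw [h2]
      constructor
      · rintro ⟨rfl, rfl⟩; exact ⟨rfl, rfl⟩
      · rintro ⟨rfl, rfl⟩; exact ⟨rfl, rfl⟩
    · rw [← e]; exact mean_mono_half hab s r
    · rw [← e]; exact h4
    · intro lam hlam ε hε
      obtain ⟨K, hK⟩ := h6 lam hlam ε hε
      refine ⟨K, fun t N ht hN x => ?_⟩
      rw [← prop_symm]
      exact hK t N ht hN x

/-- the proportion of the `m` in `[x, x + N)` for which the orbits of the two forms are different forever -/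
noncomputable def never (a b : ℕ) (r s : ℤ) (x : ℤ) (N : ℕ) : ℝ :=
  ({m : ℤ | x ≤ m ∧ m < x + N ∧ ∀ t : ℕ, T^[t] (3 ^ a * m + r) ≠ T^[t] (3 ^ b * m + s)}.ncard : ℝ) / N

theorem never_le (a b : ℕ) (r s : ℤ) (t : ℕ) (x : ℤ) (N : ℕ) : never a b r s x N ≤ prop a b r s 0 t x N := by
  unfold never prop
  apply div_le_div_of_nonneg_right _ (Nat.cast_nonneg N)
  apply Nat.cast_le.2
  apply Set.ncard_le_ncard
  · rintro m ⟨h1, h2, h3⟩
    refine ⟨h1, h2, h3 t, ?_⟩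
    rw [zero_mul]; exact abs_nonneg _
  · apply (Set.finite_Ico x (x + N)).subset
    rintro m ⟨h1, h2, -⟩
    exact ⟨h1, h2⟩

/-- the orbits which never meet -/
theorem never_bound {a b : ℕ} {r s : ℤ} {g : ℝ} (hg : 0 ≤ g) (h : Law a b r s g) {ε : ℝ} (hε : 0 < ε) :
    ∃ N₀ : ℕ, 2 ≤ N₀ ∧ ∀ N : ℕ, N₀ ≤ N → ∀ x : ℤ, √ (Real.log N / Real.log 2) * never a b r s x N ≤ 2 / √ Real.pi * g + ε := by
  have hpi := pi_bd
  set c := 2 / √ Real.pi * g with hc
  have hc0 : 0 ≤ c := mul_nonneg hpi.2.le hg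
  obtain ⟨K, hK⟩ := h 0 le_rfl (ε / 2) (by positivity)
  simp only [ne_eq, OfNat.ofNat_ne_zero, not_false_eq_true, zero_pow, neg_zero, Real.exp_zero, mul_one] at hK
  rw [← hc] at hK
  have hlog2 : 0 < Real.log 2 := Real.log_pos (by norm_num)
  -- choose t = floor (log2 N - log2 (K+1))
  obtain ⟨L, hL⟩ := exists_nat_ge (Real.log (K + 1) / Real.log 2 + 1)
  -- a number t such that (t + L) ≤ (1 + δ) t for t large
  obtain ⟨δ, hδ0, hδ⟩ : ∃ δ : ℝ, 0 < δ ∧ (1 + δ) * (c + ε / 2) ≤ c + ε := by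
    refine ⟨ε / 2 / (c + ε / 2), by positivity, ?_⟩
    have : 0 < c + ε / 2 := by positivity
    field_simp
    linarith
  obtain ⟨t₀, ht₀⟩ := exists_nat_ge ((L : ℝ) / δ)
  refine ⟨2 ^ (L + K + t₀ + 1), ?_, fun N hN x => ?_⟩
  · calc 2 = 2 ^ 1 := by norm_num
      _ ≤ 2 ^ (L + K + t₀ + 1) := Nat.pow_le_pow_right (by norm_num) (by omega)
  have hN1 : 1 ≤ N := le_trans Nat.one_le_two_pow hN
  have hN0 : (0 : ℝ) < N := by exact_mod_cast hN1
  set l := Real.log N / Real.log 2 with hl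
  have hl1 : (L + K + t₀ + 1 : ℕ) ≤ l := by
    rw [hl, le_div_iff₀ hlog2, ← Real.log_pow]
    apply Real.log_le_log (by positivity)
    exact_mod_cast hN
  push_cast at hl1
  set t := ⌊l⌋₊ - L with ht
  have hfl : (⌊l⌋₊ : ℝ) ≤ l := Nat.floor_le (by linarith [Nat.cast_nonneg (α := ℝ) L, Nat.cast_nonneg (α := ℝ) K, Nat.cast_nonneg (α := ℝ) t₀])
  have hfl2 : l < ⌊l⌋₊ + 1 := Nat.lt_floor_add_one l
  have hfl3 : L + K + t₀ + 1 ≤ ⌊l⌋₊ := Nat.le_floor (by push_cast; exact hl1)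
  have htL : t + L = ⌊l⌋₊ := by omega
  have htr : (t : ℝ) + L = ⌊l⌋₊ := by exact_mod_cast htL
  have htK : K ≤ t := by omega
  have htt : t₀ ≤ t := by omega
  have ht1 : 1 ≤ t := by omega
  have hKN : K * 2 ^ t ≤ N := by
    have h1 : ((K : ℝ) + 1) * 2 ^ t ≤ N := by
      have h2 : Real.log (((K : ℝ) + 1) * 2 ^ t) ≤ Real.log N := by
        rw [Real.log_mul (by positivity) (by positivity), Real.log_pow]
        have h3 : Real.log (K + 1) ≤ (L - 1) * Real.log 2 := by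
          rw [← div_le_iff₀ hlog2]; linarith
        have h4 : Real.log N = l * Real.log 2 := by rw [hl]; field_simp
        rw [h4]
        nlinarith
      exact (Real.log_le_log_iff (by positivity) hN0).1 h2
    have h2 : (K : ℝ) * 2 ^ t ≤ N := le_trans (by nlinarith [show (0 : ℝ) < 2 ^ t by positivity]) h1
    exact_mod_cast h2
  have h1 := hK t N htK hKN x
  have h2 : √ (t : ℝ) * prop a b r s 0 t x N ≤ c + ε / 2 := by
    have := (abs_le.1 h1).2; linarith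
  have ht0 : (0 : ℝ) < t := by exact_mod_cast ht1
  have h3 : l ≤ (1 + δ) ^ 2 * t := by
    have h4 : (L : ℝ) ≤ δ * t := by
      rw [div_le_iff₀ hδ0] at ht₀
      have h5 : (t₀ : ℝ) ≤ t := by exact_mod_cast htt
      nlinarith
    have h5 : (1 : ℝ) ≤ L := by
      have h6 : 0 ≤ Real.log ((K : ℝ) + 1) / Real.log 2 := div_nonneg (Real.log_nonneg (by linarith [Nat.cast_nonneg (α := ℝ) K])) hlog2.le
      linarith
    nlinarith [mul_pos hδ0 ht0, mul_pos (mul_pos hδ0 hδ0) ht0]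
  have h4 : √ l ≤ (1 + δ) * √ (t : ℝ) := by
    rw [show (1 + δ) * √ (t : ℝ) = √ ((1 + δ) ^ 2 * t) by
      rw [Real.sqrt_mul (by positivity), Real.sqrt_sq (by positivity)]]
    exact Real.sqrt_le_sqrt h3
  have h5 := never_le a b r s t x N
  have h6 : 0 ≤ prop a b r s 0 t x N := by unfold prop; positivity
  calc √ l * never a b r s x N ≤ ((1 + δ) * √ (t : ℝ)) * prop a b r s 0 t x N := by
        apply mul_le_mul h4 h5 _ (by positivity)
        unfold never; positivity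
    _ = (1 + δ) * (√ (t : ℝ) * prop a b r s 0 t x N) := by ring
    _ ≤ (1 + δ) * (c + ε / 2) := by gcongr
    _ ≤ c + ε := hδ

end Pool.Agent.J4H26.CC
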